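import Pool.Agent.NUX.Ren5
import Pool.Agent.TightS.DefsS
import Pool.Agent.PHW.Num3
import Pool.Agent.PHW.ViaE

/-! Bridges by the number of letters: renewal structure (helper37, TARGET-E). -/

set_option autoImplicit false

namespace HexObs

namespace BrL

open Finset TS

open scoped ENNReal

/-- bridges with n letters -/
def BLs (n : ℕ) : Set (List Bool) := {t | t ∈ BU ∧ t.length = n}

/-- irreducible bridges with n letters -/
def ILs (n : ℕ) : Set (List Bool) := {t | t ∈ IU ∧ t.length = n}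

lemma even_length {T : ℕ} {t : List Bool} (h : t ∈ Brd T) : Even t.length := by
  have h1 := (mem_Brd.1 h).2.2.2
  have h2 := lev_mod t t.length
  by_contra hc
  rw [if_neg hc, h1] at h2
  omega

lemma finite_len (n : ℕ) : {t : List Bool | t.length = n}.Finite := List.finite_length_eq Bool n

lemma gf_finite {P : Set (List Bool)} (h : P.Finite) : gf P ≠ ∞ := by
  have := gf_finset h.toFinset
  rw [h.coe_toFinset] at this
  rw [this]; exact ENNReal.ofReal_ne_top

lemma BLs_ne_top (n : ℕ) : gf (BLs n) ≠ ∞ := gf_finite ((finite_len n).subset fun _ h => h.2)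
lemma ILs_ne_top (n : ℕ) : gf (ILs n) ≠ ∞ := gf_finite ((finite_len n).subset fun _ h => h.2)

/-- weight of the bridges with 2 n letters -/
noncomputable def ub (n : ℕ) : ℝ := (gf (BLs (2 * n))).toReal

/-- weight of the irreducible bridges with 2 n letters -/
noncomputable def fb (n : ℕ) : ℝ := (gf (ILs (2 * n))).toReal

lemma Irr_sub {r : ℕ} {t : List Bool} (h : t ∈ Irr r) : t ∈ BU := ⟨r, h.1⟩

lemma renewal_len (n : ℕ) : gf (BLs (2 * (n + 1)))
    = ∑ k ∈ range (n + 1), gf (BLs (2 * k)) * gf (ILs (2 * (n + 1 - k))) := by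
  have h1 : BLs (2 * (n + 1)) = ⋃ k ∈ range (n + 1),
      {t | ∃ s v, s ∈ ILs (2 * (n + 1 - k)) ∧ v ∈ BLs (2 * k) ∧ t = s ++ v} := by
    ext t
    simp only [Set.mem_iUnion, Finset.mem_range]
    constructor
    · rintro ⟨⟨T, ht⟩, hl⟩
      have hT : 1 ≤ T := by
        rcases Nat.eq_zero_or_pos T with h0 | h0
        · subst h0
          rw [Brd_zero] at ht
          have : t = [] := ht
          rw [this] at hl
          simp only [List.length_nil] at hl
          omega
        · exact h0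
      obtain ⟨r, s, u, h1, h2, h3, h4, h5⟩ := Brd_first ht hT
      obtain ⟨k, hk⟩ := even_length h4
      obtain ⟨j, hj⟩ := even_length h3.1
      have hs : 0 < s.length := List.length_pos_iff.2 h3.2.1
      rw [h5, List.length_append] at hl
      exact ⟨k, by omega, s, u, ⟨⟨r, h3⟩, by omega⟩, ⟨⟨_, h4⟩, by omega⟩, h5⟩
    · rintro ⟨k, hk, s, v, ⟨⟨r, h3⟩, h4⟩, ⟨⟨b, h5⟩, h6⟩, rfl⟩
      exact ⟨⟨r + b, Brd_append h3.1 h5⟩, by rw [List.length_append]; omega⟩
  rw [h1, gf_biUnion]
  · apply Finset.sum_congr rfl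
    intro k _
    rw [mul_comm (gf (BLs (2 * k)))]
    apply le_antisymm
    · apply gf_le_mul
      rintro t ⟨s, u, h3, h4, h5⟩
      exact ⟨s, h3, u, h4, h5⟩
    · apply mul_le_gf
      · intro a ha b hb
        exact ⟨a, b, ha, hb, rfl⟩
      · rintro a ⟨⟨r, ha⟩, _⟩ b ⟨⟨c, hb⟩, _⟩ a' ⟨⟨r', ha'⟩, _⟩ b' ⟨⟨c', hb'⟩, _⟩ h
        exact (Irr_unique ha ha' hb hb' h).1
  · intro i hi j hj hij
    rw [Set.disjoint_left]
    rintro t ⟨s, u, ⟨⟨r, h3⟩, h3'⟩, ⟨⟨b, h4⟩, h4'⟩, h5⟩ ⟨s', u', ⟨⟨r', g3⟩, g3'⟩, ⟨⟨b', g4⟩, g4'⟩, g5⟩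
    have h6 := (Irr_unique h3 g3 h4 g4 (h5.symm.trans g5)).2
    apply hij
    rw [h6] at h4'
    omega

lemma ub_succ (n : ℕ) : ub (n + 1) = ∑ k ∈ range (n + 1), ub k * fb (n + 1 - k) := by
  unfold ub
  rw [renewal_len, ENNReal.toReal_sum fun k _ => ENNReal.mul_ne_top (BLs_ne_top _) (ILs_ne_top _)]
  exact Finset.sum_congr rfl fun k _ => by rw [ENNReal.toReal_mul]; rfl

lemma ub_zero : ub 0 = 1 := by
  have h1 : BLs (2 * 0) = ((({[]} : Finset (List Bool)) : Set (List Bool))) := by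
    ext t
    rw [Finset.coe_singleton, Set.mem_singleton_iff]
    constructor
    · rintro ⟨_, h⟩
      exact List.length_eq_zero_iff.1 (by omega)
    · rintro rfl
      exact ⟨⟨0, nil_mem_Brd⟩, rfl⟩
  unfold ub
  rw [h1, gf_finset]
  simp

lemma fb_zero : fb 0 = 0 := by
  have h1 : ILs (2 * 0) = (((∅ : Finset (List Bool)) : Set (List Bool))) := by
    ext t
    rw [Finset.coe_empty]
    constructor
    · rintro ⟨⟨r, h⟩, hl⟩
      exact absurd (List.length_eq_zero_iff.1 (by omega)) h.2.1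
    · intro h; exact absurd h (Set.notMem_empty t)
  unfold fb
  rw [h1, gf_finset]
  simp

lemma tf_mem : [true, false] ∈ Brd 1 := by
  rw [mem_Brd]
  refine ⟨?_, ?_, by decide, by decide⟩
  · intro i h1 h2
    have : i ≤ 2 := h2
    interval_cases i <;> decide
  · intro i k h1 h2
    have : k ≤ 2 := h2
    interval_cases k <;> interval_cases i <;> decide

lemma fb_one : 0 < fb 1 := by
  have hI : [true, false] ∈ ILs (2 * 1) := by
    refine ⟨⟨1, tf_mem, by simp, ?_⟩, rfl⟩
    intro a b s u hs hu he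
    by_contra hc
    push Not at hc
    have h1 : 1 ≤ a := by
      rcases Nat.eq_zero_or_pos a with h | h
      · subst h; rw [Brd_zero] at hs; exact absurd hs hc.1
      · exact h
    have h2 : 1 ≤ b := by
      rcases Nat.eq_zero_or_pos b with h | h
      · subst h; rw [Brd_zero] at hu; exact absurd hu hc.2
      · exact h
    have h3 := Brd_append hs hu
    rw [← he] at h3
    have := Brd_height tf_mem h3
    omega
  unfold fb
  apply ENNReal.toReal_pos _ (ILs_ne_top _)
  have h1 : gf ({[true, false]} : Set (List Bool)) ≤ gf (ILs (2 * 1)) := gf_mono (Set.singleton_subset_iff.2 hI)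
  intro h0
  rw [h0] at h1
  have h2 := gf_finset {[true, false]}
  rw [Finset.coe_singleton] at h2
  rw [h2, Finset.sum_singleton] at h1
  have h3 := ENNReal.ofReal_eq_zero.1 (le_antisymm h1 zero_le)
  have := pow_pos xc_pos [true, false].length
  linarith

lemma gf_IU : gf IU = 1 := by
  have h1 : IU = ⋃ r, Irr r := by
    ext t; rw [Set.mem_iUnion]; rfl
  rw [h1, K1.gf_iUnion (fun r => Irr r) fun i j t hi hj => Brd_height hi.1 hj.1]
  have h2 : ∀ r, gf (Irr r) = ENNReal.ofReal (kk r) := fun r => kap'_eq r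
  simp_rw [h2]
  rw [← ENNReal.ofReal_tsum_of_nonneg (f := kk) (fun r => ENNReal.toReal_nonneg) summable_kk, tsum_kk,
    ENNReal.ofReal_one]

lemma hasSum_fb : HasSum fb 1 := by
  have h1 : IU = ⋃ n, ILs (2 * n) := by
    ext t
    rw [Set.mem_iUnion]
    constructor
    · rintro ⟨r, h⟩
      obtain ⟨k, hk⟩ := even_length h.1
      exact ⟨k, ⟨r, h⟩, by omega⟩
    · rintro ⟨n, h⟩
      exact h.1
  have h2 := gf_IU
  rw [h1, K1.gf_iUnion (fun n => ILs (2 * n)) (by
    rintro i j t ⟨_, hi⟩ ⟨_, hj⟩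
    omega)] at h2
  have h3 := ENNReal.hasSum_toReal (f := fun n => gf (ILs (2 * n))) (by rw [h2]; exact ENNReal.one_ne_top)
  rw [← ENNReal.tsum_toReal_eq (fun n => ILs_ne_top _), h2, ENNReal.toReal_one] at h3
  exact h3

/-- **the number of letters of the bridges is a renewal process** -/
theorem ren : NUX.Ren fb ub where
  f0 := fb_zero
  fnn := fun _ => ENNReal.toReal_nonneg
  fsum := hasSum_fb
  f1 := fb_one
  u0 := ub_zero
  urec := ub_succ

end BrL

end HexObs
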