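import Pool.Agent.NUX.Ren5

/-! Most terms of a renewal sequence are large (helper37, TARGET-E). -/

set_option autoImplicit false

namespace NUX

open Finset

variable {f u : ℕ → ℝ} {α : ℝ}

lemma rpow_step {s : ℝ} (hs : 0 < s) (hs1 : s ≤ 1) (k : ℕ) :
    ((k : ℝ) + 1) ^ (s - 1) ≤ (((k : ℝ) + 1) ^ s - (k : ℝ) ^ s) / s := by
  have hk : (0 : ℝ) < (k : ℝ) + 1 := by positivity
  have h1 : (1 + -(1 / ((k : ℝ) + 1))) ^ s ≤ 1 + s * -(1 / ((k : ℝ) + 1)) := by
    apply rpow_one_add_le_one_add_mul_self _ hs.le hs1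
    rw [neg_le_neg_iff, div_le_one hk]; linarith [Nat.cast_nonneg (α := ℝ) k]
  have h2 : (k : ℝ) = ((k : ℝ) + 1) * (1 + -(1 / ((k : ℝ) + 1))) := by field_simp; ring
  have h3 : (0 : ℝ) ≤ 1 + -(1 / ((k : ℝ) + 1)) := by
    have : 1 / ((k : ℝ) + 1) ≤ 1 := by rw [div_le_one hk]; linarith [Nat.cast_nonneg (α := ℝ) k]
    linarith
  have h4 : (k : ℝ) ^ s = ((k : ℝ) + 1) ^ s * (1 + -(1 / ((k : ℝ) + 1))) ^ s := by
    rw [← Real.mul_rpow hk.le h3, ← h2]
  have h5 : ((k : ℝ) + 1) ^ (s - 1) = ((k : ℝ) + 1) ^ s * (1 / ((k : ℝ) + 1)) := by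
    rw [Real.rpow_sub_one hk.ne']; ring
  rw [le_div_iff₀ hs, h5, h4]
  have h6 := mul_le_mul_of_nonneg_left h1 (Real.rpow_nonneg hk.le s)
  nlinarith

lemma sum_rpow {s : ℝ} (hs : 0 < s) (hs1 : s ≤ 1) (m : ℕ) :
    ∑ k ∈ range m, ((k : ℝ) + 1) ^ (s - 1) ≤ (m : ℝ) ^ s / s := by
  induction m with
  | zero => simp; positivity
  | succ m ih =>
    rw [sum_range_succ]
    have := rpow_step hs hs1 m
    push_cast
    have e : (((m : ℝ) + 1) ^ s - (m : ℝ) ^ s) / s = ((m : ℝ) + 1) ^ s / s - (m : ℝ) ^ s / s := by ring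
    rw [e] at this
    linarith

lemma sum_filter_le {s : ℝ} (hs1 : s ≤ 1) (P : ℕ → Prop) [DecidablePred P] (n : ℕ) :
    ∑ k ∈ (range n).filter (fun k => P (k + 1)), ((k : ℝ) + 1) ^ (s - 1) ≤
      ∑ k ∈ range ((range n).filter (fun k => P (k + 1))).card, ((k : ℝ) + 1) ^ (s - 1) := by
  induction n with
  | zero => simp
  | succ n ih =>
    rw [range_add_one, filter_insert]
    split_ifs with h
    · rw [sum_insert (by simp), card_insert_of_notMem (by simp), sum_range_succ]
      have h1 : ((range n).filter (fun k => P (k + 1))).card ≤ n := by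
        simpa using card_filter_le (range n) (fun k => P (k + 1))
      have h2 : ((n : ℝ) + 1) ^ (s - 1) ≤ ((((range n).filter (fun k => P (k + 1))).card : ℝ) + 1) ^ (s - 1) := by
        apply Real.rpow_le_rpow_of_nonpos (by positivity) _ (by linarith)
        have : ((((range n).filter (fun k => P (k + 1))).card : ℝ)) ≤ n := by exact_mod_cast h1
        linarith
      linarith
    · exact ih

/-- Most terms of a renewal sequence are large: the number of `k ≤ n` with
`u k ≥ k ^ (α - 1 - ε)` is at least `n ^ (1 - ε)`. -/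
theorem many_large (h : Ren f u) (hα : 1 / 2 ≤ α) (hα1 : α < 1) (hU : Hi u (α - 1)) (hL : Lo (UU u) α)
    {ε : ℝ} (hε : 0 < ε) : ∃ c > 0, ∀ n : ℕ, 1 ≤ n →
      c * (n : ℝ) ^ (1 - ε) ≤ (((range n).filter fun k : ℕ =>
        c * ((k : ℝ) + 1) ^ (α - 1 - ε) ≤ u (k + 1)).card : ℝ) := by
  classical
  set η := min (ε / 4) ((1 - α) / 2) with hη
  have hη0 : 0 < η := lt_min (by positivity) (by linarith)
  have hηε : η ≤ ε / 4 := min_le_left _ _
  have hηα : η ≤ (1 - α) / 2 := min_le_right _ _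
  obtain ⟨C, hC, hu⟩ := hU η hη0
  obtain ⟨c0, hc0, hl⟩ := hL η hη0
  have hs : 0 < α + η := by linarith
  have hs1 : α + η ≤ 1 := by linarith
  have ht : 0 < α - η := by linarith
  have ht1 : α - η ≤ 1 := by linarith
  -- thresholds
  obtain ⟨n0, hn0⟩ := exists_nat_ge ((4 / c0) ^ (1 / (α - η)))
  set c1 := (c0 * (α + η) / (4 * C)) ^ (1 / (α + η)) with hc1
  have hc1p : 0 < c1 := by positivity
  have hu1 : 0 < u 1 := by
    have h1 := h.urec 0
    simp only [zero_add, range_one, sum_singleton, h.u0, one_mul] at h1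
    have h2 := h.f1
    have h3 : u 1 = f 1 := by simpa using h1
    rw [h3]; exact h2
  set c := min (min (c0 * (α - η) / 4) c1) (min (u 1) (1 / (n0 + 1))) with hc
  have hcp : 0 < c := by
    refine lt_min (lt_min (by positivity) hc1p) (lt_min hu1 (by positivity))
  have hcA : c ≤ c0 * (α - η) / 4 := (min_le_left _ _).trans (min_le_left _ _)
  have hcB : c ≤ c1 := (min_le_left _ _).trans (min_le_right _ _)
  have hcC : c ≤ u 1 := (min_le_right _ _).trans (min_le_left _ _)
  have hcD : c ≤ 1 / (n0 + 1) := (min_le_right _ _).trans (min_le_right _ _)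
  refine ⟨c, hcp, fun n hn => ?_⟩
  have hnR : (1 : ℝ) ≤ n := by exact_mod_cast hn
  have hnp : (0 : ℝ) < n := by linarith
  set A := (range n).filter fun k : ℕ => c * ((k : ℝ) + 1) ^ (α - 1 - ε) ≤ u (k + 1) with hA
  rcases Nat.lt_or_ge n n0 with hlt | hge
  · have h0 : (0 : ℕ) ∈ A := by
      rw [hA, mem_filter]
      refine ⟨mem_range.2 (by omega), ?_⟩
      simp only [Nat.cast_zero, zero_add, Real.one_rpow, mul_one]
      exact hcC
    have h1 : (1 : ℝ) ≤ A.card := by exact_mod_cast card_pos.2 ⟨0, h0⟩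
    have h2 : (n : ℝ) ^ (1 - ε) ≤ n := by
      calc (n : ℝ) ^ (1 - ε) ≤ (n : ℝ) ^ (1 : ℝ) := Real.rpow_le_rpow_of_exponent_le hnR (by linarith)
        _ = n := Real.rpow_one _
    have h3 : (n : ℝ) ≤ n0 + 1 := by
      have : (n : ℝ) ≤ n0 := by exact_mod_cast hlt.le
      linarith
    have hn1 : (0 : ℝ) < (n0 : ℝ) + 1 := by positivity
    calc c * (n : ℝ) ^ (1 - ε) ≤ 1 / (n0 + 1) * (n0 + 1) :=
          mul_le_mul hcD (h2.trans h3) (by positivity) (by positivity)
      _ = 1 := by field_simp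
      _ ≤ _ := h1
  · -- large n
    have h1 := hl n hn
    have h2 : (4 : ℝ) ≤ c0 * (n : ℝ) ^ (α - η) := by
      have h3 : (4 / c0) ^ (1 / (α - η)) ≤ (n : ℝ) := hn0.trans (by exact_mod_cast hge)
      have h4 := Real.rpow_le_rpow (by positivity) h3 ht.le
      rw [← Real.rpow_mul (by positivity), one_div_mul_cancel ht.ne', Real.rpow_one, div_le_iff₀ hc0] at h4
      linarith
    have e1 : UU u n = 1 + ∑ k ∈ range n, u (k + 1) := by
      unfold UU
      rw [sum_range_succ', h.u0]; ring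
    have e2 := sum_filter_add_sum_filter_not (range n)
      (fun k : ℕ => c * ((k : ℝ) + 1) ^ (α - 1 - ε) ≤ u (k + 1)) (fun k => u (k + 1))
    have h5 : ∑ k ∈ (range n).filter (fun k : ℕ => ¬ c * ((k : ℝ) + 1) ^ (α - 1 - ε) ≤ u (k + 1)), u (k + 1)
        ≤ c0 / 4 * (n : ℝ) ^ (α - η) := by
      calc _ ≤ ∑ k ∈ (range n).filter (fun k : ℕ => ¬ c * ((k : ℝ) + 1) ^ (α - 1 - ε) ≤ u (k + 1)),
            c * ((k : ℝ) + 1) ^ (α - η - 1) := by
            apply sum_le_sum
            intro k hk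
            have hk2 := (mem_filter.1 hk).2
            push Not at hk2
            refine hk2.le.trans (mul_le_mul_of_nonneg_left ?_ hcp.le)
            apply Real.rpow_le_rpow_of_exponent_le _ (by linarith)
            linarith [Nat.cast_nonneg (α := ℝ) k]
        _ ≤ ∑ k ∈ range n, c * ((k : ℝ) + 1) ^ (α - η - 1) :=
            sum_le_sum_of_subset_of_nonneg (filter_subset _ _) fun k _ _ => by positivity
        _ = c * ∑ k ∈ range n, ((k : ℝ) + 1) ^ (α - η - 1) := by rw [mul_sum]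
        _ ≤ (c0 * (α - η) / 4) * ((n : ℝ) ^ (α - η) / (α - η)) :=
            mul_le_mul hcA (sum_rpow ht ht1 n) (sum_nonneg fun k _ => by positivity) (by positivity)
        _ = _ := by field_simp
    have h6 : ∑ k ∈ A, u (k + 1) ≤ C * ((A.card : ℝ) ^ (α + η) / (α + η)) := by
      calc ∑ k ∈ A, u (k + 1) ≤ ∑ k ∈ A, C * ((k : ℝ) + 1) ^ (α + η - 1) := by
            apply sum_le_sum
            intro k _
            have := hu (k + 1) (by omega)
            push_cast at this
            rw [show α + η - 1 = α - 1 + η by ring]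
            exact this
        _ = C * ∑ k ∈ A, ((k : ℝ) + 1) ^ (α + η - 1) := by rw [mul_sum]
        _ ≤ _ := mul_le_mul_of_nonneg_left
            ((sum_filter_le hs1 (fun j => c * (((j - 1 : ℕ) : ℝ) + 1) ^ (α - 1 - ε) ≤ u j) n).trans
              (sum_rpow hs hs1 _)) hC.le
    have h7 : c0 / 4 * (n : ℝ) ^ (α - η) ≤ C * ((A.card : ℝ) ^ (α + η) / (α + η)) := by
      linarith
    have h8 : (c0 * (α + η) / (4 * C)) * (n : ℝ) ^ (α - η) ≤ (A.card : ℝ) ^ (α + η) := by
      have e3 : C * ((A.card : ℝ) ^ (α + η) / (α + η)) = (C / (α + η)) * (A.card : ℝ) ^ (α + η) := by ring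
      rw [e3] at h7
      have h9 := mul_le_mul_of_nonneg_left h7 (show 0 ≤ (α + η) / C by positivity)
      have e4 : (α + η) / C * (C / (α + η) * (A.card : ℝ) ^ (α + η)) = (A.card : ℝ) ^ (α + η) := by
        field_simp
      rw [e4] at h9
      calc _ = (α + η) / C * (c0 / 4 * (n : ℝ) ^ (α - η)) := by ring
        _ ≤ _ := h9
    have h9 := Real.rpow_le_rpow (by positivity) h8 (show 0 ≤ 1 / (α + η) by positivity)
    rw [← Real.rpow_mul (by positivity) (α + η), mul_one_div_cancel hs.ne', Real.rpow_one,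
      Real.mul_rpow (by positivity) (by positivity), ← hc1, ← Real.rpow_mul (by positivity)] at h9
    refine le_trans (mul_le_mul hcB ?_ (by positivity) hc1p.le) h9
    apply Real.rpow_le_rpow_of_exponent_le hnR
    rw [mul_one_div, le_div_iff₀ hs]
    nlinarith

end NUX
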