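import Pool.Agent.NUX.Br2
import Pool.Agent.NUX.Ren6

/-! Bridges by the number of letters: the exponents from the two size inputs (helper37, TARGET-E). -/

set_option autoImplicit false

namespace HexObs

namespace BrL

open Finset TS SDN T2 NUX

open scoped ENNReal

/-- the exponents of the bridges by the number of letters -/
theorem bridges_letters (hM : ∀ a' : ℝ, 4 / 3 < a' → ∃ C : ℝ, 0 ≤ C ∧ MeanLen a' C)
    (hL : LongWalks (1 / 3)) :
    Hi (NUX.UU ub) (9 / 16) ∧ Lo (NUX.UU ub) (9 / 16) ∧ Hi ub (9 / 16 - 1) ∧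
      Hi (Fb fb) (-(9 / 16)) ∧ Lo (Fb fb) (-(9 / 16)) := by
  have h1 : Lo (NUX.UU ub) (9 / 16) := by
    have := lo_UU (a0 := 4 / 3) (by norm_num) hM
    norm_num at this
    exact this
  have h2 : Hi (NUX.UU ub) (9 / 16) := by
    have := hi_UU (β0 := 1 + 1 / 3) (by norm_num) fun β h0 hβ =>
      exp_up (τ1 := 1 / 3) (by norm_num) (fun _ _ hτ hττ hε hε1 => pow_up (by norm_num) hL hτ hττ hε hε1) hβ
    norm_num at this
    exact this
  have h3 := mm_hi ren h1
  have h4 := mm_lo ren h2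
  exact ⟨h2, h1, u_hi ren (by norm_num) (by norm_num) h2 h1, Fb_hi ren h3,
    Fb_lo ren (by norm_num) (by norm_num) h3 h4⟩

end BrL

end HexObs
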