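import Pool.Agent.NUX.HandB2

/-! Bridges by the number of sites: the statement (helper37, TARGET-E). -/

set_option autoImplicit false

namespace HexObs

namespace BrL

open Finset TS SDN T2 Filter NUX

open scoped ENNReal

/-- `μ = √(2 + √2)` -/
noncomputable def mu : ℝ := Real.sqrt (2 + Real.sqrt 2)

lemma mu_pos : 0 < mu := by unfold mu; positivity

lemma xc_mu (n : ℕ) : xc ^ n = (mu ^ n)⁻¹ := by
  rw [xcmu, inv_pow]; rfl

lemma bN_mu {m : ℕ} (hm : 1 ≤ m) : (bN (2 * m) : ℝ) / mu ^ (2 * m) = ub m := by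
  rw [← bN_even hm, xc_mu]; rfl

lemma iN_mu {m : ℕ} (hm : 1 ≤ m) : (iN (2 * m) : ℝ) / mu ^ (2 * m) = fb m := by
  rw [← iN_even hm, xc_mu]; rfl

lemma iN_odd {n : ℕ} (hn : ¬ Even n) : iN n = 0 := by
  have := iN_le n
  rw [bN_odd hn] at this
  omega

lemma iN_zero : iN 0 = 0 := by
  have := iN_le 0
  rw [bN_zero] at this
  omega

/-- sums over even indices -/
lemma sum_even {g : ℕ → ℝ} (h0 : ∀ n, ¬ Even n → g n = 0) (n : ℕ) :
    ∑ k ∈ range (n + 1), g k = ∑ m ∈ range (n / 2 + 1), g (2 * m) := by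
  induction n with
  | zero => simp
  | succ n ih =>
    rw [sum_range_succ, ih]
    rcases Nat.even_or_odd (n + 1) with he | ho
    · obtain ⟨m, hm⟩ := he
      have e1 : (n + 1) / 2 = n / 2 + 1 := by omega
      have e2 : n + 1 = 2 * (n / 2 + 1) := by omega
      rw [e1, sum_range_succ _ (n / 2 + 1), ← e2]
    · have e1 : (n + 1) / 2 = n / 2 := by
        obtain ⟨m, hm⟩ := ho
        omega
      rw [e1, h0 (n + 1) (Nat.not_even_iff_odd.2 ho), add_zero]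

lemma sum_bN (n : ℕ) : ∑ k ∈ range (n + 1), (bN k : ℝ) / mu ^ k = NUX.UU ub (n / 2) - 1 := by
  rw [sum_even (g := fun k => (bN k : ℝ) / mu ^ k) (fun k hk => by simp [bN_odd hk]), sum_range_succ']
  unfold NUX.UU
  rw [sum_range_succ' _ (n / 2)]
  have e : ∑ k ∈ range (n / 2), (bN (2 * (k + 1)) : ℝ) / mu ^ (2 * (k + 1)) = ∑ k ∈ range (n / 2), ub (k + 1) :=
    sum_congr rfl fun k _ => bN_mu (by omega)
  rw [e, mul_zero, bN_zero, ren.u0]
  simp

lemma sum_iN (n : ℕ) : 1 - ∑ k ∈ range (n + 1), (iN k : ℝ) / mu ^ k = Fb fb (n / 2) := by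
  rw [sum_even (g := fun k => (iN k : ℝ) / mu ^ k) (fun k hk => by simp [iN_odd hk])]
  unfold Fb
  congr 1
  apply sum_congr rfl
  intro k _
  rcases Nat.eq_zero_or_pos k with h | h
  · rw [h, mul_zero, iN_zero, ren.f0]; simp
  · exact iN_mu h

lemma half_pow {n : ℕ} (hn : 2 ≤ n) (x : ℝ) (hx : |x| ≤ 2) :
    (n : ℝ) ^ x / 9 ≤ ((n / 2 : ℕ) : ℝ) ^ x ∧ ((n / 2 : ℕ) : ℝ) ^ x ≤ 9 * (n : ℝ) ^ x := by
  obtain ⟨h1, h2⟩ := abs_le.1 hx
  have hn0 : (0 : ℝ) < n := by exact_mod_cast (by omega : 0 < n)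
  have hm1 : 1 ≤ n / 2 := by omega
  have hm0 : (0 : ℝ) < ((n / 2 : ℕ) : ℝ) := by exact_mod_cast hm1
  have ha : ((n / 2 : ℕ) : ℝ) ≤ n := by exact_mod_cast Nat.div_le_self n 2
  have hb : (n : ℝ) / 3 ≤ ((n / 2 : ℕ) : ℝ) := by
    have : (n : ℝ) ≤ 3 * ((n / 2 : ℕ) : ℝ) := by exact_mod_cast (by omega : n ≤ 3 * (n / 2))
    linarith
  have hnx : 0 < (n : ℝ) ^ x := by positivity
  have h9 : ∀ y : ℝ, |y| ≤ 2 → (3 : ℝ) ^ y ≤ 9 := by
    intro y hy
    calc (3 : ℝ) ^ y ≤ (3 : ℝ) ^ (2 : ℝ) := Real.rpow_le_rpow_of_exponent_le (by norm_num) (abs_le.1 hy).2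
      _ = 9 := by norm_num
  rcases le_or_gt 0 x with h0 | h0
  · constructor
    · calc (n : ℝ) ^ x / 9 ≤ (n : ℝ) ^ x / 3 ^ x := by
            apply div_le_div_of_nonneg_left hnx.le (by positivity) (h9 x hx)
        _ = ((n : ℝ) / 3) ^ x := by rw [Real.div_rpow hn0.le (by norm_num)]
        _ ≤ _ := Real.rpow_le_rpow (by positivity) hb h0
    · calc ((n / 2 : ℕ) : ℝ) ^ x ≤ (n : ℝ) ^ x := Real.rpow_le_rpow hm0.le ha h0
        _ ≤ _ := by linarith
  · constructor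
    · calc (n : ℝ) ^ x / 9 ≤ (n : ℝ) ^ x := by linarith
        _ ≤ _ := Real.rpow_le_rpow_of_nonpos hm0 ha h0.le
    · calc ((n / 2 : ℕ) : ℝ) ^ x ≤ ((n : ℝ) / 3) ^ x := Real.rpow_le_rpow_of_nonpos (by positivity) hb h0.le
        _ = (n : ℝ) ^ x * 3 ^ (-x) := by
            rw [Real.div_rpow hn0.le (by norm_num), Real.rpow_neg (by norm_num)]; rfl
        _ ≤ (n : ℝ) ^ x * 9 := mul_le_mul_of_nonneg_left (h9 (-x) (by rwa [abs_neg])) hnx.le
        _ = _ := by ring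

/-- the number of the bridges with n sites that have less than x or more than y rows -/
noncomputable def oN (n : ℕ) (x y : ℝ) : ℕ :=
  {L : List (ℤ × ℤ) | L.length = n ∧ ∃ j : ℕ, LBr j L ∧ ((j : ℝ) < x ∨ y < j)}.ncard

lemma oN_weight {n : ℕ} (hn : 1 ≤ n) (x y : ℝ) : (oN n x y : ℝ) / mu ^ n = (gf (WO n x y)).toReal := by
  have h := LS_weight hn (fun j _ => ((j : ℝ) < x ∨ y < j))
  have e2 : WS n (fun j _ => ((j : ℝ) < x ∨ y < j)) = WO n x y := by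
    ext t
    constructor
    · rintro ⟨h1, j, h2, h3⟩
      have hj : 1 ≤ j := by
        by_contra hc
        have : j = 0 := by omega
        subst this
        rw [Brd_zero] at h2
        have h5 : t = [] := h2
        rw [h5] at h1
        simp at h1
        omega
      exact ⟨h1, j, h2, hj, h3⟩
    · rintro ⟨h1, j, h2, h3, h4⟩
      exact ⟨h1, j, h2, h4⟩
  rw [e2, xc_mu] at h
  exact h

lemma oN_le {n : ℕ} (hn : 1 ≤ n) (x y : ℝ) : (oN n x y : ℝ) / mu ^ n ≤ 1 := by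
  rw [oN_weight hn]
  have h1 : (gf (WO n x y)).toReal ≤ (gf (BLs n)).toReal := by
    apply ENNReal.toReal_mono (BLs_ne_top n)
    apply gf_mono
    rintro t ⟨h1, j, h2, _⟩
    exact ⟨⟨j, h2⟩, h1⟩
  refine h1.trans ?_
  rcases Nat.even_or_odd n with ⟨m, hm⟩ | ho
  · have e : n = 2 * m := by omega
    rw [e]
    exact u_le_one ren m
  · have e : BLs n = ∅ := by
      ext t
      simp only [Set.mem_empty_iff_false, iff_false]
      rintro ⟨⟨j, h2⟩, h3⟩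
      exact (Nat.not_even_iff_odd.2 ho) (h3 ▸ even_length h2)
    have e2 : gf (∅ : Set (List Bool)) = 0 := by unfold gf; exact tsum_empty
    rw [e, e2]
    norm_num

/-- **bridges by the number of sites** -/
theorem main (hM : ∀ a' : ℝ, 4 / 3 < a' → ∃ C : ℝ, 0 ≤ C ∧ MeanLen a' C) (hL : LongWalks (1 / 3))
    {ε : ℝ} (hε : 0 < ε) (hε1 : ε ≤ 1) : ∃ C : ℝ, 0 < C ∧ ∀ n : ℕ, 2 ≤ n →
      (bN n : ℝ) ≤ C * (n : ℝ) ^ (-(7 / 16) + ε) * mu ^ n ∧
      C⁻¹ * (n : ℝ) ^ (9 / 16 - ε) ≤ ∑ k ∈ range (n + 1), (bN k : ℝ) / mu ^ k ∧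
      ∑ k ∈ range (n + 1), (bN k : ℝ) / mu ^ k ≤ C * (n : ℝ) ^ (9 / 16 + ε) ∧
      C⁻¹ * (n : ℝ) ^ (-(9 / 16) - ε) ≤ 1 - ∑ k ∈ range (n + 1), (iN k : ℝ) / mu ^ k ∧
      1 - ∑ k ∈ range (n + 1), (iN k : ℝ) / mu ^ k ≤ C * (n : ℝ) ^ (-(9 / 16) + ε) ∧
      C⁻¹ * (n : ℝ) ^ (1 - ε) ≤ (((Icc 1 n).filter fun k : ℕ =>
        C⁻¹ * (k : ℝ) ^ (-(7 / 16) - ε) * mu ^ k ≤ (bN k : ℝ)).card : ℝ) ∧
      (oN n ((n : ℝ) ^ (3 / 4 - ε)) ((n : ℝ) ^ (3 / 4 + ε)) : ℝ) ≤ C * Real.exp (-(n : ℝ) ^ C⁻¹) * mu ^ n := by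
  classical
  obtain ⟨hi, lo, hu, hFh, hFl⟩ := bridges_letters hM hL
  obtain ⟨C1, hC1, h1⟩ := hu ε hε
  obtain ⟨C2, hC2, h2⟩ := hi ε hε
  obtain ⟨c3, hc3, h3⟩ := lo ε hε
  obtain ⟨C4, hC4, h4⟩ := hFh ε hε
  obtain ⟨c5, hc5, h5⟩ := hFl ε hε
  obtain ⟨c6, hc6, h6⟩ := many_large ren (by norm_num) (by norm_num) hu lo hε
  obtain ⟨c7, N7, hc7, h7⟩ := heights hM hL hε
  have hmu := mu_pos
  have hu1 : 0 < ub 1 := by
    have h1 := ren.urec 0
    simp only [zero_add, range_one, sum_singleton, ren.u0, one_mul] at h1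
    have h2 := ren.f1
    have h3 : ub 1 = fb 1 := by simpa using h1
    rw [h3]; exact h2
  set κ := ub 1 / (1 + ub 1) with hκ
  have hκ0 : 0 < κ := by positivity
  set C := 9 * C1 + 9 * C2 + 9 / (κ * c3) + 9 * C4 + 9 / c5 + 9 / c6 + 1 / c7 + Real.exp N7 + 1 with hC
  have hCpos : 0 < C := by positivity
  have p1 : 0 < 9 * C1 := by positivity
  have p2 : 0 < 9 * C2 := by positivity
  have p3 : 0 < 9 / (κ * c3) := by positivity
  have p4 : 0 < 9 * C4 := by positivity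
  have p5 : 0 < 9 / c5 := by positivity
  have p6 : 0 < 9 / c6 := by positivity
  have p7 : 0 < 1 / c7 := by positivity
  have p8 : 0 < Real.exp N7 := Real.exp_pos _
  have inv_le : ∀ a : ℝ, 0 < a → a ≤ C → C⁻¹ ≤ a⁻¹ := fun a ha h => inv_anti₀ ha h
  refine ⟨C, hCpos, fun n hn => ?_⟩
  have hnR : (1 : ℝ) ≤ n := by exact_mod_cast (by omega : 1 ≤ n)
  have hn0 : (0 : ℝ) < n := by linarith
  have hm1 : 1 ≤ n / 2 := by omega
  set m := n / 2 with hm
  have hmR : (1 : ℝ) ≤ m := by exact_mod_cast hm1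
  have hmn : (m : ℝ) ≤ n := by exact_mod_cast Nat.div_le_self n 2
  refine ⟨?_, ?_, ?_, ?_, ?_, ?_, ?_⟩
  · -- pointwise
    rcases Nat.even_or_odd n with ⟨j, hj⟩ | ho
    · have e : n = 2 * m := by omega
      have hb : (bN n : ℝ) = ub m * mu ^ n := by
        rw [← bN_mu hm1, ← e]; field_simp
      rw [hb]
      apply mul_le_mul_of_nonneg_right _ (by positivity)
      have e1 : (9 : ℝ) / 16 - 1 + ε = -(7 / 16) + ε := by ring
      have h8 := h1 m hm1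
      rw [e1] at h8
      refine h8.trans ?_
      have h9 := (half_pow hn (-(7 / 16) + ε) (by rw [abs_le]; constructor <;> linarith)).2
      calc C1 * (m : ℝ) ^ (-(7 / 16) + ε) ≤ C1 * (9 * (n : ℝ) ^ (-(7 / 16) + ε)) :=
            mul_le_mul_of_nonneg_left h9 hC1.le
        _ = (9 * C1) * (n : ℝ) ^ (-(7 / 16) + ε) := by ring
        _ ≤ _ := mul_le_mul_of_nonneg_right (by rw [hC]; linarith) (by positivity)
    · rw [bN_odd (Nat.not_even_iff_odd.2 ho)]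
      simp only [Nat.cast_zero]
      positivity
  · rw [sum_bN]
    have h8 := h3 m hm1
    have h9 := (half_pow hn (9 / 16 - ε) (by rw [abs_le]; constructor <;> linarith)).1
    have hU : 1 + ub 1 ≤ NUX.UU ub m := by
      have h10 := NUX.UU_mono ren hm1
      have e : NUX.UU ub 1 = 1 + ub 1 := by
        unfold NUX.UU
        rw [sum_range_succ, sum_range_one, ren.u0]
      rw [e] at h10
      exact h10
    have hκU : κ * NUX.UU ub m ≤ NUX.UU ub m - 1 := by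
      rw [hκ, div_mul_eq_mul_div, div_le_iff₀ (by linarith)]
      nlinarith
    refine le_trans ?_ hκU
    calc C⁻¹ * (n : ℝ) ^ (9 / 16 - ε) ≤ (9 / (κ * c3))⁻¹ * (n : ℝ) ^ (9 / 16 - ε) :=
          mul_le_mul_of_nonneg_right (inv_le _ p3 (by rw [hC]; linarith)) (by positivity)
      _ = κ * (c3 * ((n : ℝ) ^ (9 / 16 - ε) / 9)) := by field_simp
      _ ≤ κ * (c3 * (m : ℝ) ^ (9 / 16 - ε)) := by gcongr
      _ ≤ _ := mul_le_mul_of_nonneg_left h8 hκ0.le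
  · rw [sum_bN]
    have h8 := h2 m hm1
    have h9 := (half_pow hn (9 / 16 + ε) (by rw [abs_le]; constructor <;> linarith)).2
    calc NUX.UU ub m - 1 ≤ C2 * (m : ℝ) ^ (9 / 16 + ε) := by linarith
      _ ≤ C2 * (9 * (n : ℝ) ^ (9 / 16 + ε)) := mul_le_mul_of_nonneg_left h9 hC2.le
      _ = (9 * C2) * (n : ℝ) ^ (9 / 16 + ε) := by ring
      _ ≤ _ := mul_le_mul_of_nonneg_right (by rw [hC]; linarith) (by positivity)
  · rw [sum_iN]
    have h8 := h5 m hm1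
    have h9 := (half_pow hn (-(9 / 16) - ε) (by rw [abs_le]; constructor <;> linarith)).1
    refine le_trans ?_ h8
    calc C⁻¹ * (n : ℝ) ^ (-(9 / 16) - ε) ≤ (9 / c5)⁻¹ * (n : ℝ) ^ (-(9 / 16) - ε) :=
          mul_le_mul_of_nonneg_right (inv_le _ p5 (by rw [hC]; linarith)) (by positivity)
      _ = c5 * ((n : ℝ) ^ (-(9 / 16) - ε) / 9) := by field_simp
      _ ≤ _ := mul_le_mul_of_nonneg_left h9 hc5.le
  · rw [sum_iN]
    have h8 := h4 m hm1
    have h9 := (half_pow hn (-(9 / 16) + ε) (by rw [abs_le]; constructor <;> linarith)).2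
    refine h8.trans ?_
    calc C4 * (m : ℝ) ^ (-(9 / 16) + ε) ≤ C4 * (9 * (n : ℝ) ^ (-(9 / 16) + ε)) :=
          mul_le_mul_of_nonneg_left h9 hC4.le
      _ = (9 * C4) * (n : ℝ) ^ (-(9 / 16) + ε) := by ring
      _ ≤ _ := mul_le_mul_of_nonneg_right (by rw [hC]; linarith) (by positivity)
  · have h8 := h6 m hm1
    have h9 := (half_pow hn (1 - ε) (by rw [abs_le]; constructor <;> linarith)).1
    have h10 : C⁻¹ * (n : ℝ) ^ (1 - ε) ≤ c6 * (m : ℝ) ^ (1 - ε) := by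
      calc C⁻¹ * (n : ℝ) ^ (1 - ε) ≤ (9 / c6)⁻¹ * (n : ℝ) ^ (1 - ε) :=
            mul_le_mul_of_nonneg_right (inv_le _ p6 (by rw [hC]; linarith)) (by positivity)
        _ = c6 * ((n : ℝ) ^ (1 - ε) / 9) := by field_simp
        _ ≤ _ := mul_le_mul_of_nonneg_left h9 hc6.le
    refine h10.trans (h8.trans ?_)
    have h11 : ((range m).filter fun k : ℕ => c6 * ((k : ℝ) + 1) ^ ((9 : ℝ) / 16 - 1 - ε) ≤ ub (k + 1)).card ≤
        ((Icc 1 n).filter fun k : ℕ => C⁻¹ * (k : ℝ) ^ (-(7 / 16) - ε) * mu ^ k ≤ (bN k : ℝ)).card := by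
      apply card_le_card_of_injOn (fun k => 2 * (k + 1))
      · intro k hk
        rw [mem_coe, mem_filter, mem_range] at hk
        rw [mem_coe, mem_filter, mem_Icc]
        obtain ⟨hk1, hk2⟩ := hk
        show (1 ≤ 2 * (k + 1) ∧ 2 * (k + 1) ≤ n) ∧
          C⁻¹ * ((2 * (k + 1) : ℕ) : ℝ) ^ (-(7 / 16) - ε) * mu ^ (2 * (k + 1)) ≤ (bN (2 * (k + 1)) : ℝ)
        refine ⟨⟨by omega, by omega⟩, ?_⟩
        have hb : (bN (2 * (k + 1)) : ℝ) = ub (k + 1) * mu ^ (2 * (k + 1)) := by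
          rw [← bN_mu (by omega : 1 ≤ k + 1)]; field_simp
        rw [hb]
        apply mul_le_mul_of_nonneg_right _ (by positivity)
        refine le_trans ?_ hk2
        have e1 : (9 : ℝ) / 16 - 1 - ε = -(7 / 16) - ε := by ring
        rw [e1]
        have hc6C : C⁻¹ ≤ c6 := by
          have : C⁻¹ ≤ (9 / c6)⁻¹ := inv_le _ p6 (by rw [hC]; linarith)
          refine this.trans ?_
          rw [inv_div]
          linarith
        apply mul_le_mul hc6C _ (by positivity) hc6.le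
        apply Real.rpow_le_rpow_of_nonpos (by positivity) _ (by linarith)
        push_cast
        have : (0 : ℝ) ≤ k := Nat.cast_nonneg k
        linarith
      · intro a _ b _ hab
        simp only at hab
        omega
    exact_mod_cast h11
  · have h8 : (oN n ((n : ℝ) ^ (3 / 4 - ε)) ((n : ℝ) ^ (3 / 4 + ε)) : ℝ) / mu ^ n ≤ C * Real.exp (-(n : ℝ) ^ C⁻¹) := by
      rcases Nat.lt_or_ge n N7 with hlt | hge
      · refine (oN_le (by omega) _ _).trans ?_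
        have h9 : (n : ℝ) ^ C⁻¹ ≤ N7 := by
          have hC1' : C⁻¹ ≤ 1 := inv_le_one_of_one_le₀ (by rw [hC]; linarith)
          calc (n : ℝ) ^ C⁻¹ ≤ (n : ℝ) ^ (1 : ℝ) := Real.rpow_le_rpow_of_exponent_le hnR hC1'
            _ = n := Real.rpow_one _
            _ ≤ N7 := by exact_mod_cast hlt.le
        calc (1 : ℝ) = Real.exp N7 * Real.exp (-N7) := by rw [← Real.exp_add]; simp
          _ ≤ C * Real.exp (-(n : ℝ) ^ C⁻¹) := by
              apply mul_le_mul _ (Real.exp_le_exp.2 (by linarith)) (Real.exp_pos _).le hCpos.le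
              rw [hC]; linarith
      · rw [oN_weight (by omega)]
        have h9 := h7 n hge
        have h10 : (gf (WO n ((n : ℝ) ^ (3 / 4 - ε)) ((n : ℝ) ^ (3 / 4 + ε)))).toReal ≤ Real.exp (-(n : ℝ) ^ c7) :=
          ENNReal.toReal_le_of_le_ofReal (Real.exp_pos _).le h9
        refine h10.trans ?_
        have h11 : C⁻¹ ≤ c7 := by
          have : C⁻¹ ≤ (1 / c7)⁻¹ := inv_le _ p7 (by rw [hC]; linarith)
          rwa [inv_div, div_one] at this
        have h12 : (n : ℝ) ^ C⁻¹ ≤ (n : ℝ) ^ c7 := Real.rpow_le_rpow_of_exponent_le hnR h11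
        calc Real.exp (-(n : ℝ) ^ c7) ≤ Real.exp (-(n : ℝ) ^ C⁻¹) := Real.exp_le_exp.2 (by linarith)
          _ = 1 * Real.exp (-(n : ℝ) ^ C⁻¹) := by ring
          _ ≤ _ := mul_le_mul_of_nonneg_right (by rw [hC]; linarith) (Real.exp_pos _).le
    rw [div_le_iff₀ (by positivity)] at h8
    exact h8

end BrL

end HexObs
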