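import Pool.Agent.NUX.Br1
import Pool.Agent.BAR.SizeMain
import Pool.Agent.BAR.Power

/-! Bridges by the number of letters: cumulative bounds (helper37, TARGET-E). -/

set_option autoImplicit false

namespace HexObs

namespace BrL

open Finset TS SDN T2

open scoped ENNReal

/-- bridges with at most 2 n letters -/
def SB (n : ℕ) : Set (List Bool) := {t | t ∈ BU ∧ t.length ≤ 2 * n}

lemma finite_le (n : ℕ) : {t : List Bool | t.length ≤ n}.Finite := List.finite_length_le Bool n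

lemma SB_ne_top (n : ℕ) : gf (SB n) ≠ ∞ := gf_finite ((finite_le (2 * n)).subset fun _ h => h.2)

lemma UU_eq (n : ℕ) : NUX.UU ub n = (gf (SB n)).toReal := by
  have h1 : SB n = ⋃ k ∈ range (n + 1), BLs (2 * k) := by
    ext t
    simp only [Set.mem_iUnion, Finset.mem_range]
    constructor
    · rintro ⟨⟨T, ht⟩, hl⟩
      obtain ⟨k, hk⟩ := even_length ht
      exact ⟨k, by omega, ⟨T, ht⟩, by omega⟩
    · rintro ⟨k, hk, h, hl⟩
      exact ⟨h, by omega⟩
  rw [h1, gf_biUnion, ENNReal.toReal_sum fun k _ => BLs_ne_top _]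
  · rfl
  · intro i _ j _ hij
    rw [Set.disjoint_left]
    rintro t ⟨_, h3⟩ ⟨_, h4⟩
    omega

/-- bridges of height T with at most 2 n letters -/
def SBT (T n : ℕ) : Set (List Bool) := {t | t ∈ Brd T ∧ t.length ≤ 2 * n}

lemma SBT_ne_top (T n : ℕ) : gf (SBT T n) ≠ ∞ := gf_finite ((finite_le (2 * n)).subset fun _ h => h.2)

lemma BT_top (T : ℕ) : BT T ≠ ∞ := ViaEaux.BT_ne_top0 T

lemma half {a C : ℝ} (hM : MeanLen a C) {T n : ℕ} (hT : 1 ≤ T) (hn : 1 ≤ n) (h : C * (T : ℝ) ^ a ≤ n) :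
    uu T ≤ 2 * (gf (SBT T n)).toReal := by
  set X : Set (List Bool) := {t | t ∈ Brd T ∧ 2 * n < t.length} with hX
  have h1 : Brd T = SBT T n ∪ X := by
    ext t
    constructor
    · intro ht
      rcases Nat.lt_or_ge (2 * n) t.length with h | h
      · exact Or.inr ⟨ht, h⟩
      · exact Or.inl ⟨ht, h⟩
    · rintro (h | h) <;> exact h.1
  have h2 : BT T ≤ gf (SBT T n) + gf X := by
    rw [← gf_Brd]; conv_lhs => rw [h1]
    exact gf_union_le _ _
  have hXB : gf X ≤ BT T := by rw [← gf_Brd]; exact gf_mono fun t h => h.1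
  have hXt : gf X ≠ ∞ := ne_top_of_le_ne_top (BT_top T) hXB
  have h3 : ((2 * n : ℕ) : ℝ≥0∞) * gf X ≤ ∑' t : Brd T, (t.1.length : ℝ≥0∞) * wE t.1 := by
    unfold gf
    rw [← ENNReal.tsum_mul_left]
    calc ∑' t : X, ((2 * n : ℕ) : ℝ≥0∞) * wE t.1 ≤ ∑' t : X, (t.1.length : ℝ≥0∞) * wE t.1 :=
          ENNReal.tsum_le_tsum fun t => mul_le_mul' (by exact_mod_cast t.2.2.le) le_rfl
      _ ≤ _ := ENNReal.tsum_mono_subtype (fun t : List Bool => (t.length : ℝ≥0∞) * wE t) (fun t h => h.1)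
  have h4 : ((2 * n : ℕ) : ℝ≥0∞) * gf X ≤ ENNReal.ofReal n * BT T :=
    h3.trans ((hM T hT).trans (mul_le_mul' (ENNReal.ofReal_le_ofReal h) le_rfl))
  have h5 : (2 * n : ℝ) * (gf X).toReal ≤ n * uu T := by
    have := ENNReal.toReal_mono (ENNReal.mul_ne_top ENNReal.ofReal_ne_top (BT_top T)) h4
    rw [ENNReal.toReal_mul, ENNReal.toReal_mul, ENNReal.toReal_ofReal (by positivity), ENNReal.toReal_natCast] at this
    push_cast at this
    exact this
  have h6 : uu T ≤ (gf (SBT T n)).toReal + (gf X).toReal := by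
    have := ENNReal.toReal_mono (ENNReal.add_ne_top.2 ⟨SBT_ne_top T n, hXt⟩) h2
    rw [ENNReal.toReal_add (SBT_ne_top T n) hXt] at this
    exact this
  have hnR : (1 : ℝ) ≤ n := by exact_mod_cast hn
  nlinarith

lemma UU_ge_sum (T0 n : ℕ) : ∑ T ∈ range (T0 + 1), (gf (SBT T n)).toReal ≤ NUX.UU ub n := by
  rw [UU_eq, ← ENNReal.toReal_sum fun T _ => SBT_ne_top T n]
  apply ENNReal.toReal_mono (SB_ne_top n)
  rw [← gf_biUnion]
  · apply gf_mono
    intro t ht
    simp only [Set.mem_iUnion] at ht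
    obtain ⟨T, _, h⟩ := ht
    exact ⟨⟨T, h.1⟩, h.2⟩
  · intro i _ j _ hij
    rw [Set.disjoint_left]
    rintro t ⟨h3, _⟩ ⟨h4, _⟩
    exact hij (Brd_height h3 h4)

lemma UU_ge_half {a C : ℝ} (ha : 0 < a) (hC : 0 ≤ C) (hM : MeanLen a C) {T0 n : ℕ} (hn : 1 ≤ n) (h : C * (T0 : ℝ) ^ a ≤ n) :
    HexObs.UU T0 ≤ 2 * NUX.UU ub n := by
  have h1 := UU_ge_sum T0 n
  have h2 : HexObs.UU T0 ≤ 2 * ∑ T ∈ range (T0 + 1), (gf (SBT T n)).toReal := by
    unfold HexObs.UU
    rw [mul_sum]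
    apply sum_le_sum
    intro T hT
    rcases Nat.eq_zero_or_pos T with h0 | h0
    · subst h0
      have e1 : SBT 0 n = Brd 0 := by
        ext t
        constructor
        · exact fun h => h.1
        · intro h
          refine ⟨h, ?_⟩
          rw [Brd_zero] at h
          have : t = [] := h
          rw [this]; simp
      rw [e1, gf_Brd]
      have : (0 : ℝ) ≤ (BT 0).toReal := ENNReal.toReal_nonneg
      unfold uu
      linarith
    · apply half hM h0 hn
      refine le_trans (mul_le_mul_of_nonneg_left ?_ hC) h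
      apply Real.rpow_le_rpow (by positivity) _ ha.le
      have := mem_range.1 hT
      exact_mod_cast (by omega : T ≤ T0)
  linarith

/-- lower cumulative bound -/
theorem lo_UU {a0 : ℝ} (ha0 : 1 ≤ a0) (hM : ∀ a' : ℝ, a0 < a' → ∃ C : ℝ, 0 ≤ C ∧ MeanLen a' C) :
    NUX.Lo (NUX.UU ub) (3 / (4 * a0)) := by
  apply NUX.Lo.of_small (e0 := 3 / (8 * a0)) (by positivity)
  intro ε hε hε1
  -- a with 3 / (4 a) = 3 / (4 a0) - ε
  set x := 3 / (4 * a0) - ε with hx
  have hx0 : 0 < x := by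
    have : 3 / (4 * a0) = 2 * (3 / (8 * a0)) := by field_simp; ring
    have h2 : 0 < 3 / (8 * a0) := by positivity
    rw [hx, this]; linarith
  set a := 3 / (4 * x) with ha
  have haa : a0 < a := by
    rw [ha, lt_div_iff₀ (by positivity)]
    have : a0 * (4 * (3 / (4 * a0))) = 3 := by field_simp
    have h2 : x < 3 / (4 * a0) := by rw [hx]; linarith
    nlinarith
  have ha1 : 0 < a := by linarith
  have hxa : x = 3 / (4 * a) := by rw [ha]; field_simp
  obtain ⟨C', hC', hM'⟩ := hM a haa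
  obtain ⟨c, _, hc, _, hU⟩ := BAR.UU_two
  set C := max C' 1 with hC
  have hC1 : 1 ≤ C := le_max_right _ _
  have hMC : MeanLen a C := by
    intro T hT
    refine (hM' T hT).trans (mul_le_mul' (ENNReal.ofReal_le_ofReal ?_) le_rfl)
    exact mul_le_mul_of_nonneg_right (le_max_left _ _) (by positivity)
  refine ⟨min (C ^ (-x)) (c / 2 * 2 ^ (-(3 / 4 : ℝ)) * C ^ (-x)), by positivity, fun n hn => ?_⟩
  have hnR : (1 : ℝ) ≤ n := by exact_mod_cast hn
  have hn0 : (0 : ℝ) < n := by linarith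
  have hnC : (n : ℝ) ^ x * C ^ (-x) = (n / C) ^ x := by
    rw [Real.div_rpow hn0.le (by linarith), Real.rpow_neg (by linarith)]; rfl
  by_cases hcase : (n : ℝ) < C
  · have h1 : (n / C : ℝ) ^ x ≤ 1 :=
      Real.rpow_le_one (by positivity) (by rw [div_le_one (by linarith)]; exact hcase.le) hx0.le
    have h2 := NUX.UU_pos ren n
    calc _ ≤ C ^ (-x) * (n : ℝ) ^ x := by gcongr; exact min_le_left _ _
      _ = (n / C) ^ x := by rw [← hnC]; ring
      _ ≤ _ := h1.trans h2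
  · push Not at hcase
    have h1 : 1 ≤ (n : ℝ) / C := by rw [le_div_iff₀ (by linarith)]; linarith
    set X := ((n : ℝ) / C) ^ (1 / a) with hX
    have hX1 : 1 ≤ X := Real.one_le_rpow h1 (by positivity)
    set T0 := ⌊X⌋₊ with hT0
    have hle : (T0 : ℝ) ≤ X := Nat.floor_le (by linarith)
    have hT1 : 1 ≤ T0 := Nat.le_floor (by simpa using hX1)
    have hge : X / 2 ≤ T0 := by
      have h2 := Nat.lt_floor_add_one X
      rw [← hT0] at h2
      have h3 : (1 : ℝ) ≤ T0 := by exact_mod_cast hT1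
      linarith
    have h2 : C * (T0 : ℝ) ^ a ≤ n := by
      have h3 : (T0 : ℝ) ^ a ≤ n / C := by
        calc (T0 : ℝ) ^ a ≤ X ^ a := Real.rpow_le_rpow (by positivity) hle ha1.le
          _ = n / C := by rw [hX, ← Real.rpow_mul (by positivity), one_div_mul_cancel ha1.ne', Real.rpow_one]
      rw [le_div_iff₀ (by linarith)] at h3
      linarith
    have h3 := UU_ge_half ha1 (by linarith) hMC hn h2
    have h4 := (hU T0 hT1).1
    have h5 : c * (2 ^ (-(3 / 4 : ℝ)) * (n / C) ^ x) ≤ HexObs.UU T0 := by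
      refine le_trans (mul_le_mul_of_nonneg_left ?_ hc.le) h4
      calc (2 : ℝ) ^ (-(3 / 4 : ℝ)) * (n / C) ^ x = 2 ^ (-(3 / 4 : ℝ)) * X ^ (3 / 4 : ℝ) := by
            rw [hX, ← Real.rpow_mul (by positivity), hxa]; congr 2; field_simp
        _ = (X / 2) ^ (3 / 4 : ℝ) := by
            rw [Real.div_rpow (by linarith) (by norm_num), Real.rpow_neg (by norm_num)]; field_simp
        _ ≤ _ := Real.rpow_le_rpow (by linarith) hge (by norm_num)
    calc _ ≤ c / 2 * 2 ^ (-(3 / 4 : ℝ)) * C ^ (-x) * (n : ℝ) ^ x := by gcongr; exact min_le_right _ _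
      _ = c * (2 ^ (-(3 / 4 : ℝ)) * (n / C) ^ x) / 2 := by rw [← hnC]; ring
      _ ≤ _ := by linarith

lemma row_Brd {T : ℕ} {t : List Bool} (h : t ∈ Brd T) : row false (vx oo up t t.length) = T := by
  have h1 := (mem_Brd.1 h).2.2.2
  have e3 : lev t t.length = lvl false (vx oo up t t.length) := by
    rw [lvl_false_eq]
    unfold lev
    simp only [ip, up]
    ring
  unfold row
  rw [← e3, h1]
  omega

lemma Brd_SA {T : ℕ} {t : List Bool} (h : t ∈ Brd T) : t ∈ SA :=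
  ⟨fun _ _ _ => Set.mem_univ _, (mem_Brd.1 h).2.1⟩

/-- upper cumulative bound -/
theorem hi_UU {β0 : ℝ} (hβ0 : 0 < β0) (hE : ∀ β : ℝ, 0 < β → β < β0 → ExpUp β) :
    NUX.Hi (NUX.UU ub) (3 / (4 * β0)) := by
  intro ε hε
  set x := 3 / (4 * β0) + ε with hx
  have hx1 : 0 < 3 / (4 * β0) := by positivity
  have hx0 : 0 < x := by rw [hx]; linarith
  set β := 3 / (4 * x) with hβ
  have hβp : 0 < β := by positivity
  have hββ : β < β0 := by
    rw [hβ, div_lt_iff₀ (by positivity)]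
    have : β0 * (4 * (3 / (4 * β0))) = 3 := by field_simp
    nlinarith
  have hxβ : x = 3 / (4 * β) := by rw [hβ]; field_simp
  obtain ⟨c, L0, hc, hL0⟩ := hE β hβp hββ
  obtain ⟨_, C, _, hC, hU⟩ := BAR.UU_two
  obtain ⟨n1, hn1⟩ := exists_nat_ge ((2 : ℝ) ^ (β * L0))
  refine ⟨C * 2 ^ (3 / 4 : ℝ) * 2 ^ x + 1 + (n1 + 1), by positivity, fun n hn => ?_⟩
  have hnR : (1 : ℝ) ≤ n := by exact_mod_cast hn
  have hn0 : (0 : ℝ) < n := by linarith
  have hnx : 1 ≤ (n : ℝ) ^ x := Real.one_le_rpow hnR hx0.le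
  rcases Nat.lt_or_ge n n1 with hlt | hge
  · have h1 : NUX.UU ub n ≤ n + 1 := by
      unfold NUX.UU
      calc ∑ k ∈ range (n + 1), ub k ≤ ∑ _k ∈ range (n + 1), (1 : ℝ) :=
            sum_le_sum fun k _ => NUX.u_le_one ren k
        _ = n + 1 := by simp
    have h2 : (n : ℝ) ≤ n1 := by exact_mod_cast hlt.le
    have h3 : 0 ≤ C * 2 ^ (3 / 4 : ℝ) * 2 ^ x := by positivity
    nlinarith
  · have h2n : (0 : ℝ) < 2 * n := by linarith
    set y := Real.logb 2 (2 * n) with hy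
    have hyn : (2 : ℝ) ^ y = 2 * n := Real.rpow_logb (by norm_num) (by norm_num) h2n
    have hy0 : 0 ≤ y := Real.logb_nonneg (by norm_num) (by linarith)
    set L := ⌈y / β⌉₊ with hL
    have hLa : y / β ≤ L := Nat.le_ceil _
    have hLb : (L : ℝ) < y / β + 1 := Nat.ceil_lt_add_one (by positivity)
    have hLL : L0 ≤ L := by
      have h1 : β * L0 ≤ y := by
        have h2 : (2 : ℝ) ^ (β * L0) ≤ (2 : ℝ) ^ y := by
          rw [hyn]
          refine hn1.trans ?_
          have : (n1 : ℝ) ≤ n := by exact_mod_cast hge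
          linarith
        exact (Real.rpow_le_rpow_left_iff (by norm_num)).1 h2
      have h2 : (L0 : ℝ) ≤ y / β := by rw [le_div_iff₀ hβp]; linarith
      exact_mod_cast h2.trans hLa
    have hnL : (2 * n : ℝ) ≤ (2 : ℝ) ^ (β * L) := by
      rw [← hyn]
      apply Real.rpow_le_rpow_of_exponent_le (by norm_num)
      rw [div_le_iff₀ hβp] at hLa
      linarith
    have hsub : SB n ⊆ (⋃ T ∈ range (2 ^ L + 1), Brd T) ∪
        {t | t ∈ SA ∧ T2.Ext L t ∧ (t.length : ℝ) ≤ (2 : ℝ) ^ (β * L)} := by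
      rintro t ⟨⟨T, ht⟩, hl⟩
      rcases Nat.lt_or_ge T (2 ^ L + 1) with h | h
      · left
        simp only [Set.mem_iUnion]
        exact ⟨T, Finset.mem_range.2 h, ht⟩
      · right
        refine ⟨Brd_SA ht, ⟨t.length, le_rfl, false, ?_⟩, le_trans ?_ hnL⟩
        · rw [row_Brd ht, abs_of_nonneg (by positivity)]
          exact_mod_cast (by omega : 2 ^ L ≤ T)
        · exact_mod_cast hl
    have h1 : gf {t | t ∈ SA ∧ T2.Ext L t ∧ (t.length : ℝ) ≤ (2 : ℝ) ^ (β * L)} ≤ 1 := by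
      refine (hL0 L hLL).trans ?_
      rw [← ENNReal.ofReal_one]
      apply ENNReal.ofReal_le_ofReal
      apply Real.exp_le_one_iff.2
      have : (0 : ℝ) < (2 : ℝ) ^ (c * L) := by positivity
      linarith
    have h2 : gf (⋃ T ∈ range (2 ^ L + 1), Brd T) = ∑ T ∈ range (2 ^ L + 1), BT T := by
      rw [gf_biUnion]
      · exact sum_congr rfl fun T _ => gf_Brd T
      · intro i _ j _ hij
        rw [Set.disjoint_left]
        intro t h3 h4
        exact hij (Brd_height h3 h4)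
    have h3 : gf (SB n) ≤ (∑ T ∈ range (2 ^ L + 1), BT T) + 1 :=
      (gf_mono hsub).trans ((gf_union_le _ _).trans (add_le_add h2.le h1))
    have hfin : (∑ T ∈ range (2 ^ L + 1), BT T) ≠ ∞ := ENNReal.sum_ne_top.2 fun T _ => BT_top T
    have h4 : NUX.UU ub n ≤ HexObs.UU (2 ^ L) + 1 := by
      rw [UU_eq]
      have := ENNReal.toReal_mono (ENNReal.add_ne_top.2 ⟨hfin, ENNReal.one_ne_top⟩) h3
      rw [ENNReal.toReal_add hfin ENNReal.one_ne_top, ENNReal.toReal_sum fun T _ => BT_top T, ENNReal.toReal_one] at this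
      exact this
    have h5 := (hU (2 ^ L) Nat.one_le_two_pow).2
    have h6 : (((2 ^ L : ℕ) : ℝ)) ^ (3 / 4 : ℝ) ≤ 2 ^ (3 / 4 : ℝ) * 2 ^ x * (n : ℝ) ^ x := by
      have e1 : ((2 ^ L : ℕ) : ℝ) = (2 : ℝ) ^ (L : ℝ) := by push_cast; rw [Real.rpow_natCast]
      rw [e1, ← Real.rpow_mul (by norm_num)]
      calc (2 : ℝ) ^ ((L : ℝ) * (3 / 4)) ≤ (2 : ℝ) ^ ((y / β + 1) * (3 / 4)) := by
            apply Real.rpow_le_rpow_of_exponent_le (by norm_num)
            nlinarith
        _ = 2 ^ (3 / 4 : ℝ) * (2 * n : ℝ) ^ x := by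
            rw [← hyn, ← Real.rpow_mul (by norm_num), ← Real.rpow_add (by norm_num), hxβ]
            congr 1; field_simp; ring
        _ = _ := by rw [Real.mul_rpow (by norm_num) hn0.le]; ring
    calc NUX.UU ub n ≤ C * ((2 ^ L : ℕ) : ℝ) ^ (3 / 4 : ℝ) + 1 := by linarith
      _ ≤ C * (2 ^ (3 / 4 : ℝ) * 2 ^ x * (n : ℝ) ^ x) + 1 := by gcongr
      _ ≤ (C * 2 ^ (3 / 4 : ℝ) * 2 ^ x + 1 + (n1 + 1)) * (n : ℝ) ^ x := by
          have : (0 : ℝ) ≤ n1 := by positivity
          nlinarith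

end BrL

end HexObs
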