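import Mathlib

/-! Renewal sequences: elementary identities (helper37, TARGET-E). -/

namespace NUX

open Finset

/-- `f` = law of a step (on the positive integers, total mass 1, `f 1 > 0`), `u` = its renewal sequence. -/
structure Ren (f u : ℕ → ℝ) : Prop where
  f0 : f 0 = 0
  fnn : ∀ k, 0 ≤ f k
  fsum : HasSum f 1
  f1 : 0 < f 1
  u0 : u 0 = 1
  urec : ∀ n, u (n + 1) = ∑ k ∈ range (n + 1), u k * f (n + 1 - k)

/-- tail of `f`: mass of `(n, ∞)` -/
noncomputable def Fb (f : ℕ → ℝ) (n : ℕ) : ℝ := 1 - ∑ k ∈ range (n + 1), f k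

/-- truncated mean: `∑_{k<n} Fb k` -/
noncomputable def mm (f : ℕ → ℝ) (n : ℕ) : ℝ := ∑ k ∈ range n, Fb f k

noncomputable def UU (u : ℕ → ℝ) (n : ℕ) : ℝ := ∑ k ∈ range (n + 1), u k

variable {f u : ℕ → ℝ}

lemma Fb_nonneg (h : Ren f u) (n : ℕ) : 0 ≤ Fb f n := by
  have := sum_le_hasSum (range (n + 1)) (fun k _ => h.fnn k) h.fsum
  unfold Fb; linarith

lemma Fb_succ (f : ℕ → ℝ) (n : ℕ) : Fb f (n + 1) = Fb f n - f (n + 1) := by
  unfold Fb; rw [sum_range_succ]; ring

lemma Fb_zero (h : Ren f u) : Fb f 0 = 1 := by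
  unfold Fb; simp [h.f0]

lemma Fb_anti (h : Ren f u) : Antitone (Fb f) :=
  antitone_nat_of_succ_le fun n => by rw [Fb_succ]; have := h.fnn (n + 1); linarith

lemma Fb_le_one (h : Ren f u) (n : ℕ) : Fb f n ≤ 1 := by
  have := Fb_anti h (Nat.zero_le n); rwa [Fb_zero h] at this

lemma u_nonneg (h : Ren f u) (n : ℕ) : 0 ≤ u n := by
  induction n using Nat.strong_induction_on with
  | _ n ih =>
    rcases n with _ | n
    · rw [h.u0]; exact zero_le_one
    · rw [h.urec]
      exact sum_nonneg fun k hk => mul_nonneg (ih k (by have := mem_range.1 hk; omega)) (h.fnn _)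

lemma id1 (h : Ren f u) (n : ℕ) : ∑ j ∈ range (n + 1), u j * Fb f (n - j) = 1 := by
  induction n with
  | zero => simp [h.u0, Fb_zero h]
  | succ n ih =>
    rw [sum_range_succ]
    have e : ∀ j ∈ range (n + 1), u j * Fb f (n + 1 - j) = u j * Fb f (n - j) - u j * f (n + 1 - j) := by
      intro j hj
      have hj' : j ≤ n := by have := mem_range.1 hj; omega
      have : n + 1 - j = (n - j) + 1 := by omega
      rw [this, Fb_succ]; ring
    rw [sum_congr rfl e, sum_sub_distrib, ih, ← h.urec]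
    simp [Fb_zero h]

lemma u_le_one (h : Ren f u) (n : ℕ) : u n ≤ 1 := by
  have := id1 h n
  have h2 : u n * Fb f (n - n) ≤ ∑ j ∈ range (n + 1), u j * Fb f (n - j) :=
    single_le_sum (f := fun j => u j * Fb f (n - j)) (fun j _ => mul_nonneg (u_nonneg h j) (Fb_nonneg h _))
      (mem_range.2 (Nat.lt_succ_self n))
  rw [this, Nat.sub_self, Fb_zero h, mul_one] at h2
  exact h2

lemma mm_succ (f : ℕ → ℝ) (n : ℕ) : mm f (n + 1) = mm f n + Fb f n := by
  unfold mm; rw [sum_range_succ]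

lemma mm_zero (f : ℕ → ℝ) : mm f 0 = 0 := by simp [mm]

lemma mm_mono (h : Ren f u) : Monotone (mm f) :=
  monotone_nat_of_le_succ fun n => by rw [mm_succ]; have := Fb_nonneg h n; linarith

lemma mm_nonneg (h : Ren f u) (n : ℕ) : 0 ≤ mm f n := sum_nonneg fun k _ => Fb_nonneg h k

lemma mul_Fb_le (h : Ren f u) (n : ℕ) : n * Fb f n ≤ mm f n := by
  unfold mm
  calc n * Fb f n = ∑ _k ∈ range n, Fb f n := by simp
    _ ≤ _ := sum_le_sum fun k hk => Fb_anti h (mem_range.1 hk).le

lemma mm_sub_le (h : Ren f u) {M K : ℕ} (hMK : M ≤ K) : mm f K - mm f M ≤ (K - M) * Fb f M := by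
  induction K, hMK using Nat.le_induction with
  | base => simp
  | succ K hK ih =>
    rw [mm_succ]
    have := Fb_anti h hK
    push_cast
    nlinarith

lemma id2 (h : Ren f u) (n : ℕ) : ∑ j ∈ range (n + 1), u j * mm f (n + 1 - j) = n + 1 := by
  induction n with
  | zero => simp [h.u0, mm, Fb_zero h]
  | succ n ih =>
    rw [sum_range_succ]
    have e : ∀ j ∈ range (n + 1), u j * mm f (n + 1 + 1 - j) = u j * mm f (n + 1 - j) + u j * Fb f (n + 1 - j) := by
      intro j hj
      have hj' : j ≤ n := by have := mem_range.1 hj; omega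
      have : n + 1 + 1 - j = (n + 1 - j) + 1 := by omega
      rw [this, mm_succ]; ring
    rw [sum_congr rfl e, sum_add_distrib, ih]
    have h1 := id1 h (n + 1)
    rw [sum_range_succ, Nat.sub_self] at h1
    have h3 : n + 1 + 1 - (n + 1) = 1 := by omega
    rw [h3]
    have h4 : mm f 1 = Fb f 0 := by simp [mm]
    rw [h4]
    push_cast
    linarith

lemma UM_lower (h : Ren f u) (n : ℕ) : (n : ℝ) + 1 ≤ UU u n * mm f (n + 1) := by
  rw [← id2 h n, UU, sum_mul]
  exact sum_le_sum fun j hj => mul_le_mul_of_nonneg_left (mm_mono h (Nat.sub_le _ _)) (u_nonneg h j)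

lemma UM_upper (h : Ren f u) (n : ℕ) : UU u n * mm f (n + 1) ≤ 2 * n + 1 := by
  have h2 := id2 h (2 * n)
  have : UU u n * mm f (n + 1) ≤ ∑ j ∈ range (2 * n + 1), u j * mm f (2 * n + 1 - j) := by
    rw [UU, sum_mul]
    calc ∑ j ∈ range (n + 1), u j * mm f (n + 1)
        ≤ ∑ j ∈ range (n + 1), u j * mm f (2 * n + 1 - j) :=
          sum_le_sum fun j hj => mul_le_mul_of_nonneg_left
            (mm_mono h (by have := mem_range.1 hj; omega)) (u_nonneg h j)
      _ ≤ _ := sum_le_sum_of_subset_of_nonneg (range_mono (by omega))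
            fun j _ _ => mul_nonneg (u_nonneg h j) (mm_nonneg h _)
  rw [h2] at this
  push_cast at this
  linarith

/-- truncated second moment -/
noncomputable def S2 (f : ℕ → ℝ) (n : ℕ) : ℝ := ∑ k ∈ range (n + 1), (k : ℝ) ^ 2 * f k

lemma S2_ge (h : Ren f u) {M N : ℕ} (hMN : M ≤ N) : (M : ℝ) ^ 2 * (Fb f M - Fb f N) ≤ S2 f N := by
  induction N, hMN using Nat.le_induction with
  | base => simp [S2]; exact sum_nonneg fun k _ => mul_nonneg (by positivity) (h.fnn k)
  | succ N hN ih =>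
    have e : S2 f (N + 1) = S2 f N + ((N : ℝ) + 1) ^ 2 * f (N + 1) := by
      unfold S2; rw [sum_range_succ]; push_cast; ring
    rw [e, Fb_succ]
    have h1 : (M : ℝ) ^ 2 ≤ ((N : ℝ) + 1) ^ 2 := by
      have : (M : ℝ) ≤ N := by exact_mod_cast hN
      have h0 : (0 : ℝ) ≤ M := by positivity
      nlinarith
    have := mul_le_mul_of_nonneg_right h1 (h.fnn (N + 1))
    linarith

lemma S2_ge_one (h : Ren f u) {N : ℕ} (hN : 1 ≤ N) : f 1 ≤ S2 f N := by
  unfold S2
  have := single_le_sum (f := fun k : ℕ => (k : ℝ) ^ 2 * f k) (s := range (N + 1))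
    (fun j _ => mul_nonneg (by positivity) (h.fnn j)) (mem_range.2 (by omega : 1 < N + 1))
  simpa using this

end NUX
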