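import Pool.Agent.NUX.Arc1
import Pool.Agent.HexSlit.Ident
import Pool.Agent.PHW.DefsB
import Pool.Agent.PHW.Base

/-!
The observable of the half plane graded by the length: the number of the half plane words with n letters is at
least a constant times the weight of the arcs with at least n letters (helper37).
-/

set_option autoImplicit false

namespace HexObs

namespace BrL

open Finset TS SDN T2 Filter NUX

open scoped ENNReal

lemma upG : (up : Pt) ∈ dirs := by decide

/-- a box of the half plane -/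
noncomputable def hbox (N : ℕ) : Finset Pt :=
  ((Finset.Icc (-(N : ℤ)) N) ×ˢ (Finset.Icc (-(N : ℤ)) N)).filter (fun v => 0 < ip v up)

lemma mem_hbox {N : ℕ} {v : Pt} : v ∈ hbox N ↔ (|v.1| ≤ N ∧ |v.2| ≤ N) ∧ 0 < ip v up := by
  unfold hbox
  rw [Finset.mem_filter, Finset.mem_product, Finset.mem_Icc, Finset.mem_Icc, abs_le, abs_le]

lemma dirs_abs' : ∀ d ∈ dirs, |d.1| ≤ 1 ∧ |d.2| ≤ 1 := by decide

lemma vx_abs' (t : List Bool) (i : ℕ) : |(vx oo up t i).1| ≤ i ∧ |(vx oo up t i).2| ≤ i := by
  induction i with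
  | zero =>
    show |(oo : Pt).1| ≤ _ ∧ |(oo : Pt).2| ≤ _
    decide
  | succ i ih =>
    rw [vx_succ]
    have h1 := dirs_abs' (dx up t i) (ds_mem upG _)
    have e1 : (vx oo up t i + dx up t i).1 = (vx oo up t i).1 + (dx up t i).1 := rfl
    have e2 : (vx oo up t i + dx up t i).2 = (vx oo up t i).2 + (dx up t i).2 := rfl
    rw [e1, e2]
    push_cast
    constructor
    · exact (abs_add_le _ _).trans (add_le_add ih.1 h1.1)
    · exact (abs_add_le _ _).trans (add_le_add ih.2 h1.2)

lemma hbox_off (N : ℕ) : ∀ v ∈ hbox N, HexSlit.Off up (v - oo) := by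
  intro v hv
  right
  have h1 : v - oo = v := sub_zero v
  rw [h1]
  exact (mem_hbox.1 hv).2

/-- the short exits of the box are arcs -/
lemma exit_arc {n : ℕ} {t : List Bool} (ht : t ∈ exits (hbox n) oo up) (hl : t.length < n) :
    t ∈ ARC ∧ (HexObs.wind t = 3 ∨ HexObs.wind t = -3) := by
  rw [mem_exits] at ht
  obtain ⟨harr, hout⟩ := ht
  have hab := vx_abs' t (t.length + 1)
  have hn : ((t.length + 1 : ℕ) : ℤ) ≤ n := by exact_mod_cast hl
  have htip : ip (tip oo up t) up ≤ 0 := by
    by_contra hc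
    apply hout
    rw [mem_hbox]
    exact ⟨⟨hab.1.trans hn, hab.2.trans hn⟩, not_le.1 hc⟩
  have hpos : ∀ i, 1 ≤ i → i ≤ t.length → 0 < ip (vx oo up t i) up := fun i h1 h2 => (mem_hbox.1 (harr.mem i h1 h2)).2
  have hlen : 1 ≤ t.length := by
    by_contra hcon
    have hz : t = [] := List.length_eq_zero_iff.1 (by omega)
    rw [hz] at htip
    revert htip
    decide
  have hdir : dx up t t.length = -up := by
    have h1 : tip oo up t = vx oo up t t.length + dx up t t.length := vx_succ _ _ _ _
    have h2 : ip (tip oo up t) up = ip (vx oo up t t.length) up + ip (dx up t t.length) up := by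
      rw [h1, ip_add_left]
    have h3 := hpos t.length hlen le_rfl
    have h4 := lev_mod t t.length
    have h5 := lev_mod t (t.length + 1)
    have h6 : lev t t.length = ip (vx oo up t t.length) up := rfl
    have h7 : lev t (t.length + 1) = ip (tip oo up t) up := rfl
    have h8 : ∀ d ∈ dirs, ip d up ≤ -2 → d = -up := by decide
    have h9 : ∀ d ∈ dirs, -2 ≤ ip d up := by decide
    have h10 := ds_mem upG (τ := tf t) t.length
    apply h8 _ h10
    have h11 := h9 _ h10
    have h12 : ip (dx up t t.length) up = ip (ds up (tf t) t.length) up := rfl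
    rw [h7] at h5
    rw [h6] at h4
    split_ifs at h4 h5 <;> omega
  refine ⟨⟨n, ⟨fun i h1 h2 => ?_, harr.inj⟩, fun hc => ?_, hdir⟩, ?_⟩
  · rw [HexObs.mem_St]
    have h4 := hpos i h1 h2
    have h5 := vx_abs' t i
    have h6 : lev t i = (vx oo up t i).1 + 2 * (vx oo up t i).2 := by
      unfold lev ip up
      ring
    have h7 := (le_abs_self _).trans h5.1
    have h8 := (le_abs_self _).trans h5.2
    refine ⟨h4, ?_⟩
    have h9 : (i : ℤ) ≤ n := by exact_mod_cast (by omega : i ≤ n)
    rw [h6]
    linarith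
  · have h3 : tip oo up t = vx oo up t (t.length + 1) := rfl
    rw [h3, HexObs.mem_St] at hc
    have h4 : lev t (t.length + 1) = ip (tip oo up t) up := rfl
    rw [h4] at hc
    omega
  · have h1 := wind_exit (v0 := oo) (d0 := up) upG harr.inj
      (fun i h1 h2 => by
        rw [show vx oo up t i - oo = vx oo up t i from sub_zero _]
        exact hpos i h1 h2)
      (fun i h1 h2 => by
        have h3 := hpos i h1 h2
        rw [hdir]
        have h4 : ip (tip oo up t - vx oo up t i) (-up) = ip (vx oo up t i) up - ip (tip oo up t) up := by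
          unfold ip
          simp only [Prod.fst_sub, Prod.snd_sub, Prod.fst_neg, Prod.snd_neg]
          ring
        rw [h4]
        omega)
    have hd : ∀ d, d = -up → d ≠ up ∧ d ≠ rotL up ∧ d ≠ rotR up ∧ d ≠ rotL (rotL up) ∧ d ≠ rotR (rotR up) := by
      rintro d rfl
      decide
    obtain ⟨n1, n2, n3, n4, n5⟩ := hd _ hdir
    rcases h1 with h | h | h | h | h | h
    · exact absurd h.1 n1
    · exact absurd h.1 n2
    · exact absurd h.1 n3
    · exact absurd h.1 n4
    · exact absurd h.1 n5
    · exact h.2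

lemma finite_lt (n : ℕ) : {t : List Bool | t.length < n}.Finite := List.finite_length_lt Bool n

/-- the total weight of the arcs -/
lemma ARC_total : Real.cos (3 * Real.pi / 8) * (gf ARC).toReal ≤ 1 := by
  have hcos := cos3_pos
  have h1 : gf ARC ≤ gf (AR 1) + gf {t | t ∈ ARC ∧ t ∉ AR 1} := by
    refine le_trans (gf_mono ?_) (gf_union_le _ _)
    intro t ht
    by_cases h : t ∈ AR 1
    · exact Or.inl h
    · exact Or.inr ⟨ht, h⟩
  have h2 := h1.trans (add_le_add le_rfl (AH_le (le_refl 1)))
  have h3 : (gf ARC).toReal ≤ aT 1 + bT 1 / Real.cos (3 * Real.pi / 8) := by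
    have h4 := ENNReal.toReal_mono (ENNReal.add_ne_top.2 ⟨gf_AR_ne 1, ENNReal.ofReal_ne_top⟩) h2
    rw [ENNReal.toReal_add (gf_AR_ne 1) ENNReal.ofReal_ne_top, ENNReal.toReal_ofReal
      (div_nonneg (bT_nonneg 1) hcos.le)] at h4
    exact h4
  have h5 := bT_add_aT (le_refl 1)
  calc Real.cos (3 * Real.pi / 8) * (gf ARC).toReal
      ≤ Real.cos (3 * Real.pi / 8) * (aT 1 + bT 1 / Real.cos (3 * Real.pi / 8)) :=
        mul_le_mul_of_nonneg_left h3 hcos.le
    _ = 1 := by
        rw [mul_add, mul_div_cancel₀ _ hcos.ne']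
        linarith

lemma ARC_parts (n : ℕ) : (gf {t | t ∈ ARC ∧ t.length < n}).toReal + tl ARC n ≤ (gf ARC).toReal := by
  unfold tl
  have h1 : gf {t | t ∈ ARC ∧ t.length < n} ≠ ∞ := ne_top_of_le_ne_top gf_ARC_ne (gf_mono fun _ h => h.1)
  have h2 : gf {t | t ∈ ARC ∧ n ≤ t.length} ≠ ∞ := ne_top_of_le_ne_top gf_ARC_ne (gf_mono fun _ h => h.1)
  rw [← ENNReal.toReal_add h1 h2, ← gf_union]
  · apply ENNReal.toReal_mono gf_ARC_ne
    apply gf_mono
    rintro t (h | h)
    · exact h.1
    · exact h.1
  · rw [Set.disjoint_left]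
    rintro t ⟨_, h1⟩ ⟨_, h2⟩
    omega

/-- **the half plane words with n letters against the long arcs** -/
theorem graded_half (n : ℕ) : Real.cos (3 * Real.pi / 8) * tl ARC n ≤ (cH n : ℝ) * xc ^ n := by
  classical
  have hcos := cos3_pos
  have hx := xc_pos
  have h1 := congrArg Complex.re (HexSlit.slit_graded (hbox n) upG (hbox_off n) n)
  rw [Complex.add_re, Complex.re_sum, Complex.re_sum, Complex.one_re] at h1
  have key : ∀ t : List Bool, (wt t).re = Real.cos (HexObs.wind t * (Real.pi / 8)) * xc ^ t.length := by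
    intro t
    unfold wt
    rw [← Complex.ofReal_pow, Complex.re_mul_ofReal, Complex.exp_ofReal_mul_I_re]
  simp only [key] at h1
  -- the words with n letters
  have s1 : ∑ t ∈ (arr (hbox n) oo up).filter (fun t => t.length = n),
      Real.cos (HexObs.wind t * (Real.pi / 8)) * xc ^ t.length ≤ (cH n : ℝ) * xc ^ n := by
    have h2 : ∑ t ∈ (arr (hbox n) oo up).filter (fun t => t.length = n),
        Real.cos (HexObs.wind t * (Real.pi / 8)) * xc ^ t.length ≤
        ∑ t ∈ (arr (hbox n) oo up).filter (fun t => t.length = n), xc ^ n := by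
      apply Finset.sum_le_sum
      intro t ht
      rw [(Finset.mem_filter.1 ht).2]
      have h3 := Real.cos_le_one (HexObs.wind t * (Real.pi / 8))
      have h4 := pow_pos hx n
      nlinarith
    refine h2.trans ?_
    rw [Finset.sum_const, nsmul_eq_mul]
    apply mul_le_mul_of_nonneg_right _ (pow_pos hx n).le
    have h3 : (((arr (hbox n) oo up).filter (fun t => t.length = n)).card : ℕ) ≤ cH n := by
      unfold cH
      rw [← Set.ncard_coe_finset]
      apply Set.ncard_le_ncard _ ((List.finite_length_eq Bool n).subset fun _ h => h.1)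
      intro t ht
      rw [Finset.mem_coe, Finset.mem_filter, mem_arr] at ht
      exact ⟨ht.2, fun i h5 h6 => (mem_hbox.1 (ht.1.mem i h5 h6)).2, ht.1.inj⟩
    exact_mod_cast h3
  -- the arcs with less than n letters
  have s2 : ∑ t ∈ (exits (hbox n) oo up).filter (fun t => t.length < n),
      Real.cos (HexObs.wind t * (Real.pi / 8)) * xc ^ t.length ≤
      Real.cos (3 * Real.pi / 8) * (gf {t | t ∈ ARC ∧ t.length < n}).toReal := by
    have h2 : ∀ t ∈ (exits (hbox n) oo up).filter (fun t => t.length < n),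
        Real.cos (HexObs.wind t * (Real.pi / 8)) * xc ^ t.length = Real.cos (3 * Real.pi / 8) * xc ^ t.length := by
      intro t ht
      rw [Finset.mem_filter] at ht
      congr 1
      rcases (exit_arc ht.1 ht.2).2 with h | h
      · rw [h]
        congr 1
        push_cast
        ring
      · rw [h, ← Real.cos_neg]
        congr 1
        push_cast
        ring
    rw [Finset.sum_congr rfl h2, ← Finset.mul_sum]
    apply mul_le_mul_of_nonneg_left _ hcos.le
    have h3 : gf ((((exits (hbox n) oo up).filter (fun t => t.length < n) : Finset (List Bool))) : Set (List Bool)) ≤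
        gf {t | t ∈ ARC ∧ t.length < n} := by
      apply gf_mono
      intro t ht
      rw [Finset.mem_coe, Finset.mem_filter] at ht
      exact ⟨(exit_arc ht.1 ht.2).1, ht.2⟩
    rw [gf_finset] at h3
    exact (ENNReal.ofReal_le_iff_le_toReal (ne_top_of_le_ne_top gf_ARC_ne (gf_mono fun _ h => h.1))).1 h3
  have h2 := ARC_total
  have h3 := ARC_parts n
  have h4 := mul_le_mul_of_nonneg_left h3 hcos.le
  rw [mul_add] at h4
  linarith

/-- **G1**: the number of the half plane words with n letters, for every n -/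
theorem cH_low (hM : ∀ a' : ℝ, 4 / 3 < a' → ∃ C : ℝ, 0 ≤ C ∧ MeanLen a' C) (hL : LongWalks (1 / 3)) :
    ∀ ε : ℝ, 0 < ε → ∃ c : ℝ, 0 < c ∧ ∀ n : ℕ, 1 ≤ n → c * (n : ℝ) ^ (-(3 / 16) - ε) ≤ (cH n : ℝ) * xc ^ n := by
  intro ε hε
  have hcos := cos3_pos
  obtain ⟨c, hc, h⟩ := (arcs_letters hM hL).2 ε hε
  refine ⟨Real.cos (3 * Real.pi / 8) * c, by positivity, fun n hn => ?_⟩
  have h1 := h n hn
  have h2 := graded_half n
  have h3 := mul_le_mul_of_nonneg_left h1 hcos.le
  linarith

end BrL

end HexObs
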