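import Pool.Agent.NUX.Tail
import Pool.Agent.EXL.FinalPre

/-! Arcs of the half plane by the number of letters (helper37, TARGET-E). -/

set_option autoImplicit false

namespace HexObs

namespace BrL

open Finset TS SDN T2 Filter NUX

open scoped ENNReal

/-- arcs of the strip -/
def AR (T : ℕ) : Set (List Bool) := out (St T) oo up (-up)

/-- arcs of the half plane -/
def ARC : Set (List Bool) := {t | ∃ T, t ∈ AR T}

lemma AR_tip {T : ℕ} {t : List Bool} (h : t ∈ AR T) : CC.lv (tip oo up t) ≤ 0 := by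
  obtain ⟨h1, h2, h3⟩ := h
  have hlt : 1 ≤ t.length := by
    by_contra hc
    have : t.length = 0 := by omega
    have h4 : dx up t t.length = up := by rw [this]; rfl
    rw [h4] at h3
    revert h3; decide
  have h4 := h1.mem t.length hlt le_rfl
  obtain ⟨_, h5, h6⟩ := CC.mem_St.1 h4
  have h7 : tip oo up t = vx oo up t t.length + -up := by
    unfold tip
    rw [vx_succ, h3]
  have h8 : CC.lv (tip oo up t) = CC.lv (vx oo up t t.length) - 2 := by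
    rw [h7]
    simp only [CC.lv, up, Prod.fst_add, Prod.snd_add, Prod.fst_neg, Prod.snd_neg]
    ring
  have h9 := CC.lv_vx_ne (v0 := oo) (by rfl) t (t.length + 1)
  have h10 : CC.lv (tip oo up t) % 3 ≠ 1 := h9
  by_contra hc
  apply h2
  rw [CC.mem_St]
  exact ⟨h10, by omega, by omega⟩

lemma AR_mono {T T' : ℕ} (h : T ≤ T') : AR T ⊆ AR T' := by
  intro t ht
  have htip := AR_tip ht
  obtain ⟨h1, h2, h3⟩ := ht
  refine ⟨⟨fun i hi hi' => ?_, h1.inj⟩, fun hc => ?_, h3⟩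
  · have h4 := CC.mem_St.1 (h1.mem i hi hi')
    rw [CC.mem_St]
    exact ⟨h4.1, h4.2.1, by omega⟩
  · have := (CC.mem_St.1 hc).2.1
    omega

lemma gf_AR (T : ℕ) : gf (AR T) = AT T := rfl

lemma AR_SA {T : ℕ} {t : List Bool} (h : t ∈ AR T) : t ∈ SA := ⟨fun _ _ _ => Set.mem_univ _, h.1.inj⟩

lemma gf_AR_ne (T : ℕ) : gf (AR T) ≠ ∞ := by
  rcases Nat.eq_zero_or_pos T with h | h
  · exact ne_top_of_le_ne_top (AT_ne_top (le_refl 1)) (gf_mono (AR_mono (by omega)))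
  · exact AT_ne_top h

/-- the difference of two strips -/
lemma gf_AR_diff {T T' : ℕ} (hT : 1 ≤ T) (h : T ≤ T') :
    gf (AR T' \ AR T) = ENNReal.ofReal ((bT T - bT T') / Real.cos (3 * Real.pi / 8)) := by
  have hcos := cos3_pos
  have h1 : gf (AR T') = gf (AR T) + gf (AR T' \ AR T) := by
    rw [← gf_union Set.disjoint_sdiff_right, Set.union_sdiff_cancel (AR_mono h)]
  have h2 : gf (AR T' \ AR T) ≠ ∞ := ne_top_of_le_ne_top (gf_AR_ne T') (gf_mono Set.sdiff_subset)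
  have h3 : aT T' = aT T + (gf (AR T' \ AR T)).toReal := by
    have := congrArg ENNReal.toReal h1
    rw [ENNReal.toReal_add (gf_AR_ne T) h2] at this
    exact this
  have h4 := bT_add_aT hT
  have h5 := bT_add_aT (T := T') (by omega)
  have h6 : (gf (AR T' \ AR T)).toReal = (bT T - bT T') / Real.cos (3 * Real.pi / 8) := by
    rw [eq_div_iff hcos.ne']
    rw [h3] at h5
    linarith
  rw [← h6, ENNReal.ofReal_toReal h2]

/-- arcs that leave the strip of height T -/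
lemma AH_le {T : ℕ} (hT : 1 ≤ T) : gf {t | t ∈ ARC ∧ t ∉ AR T} ≤ ENNReal.ofReal (bT T / Real.cos (3 * Real.pi / 8)) := by
  have hcos := cos3_pos
  unfold gf
  rw [ENNReal.tsum_eq_iSup_sum]
  apply iSup_le
  intro s
  have h1 : ∃ T' : ℕ, T ≤ T' ∧ ∀ t ∈ s, t.1 ∈ AR T' \ AR T := by
    have h2 : ∀ t : {t | t ∈ ARC ∧ t ∉ AR T}, ∃ T' : ℕ, t.1 ∈ AR T' := fun t => t.2.1
    choose g hg using h2
    refine ⟨max T (s.sup g), le_max_left _ _, fun t ht => ⟨AR_mono ?_ (hg t), t.2.2⟩⟩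
    exact (le_sup (f := g) ht).trans (le_max_right _ _)
  obtain ⟨T', h2, h3⟩ := h1
  have h4 : ∑ t ∈ s, wE t.1 ≤ gf (AR T' \ AR T) := by
    classical
    have h5 : ∑ t ∈ s, wE t.1 = ∑ t ∈ s.image Subtype.val, wE t := by
      rw [sum_image fun a _ b _ hab => Subtype.ext hab]
    rw [h5]
    have h6 : ∑ t ∈ s.image Subtype.val, wE t = gf (((s.image Subtype.val : Finset (List Bool)) : Set (List Bool))) := by
      unfold gf
      rw [Finset.tsum_subtype' (s.image Subtype.val) wE]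
    rw [h6]
    apply gf_mono
    intro t ht
    rw [mem_coe, mem_image] at ht
    obtain ⟨u, hu, rfl⟩ := ht
    exact h3 u hu
  refine h4.trans ?_
  rw [gf_AR_diff hT h2]
  apply ENNReal.ofReal_le_ofReal
  have := bT_nonneg T'
  gcongr
  linarith

lemma AH_ge {T T' : ℕ} (hT : 1 ≤ T) (h : T ≤ T') :
    ENNReal.ofReal ((bT T - bT T') / Real.cos (3 * Real.pi / 8)) ≤ gf {t | t ∈ ARC ∧ t ∉ AR T} := by
  rw [← gf_AR_diff hT h]
  exact gf_mono fun t ht => ⟨⟨T', ht.1⟩, ht.2⟩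

lemma gf_ARC_ne : gf ARC ≠ ∞ := by
  have h1 : gf ARC ≤ gf (AR 1) + gf {t | t ∈ ARC ∧ t ∉ AR 1} := by
    refine le_trans (gf_mono ?_) (gf_union_le _ _)
    intro t ht
    by_cases h : t ∈ AR 1
    · exact Or.inl h
    · exact Or.inr ⟨ht, h⟩
  exact ne_top_of_le_ne_top (ENNReal.add_ne_top.2 ⟨gf_AR_ne 1,
    ne_top_of_le_ne_top ENNReal.ofReal_ne_top (AH_le le_rfl)⟩) h1

/-- the exponent -1/4 of the bridges -/
lemma bT_two : ∃ C : ℝ, 0 < C ∧ ∀ T : ℕ, 1 ≤ T →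
    (T : ℝ) ^ (-(1 / 4) : ℝ) / C ≤ bT T ∧ bT T ≤ C * (T : ℝ) ^ (-(1 / 4) : ℝ) :=
  Ex.P2.main (fun n => HexObs.bT_nonneg n) (fun _ _ h => Pool.Agent.EXL.bT_anti h)
    (fun _ => rfl) Pool.Agent.EXL.Glue.relE_bT

lemma AH_hi : ∃ C : ℝ, 0 < C ∧ ∀ T : ℕ, 1 ≤ T →
    gf {t | t ∈ ARC ∧ t ∉ AR T} ≤ ENNReal.ofReal (C * (T : ℝ) ^ (-(1 / 4) : ℝ)) := by
  have hcos := cos3_pos
  obtain ⟨C, hC, h⟩ := bT_two
  refine ⟨C / Real.cos (3 * Real.pi / 8), by positivity, fun T hT => (AH_le hT).trans (ENNReal.ofReal_le_ofReal ?_)⟩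
  rw [div_mul_eq_mul_div]
  exact div_le_div_of_nonneg_right (h T hT).2 hcos.le

lemma AH_lo : ∃ c : ℝ, 0 < c ∧ ∀ T : ℕ, 1 ≤ T →
    ENNReal.ofReal (c * (T : ℝ) ^ (-(1 / 4) : ℝ)) ≤ gf {t | t ∈ ARC ∧ t ∉ AR T} := by
  have hcos := cos3_pos
  obtain ⟨C, hC, h⟩ := bT_two
  obtain ⟨K, hK⟩ := exists_nat_ge ((2 * C ^ 2) ^ (4 : ℝ))
  set M := K + 1 with hM
  have hM1 : (1 : ℝ) ≤ (M : ℝ) := by rw [hM]; push_cast; linarith [Nat.cast_nonneg (α := ℝ) K]
  have hM0 : (0 : ℝ) < M := by linarith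
  have hMC : (M : ℝ) ^ (-(1 / 4) : ℝ) ≤ 1 / (2 * C ^ 2) := by
    have h1 : (2 * C ^ 2) ^ (4 : ℝ) ≤ (M : ℝ) := by rw [hM]; push_cast; linarith
    have h2 := Real.rpow_le_rpow (by positivity) h1 (show (0 : ℝ) ≤ 1 / 4 by norm_num)
    rw [← Real.rpow_mul (by positivity)] at h2
    norm_num at h2
    rw [Real.rpow_neg hM0.le, ← one_div]
    exact one_div_le_one_div_of_le (by positivity) (by norm_num; exact h2)
  refine ⟨1 / (2 * C) / Real.cos (3 * Real.pi / 8), by positivity, fun T hT => ?_⟩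
  have hTM : T ≤ M * T := Nat.le_mul_of_pos_left T (by omega)
  refine le_trans (ENNReal.ofReal_le_ofReal ?_) (AH_ge hT hTM)
  rw [div_mul_eq_mul_div]
  apply div_le_div_of_nonneg_right _ hcos.le
  have h1 := (h T hT).1
  have h2 := (h (M * T) (by nlinarith)).2
  push_cast at h2
  rw [Real.mul_rpow hM0.le (by positivity)] at h2
  have hT0 : (0 : ℝ) < T := by exact_mod_cast hT
  have h3 : 0 < (T : ℝ) ^ (-(1 / 4) : ℝ) := by positivity
  have h4 : C * ((M : ℝ) ^ (-(1 / 4) : ℝ) * (T : ℝ) ^ (-(1 / 4) : ℝ)) ≤ 1 / (2 * C) * (T : ℝ) ^ (-(1 / 4) : ℝ) := by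
    calc C * ((M : ℝ) ^ (-(1 / 4) : ℝ) * (T : ℝ) ^ (-(1 / 4) : ℝ))
        ≤ C * (1 / (2 * C ^ 2) * (T : ℝ) ^ (-(1 / 4) : ℝ)) := by gcongr
      _ = _ := by field_simp
  have h5 : (T : ℝ) ^ (-(1 / 4) : ℝ) / C = 2 * (1 / (2 * C) * (T : ℝ) ^ (-(1 / 4) : ℝ)) := by field_simp
  linarith

lemma ARC_high {T : ℕ} {t : List Bool} (h : t ∈ ARC) (hn : t ∉ AR T) :
    t ∈ SA ∧ ∃ i, i ≤ t.length ∧ ∃ dir, (T : ℤ) ≤ |row dir (vx oo up t i)| := by
  obtain ⟨T', hT'⟩ := h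
  refine ⟨AR_SA hT', ?_⟩
  by_contra hc
  push Not at hc
  apply hn
  have htip := AR_tip hT'
  obtain ⟨h1, h2, h3⟩ := hT'
  refine ⟨⟨fun i hi hi' => ?_, h1.inj⟩, fun hc => ?_, h3⟩
  · have h4 := CC.mem_St.1 (h1.mem i hi hi')
    have h5 := hc i hi' false
    rw [CC.mem_St]
    unfold row at h5
    rw [lvl_false_eq, abs_lt] at h5
    unfold CC.lv at h4 ⊢
    exact ⟨h4.1, h4.2.1, by omega⟩
  · have := (CC.mem_St.1 hc).2.1
    omega

/-- arcs of the half plane by the number of letters -/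
theorem arcs_letters (hM : ∀ a' : ℝ, 4 / 3 < a' → ∃ C : ℝ, 0 ≤ C ∧ MeanLen a' C)
    (hL : LongWalks (1 / 3)) : Hi (tl ARC) (-(3 / 16)) ∧ Lo (tl ARC) (-(3 / 16)) := by
  constructor
  · have := tail_hi (a0 := 4 / 3) (s := 1 / 4) (by norm_num) hM (by norm_num) gf_ARC_ne AR
      (fun T _ t _ h => Or.inr h) AH_hi
    norm_num at this ⊢
    exact this
  · have := tail_lo (β0 := 1 + 1 / 3) (s := 1 / 4) (by norm_num) (fun β h0 hβ =>
      exp_up (τ1 := 1 / 3) (by norm_num) (fun _ _ hτ hττ hε hε1 => pow_up (by norm_num) hL hτ hττ hε hε1) hβ)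
      (by norm_num) gf_ARC_ne AR (fun T _ t h1 h2 => ARC_high h1 h2) AH_lo
    norm_num at this ⊢
    exact this

end BrL

end HexObs
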