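import Pool.Agent.NUX.Arc1
import Pool.Agent.HexTP.StripL

/-! Arcs of the half plane: words and lists (helper37, TARGET-E). -/

set_option autoImplicit false

namespace HexObs

namespace BrL

open Finset TS SDN T2 Filter NUX TP

open scoped ENNReal

/-- words of the arcs that end on the right of their start -/
def AP : Set (List Bool) := {t | ∃ d : ℕ, 1 ≤ d ∧ t ∈ Arc Hp ∅ oo up (foot oo up d)}

lemma AR_iff {T d : ℕ} {t : List Bool} (h : t ∈ Arc Hp ∅ oo up (foot oo up d)) :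
    t ∈ AR T ↔ ∀ p ∈ CC.toL oo t, p.2 ≤ T := by
  constructor
  · intro ht
    have h1 : t ∈ Arc (St T) ∅ oo up (foot oo up d) := by
      obtain ⟨h2, h3, h4⟩ := ht
      exact ⟨⟨by rw [Set.sdiff_empty]; exact h2, h3, h4⟩, h.2⟩
    exact (arc_St_iff.1 h1).2
  · intro hr
    obtain ⟨⟨h1, h2, h3⟩, h4⟩ := arc_St_iff.2 ⟨h, hr⟩
    rw [Set.sdiff_empty] at h1
    exact ⟨h1, h2, h3⟩

lemma rows_bdd (L : List (ℤ × ℤ)) : ∃ n : ℕ, ∀ p ∈ L, p.2 ≤ (n : ℤ) := by
  induction L with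
  | nil => exact ⟨0, fun p hp => absurd hp (List.not_mem_nil)⟩
  | cons q L ih =>
    obtain ⟨n, hn⟩ := ih
    refine ⟨max n q.2.toNat, fun p hp => ?_⟩
    rcases List.mem_cons.1 hp with h | h
    · rw [h]
      push_cast
      omega
    · have := hn p h
      push_cast
      omega

lemma AP_ARC {t : List Bool} (h : t ∈ AP) : t ∈ ARC := by
  obtain ⟨d, _, h⟩ := h
  obtain ⟨n, hn⟩ := rows_bdd (CC.toL oo t)
  exact ⟨n, (AR_iff h).2 hn⟩

lemma mir_AR {T : ℕ} {t : List Bool} (h : t ∈ AR T) : t.map not ∈ AR T := by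
  obtain ⟨h1, h2, h3⟩ := h
  have hl : (t.map not).length = t.length := List.length_map _
  have hlv : ∀ v : Pt, CC.lv (-v.1, v.1 + v.2) = CC.lv v := by
    intro v
    unfold CC.lv
    ring
  have hSt : ∀ v : Pt, (-v.1, v.1 + v.2) ∈ St T ↔ v ∈ St T := by
    intro v
    rw [CC.mem_St, CC.mem_St, hlv]
  refine ⟨⟨fun i hi hi' => ?_, fun i k hik hk heq => ?_⟩, ?_, ?_⟩
  · rw [hl] at hi'
    rw [LP.arcA_not t (by omega)]
    exact (hSt _).2 (h1.mem i hi hi')
  · rw [hl] at hk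
    rw [LP.arcA_not t (by omega), LP.arcA_not t (by omega)] at heq
    apply h1.inj i k hik hk
    have e1 := congrArg Prod.fst heq
    have e2 := congrArg Prod.snd heq
    simp only at e1 e2
    ext
    · linarith
    · linarith
  · unfold tip
    rw [hl, LP.arcA_not t le_rfl]
    exact fun hc => h2 ((hSt _).1 hc)
  · rw [hl, dx_not t le_rfl, h3]
    decide

lemma tip_form {T : ℕ} {t : List Bool} (h : t ∈ AR T) : ∃ d : ℤ, d ≠ 0 ∧ tip oo up t = (2 * d, -d) := by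
  have htip := AR_tip h
  obtain ⟨h1, h2, h3⟩ := h
  have hlt : 1 ≤ t.length := by
    by_contra hc
    have : t.length = 0 := by omega
    have h4 : dx up t t.length = up := by rw [this]; rfl
    rw [h4] at h3
    revert h3; decide
  have h4 := h1.mem t.length hlt le_rfl
  obtain ⟨h5a, h5, h6⟩ := CC.mem_St.1 h4
  have h7 : tip oo up t = vx oo up t t.length + -up := by
    unfold tip
    rw [vx_succ, h3]
  have h8 : CC.lv (tip oo up t) = CC.lv (vx oo up t t.length) - 2 := by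
    rw [h7]
    simp only [CC.lv, up, Prod.fst_add, Prod.snd_add, Prod.fst_neg, Prod.snd_neg]
    ring
  have h9 := CC.lv_vx_ne (v0 := oo) (by rfl) t (t.length + 1)
  have h10 : CC.lv (tip oo up t) % 3 ≠ 1 := h9
  have h11 : CC.lv (tip oo up t) = 0 := by omega
  unfold CC.lv at h11
  refine ⟨-(tip oo up t).2, ?_, ?_⟩
  · intro hc
    have h12 : (tip oo up t).2 = 0 := by omega
    have h13 : (tip oo up t).1 = 0 := by omega
    have h14 : vx oo up t t.length = up := by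
      have : vx oo up t t.length = tip oo up t + up := by rw [h7]; abel
      rw [this]
      ext
      · simp only [Prod.fst_add, h13, zero_add]
      · simp only [Prod.snd_add, h12, zero_add]
    have h15 : vx oo up t 1 = up := by
      rw [vx_succ]
      show oo + up = up
      decide
    rcases Nat.lt_or_ge 1 t.length with h16 | h16
    · exact h1.inj 1 t.length h16 le_rfl (h15.trans h14.symm)
    · have h17 : t.length = 1 := by omega
      rw [h17] at h3
      have h18 : dx up t 1 = turn (tf t 0) up := dx_succ _ _ _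
      rw [h18] at h3
      revert h3
      cases tf t 0 <;> decide
  · ext
    · simp only; omega
    · simp only; omega

lemma ARC_split {t : List Bool} (h : t ∈ ARC) : t ∈ AP ∨ t.map not ∈ AP := by
  obtain ⟨T, hT⟩ := h
  have key : ∀ s : List Bool, s ∈ AR T → ∀ d : ℤ, 0 < d → tip oo up s = (2 * d, -d) → s ∈ AP := by
    intro s hs d hd htip
    obtain ⟨h1, h2, h3⟩ := hs
    refine ⟨d.toNat, by omega, ⟨⟨by rw [Set.sdiff_empty]; exact ⟨fun i hi hi' => St_sub T (h1.mem i hi hi'), h1.inj⟩, ?_, h3⟩, ?_⟩⟩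
    · rw [mem_Hp, htip]
      unfold CC.lv
      simp only
      omega
    · rw [htip, k4_foot]
      ext
      · simp only; omega
      · simp only; omega
  obtain ⟨d, hd, htip⟩ := tip_form hT
  rcases lt_or_gt_of_ne hd with hlt | hgt
  · right
    apply key _ (mir_AR hT) (-d) (by omega)
    unfold tip at htip ⊢
    rw [List.length_map, LP.arcA_not t le_rfl, htip]
    ext
    · simp only; omega
    · simp only; omega
  · left
    exact key _ hT d hgt htip

lemma gf_mir {P Q : Set (List Bool)} (h : ∀ t ∈ P, t.map not ∈ Q) : gf P ≤ gf Q := by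
  have := gf_le_of_inj (P := P) (Q := Q) (fun t => t.map not) h ?_ 1 (fun t _ => by
    rw [one_mul, wE_map_not])
  · rwa [one_mul] at this
  · intro a _ b _ hab
    have := congrArg (List.map not) hab
    simpa only [map_not_not] using this

lemma gf_AP_ne : gf AP ≠ ∞ := ne_top_of_le_ne_top gf_ARC_ne (gf_mono fun _ h => AP_ARC h)

lemma AP_hi : ∃ C : ℝ, 0 < C ∧ ∀ T : ℕ, 1 ≤ T →
    gf {t | t ∈ AP ∧ t ∉ AR T} ≤ ENNReal.ofReal (C * (T : ℝ) ^ (-(1 / 4) : ℝ)) := by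
  obtain ⟨C, hC, h⟩ := AH_hi
  refine ⟨C, hC, fun T hT => le_trans (gf_mono ?_) (h T hT)⟩
  rintro t ⟨h1, h2⟩
  exact ⟨AP_ARC h1, h2⟩

lemma AP_lo : ∃ c : ℝ, 0 < c ∧ ∀ T : ℕ, 1 ≤ T →
    ENNReal.ofReal (c * (T : ℝ) ^ (-(1 / 4) : ℝ)) ≤ gf {t | t ∈ AP ∧ t ∉ AR T} := by
  obtain ⟨c, hc, h⟩ := AH_lo
  refine ⟨c / 2, by positivity, fun T hT => ?_⟩
  have h1 : gf {t | t ∈ ARC ∧ t ∉ AR T} ≤ 2 * gf {t | t ∈ AP ∧ t ∉ AR T} := by
    have h2 : {t | t ∈ ARC ∧ t ∉ AR T} ⊆ {t | t ∈ AP ∧ t ∉ AR T} ∪ {t | t.map not ∈ AP ∧ t ∉ AR T} := by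
      rintro t ⟨h3, h4⟩
      rcases ARC_split h3 with h5 | h5
      · exact Or.inl ⟨h5, h4⟩
      · exact Or.inr ⟨h5, h4⟩
    have h3 : gf {t | t.map not ∈ AP ∧ t ∉ AR T} ≤ gf {t | t ∈ AP ∧ t ∉ AR T} := by
      apply gf_mir
      rintro t ⟨h4, h5⟩
      refine ⟨h4, fun hc => h5 ?_⟩
      have := mir_AR hc
      rwa [map_not_not] at this
    rw [two_mul]
    exact (gf_mono h2).trans ((gf_union_le _ _).trans (add_le_add le_rfl h3))
  have h2 := (h T hT).trans h1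
  have e : ENNReal.ofReal (c * (T : ℝ) ^ (-(1 / 4) : ℝ)) = 2 * ENNReal.ofReal (c / 2 * (T : ℝ) ^ (-(1 / 4) : ℝ)) := by
    rw [← ENNReal.ofReal_ofNat 2, ← ENNReal.ofReal_mul (by norm_num)]
    congr 1
    ring
  rw [e] at h2
  exact (ENNReal.mul_le_mul_iff_right (by norm_num) (by norm_num)).1 h2

/-- the lists of the arcs to the right -/
theorem dict (Q : List (ℤ × ℤ) → Prop) :
    ∑' L : {L // (∃ d : ℕ, 1 ≤ d ∧ ArcL (2 * d) L) ∧ Q L}, CC.wt L.1 = gf {t | t ∈ AP ∧ Q (CC.toL oo t)} := by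
  let f : {t | t ∈ AP ∧ Q (CC.toL oo t)} → {L // (∃ d : ℕ, 1 ≤ d ∧ ArcL (2 * d) L) ∧ Q L} := fun t =>
    ⟨CC.toL oo t.1, by
      obtain ⟨⟨d, hd, h⟩, h2⟩ := t.2
      exact ⟨⟨d, hd, arc_toL h⟩, h2⟩⟩
  have hf : Function.Bijective f := by
    constructor
    · rintro ⟨t, ⟨⟨d, hd, h1⟩, h2⟩⟩ ⟨s, ⟨⟨e, he, h3⟩, h4⟩⟩ h
      have h5 : CC.toL oo t = CC.toL oo s := congrArg Subtype.val h
      have h6 := (arc_toL h1).2.2.2.2
      have h7 := (arc_toL h3).2.2.2.2
      rw [h5, h7] at h6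
      have h8 : (2 * (e : ℤ), (1 : ℤ)) = (2 * (d : ℤ), 1) := Option.some.inj h6
      have h9 : e = d := by
        have := congrArg Prod.fst h8
        simp only at this
        omega
      subst h9
      exact Subtype.ext (arc_toL_inj h1 h3 h5)
    · rintro ⟨L, ⟨⟨d, hd, hL⟩, h2⟩⟩
      obtain ⟨h3, h4⟩ := aW_spec hd hL
      refine ⟨⟨aW (2 * d) L, ⟨⟨d, hd, h3⟩, ?_⟩⟩, Subtype.ext h4⟩
      rw [h4]; exact h2
  unfold gf
  rw [← (Equiv.ofBijective f hf).tsum_eq]
  apply tsum_congr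
  intro t
  show CC.wt (CC.toL oo t.1) = wE t.1
  exact CC.wt_toL _ _

/-- arcs to the right by the number of letters -/
theorem arcs_right (hM : ∀ a' : ℝ, 4 / 3 < a' → ∃ C : ℝ, 0 ≤ C ∧ MeanLen a' C)
    (hL : LongWalks (1 / 3)) : Hi (tl AP) (-(3 / 16)) ∧ Lo (tl AP) (-(3 / 16)) := by
  constructor
  · have := tail_hi (a0 := 4 / 3) (s := 1 / 4) (by norm_num) hM (by norm_num) gf_AP_ne AR
      (fun T _ t _ h => Or.inr h) AP_hi
    norm_num at this ⊢
    exact this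
  · have := tail_lo (β0 := 1 + 1 / 3) (s := 1 / 4) (by norm_num) (fun β h0 hβ =>
      exp_up (τ1 := 1 / 3) (by norm_num) (fun _ _ hτ hττ hε hε1 => pow_up (by norm_num) hL hτ hττ hε hε1) hβ)
      (by norm_num) gf_AP_ne AR (fun T _ t h1 h2 => ARC_high (AP_ARC h1) h2) AP_lo
    norm_num at this ⊢
    exact this

end BrL

end HexObs
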