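import Pool.Agent.NUX.Rare

/-! Tails by the number of letters from tails by the height (helper37, TARGET-E). -/

set_option autoImplicit false

namespace HexObs

namespace BrL

open Finset TS SDN T2 Filter NUX

open scoped ENNReal

/-- weight of the words of P with at least n letters -/
noncomputable def tl (P : Set (List Bool)) (n : ℕ) : ℝ := (gf {t | t ∈ P ∧ n ≤ t.length}).toReal

lemma tl_anti {P : Set (List Bool)} (hP : gf P ≠ ∞) {n m : ℕ} (h : n ≤ m) : tl P m ≤ tl P n := by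
  apply ENNReal.toReal_mono (ne_top_of_le_ne_top hP (gf_mono fun _ h => h.1))
  exact gf_mono fun _ ht => ⟨ht.1, h.trans ht.2⟩

lemma tl_le {P : Set (List Bool)} (hP : gf P ≠ ∞) (n : ℕ) : tl P n ≤ (gf P).toReal :=
  ENNReal.toReal_mono hP (gf_mono fun _ h => h.1)

lemma exp_small_rpow {c : ℝ} (hc : 0 < c) (K : ℝ) {s : ℝ} (hK : 0 < K) : ∀ᶠ n : ℕ in atTop,
    Real.exp (-(n : ℝ) ^ c) ≤ K * (n : ℝ) ^ (-s) := by
  have h1 : Tendsto (fun x : ℝ => x ^ (s / c) * Real.exp (-x)) atTop (nhds 0) := by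
    have h0 := tendsto_rpow_mul_exp_neg_mul_atTop_nhds_zero (s / c) 1 one_pos
    simpa only [neg_one_mul] using h0
  have h2 : Tendsto (fun n : ℕ => ((n : ℝ) ^ c) ^ (s / c) * Real.exp (-(n : ℝ) ^ c)) atTop (nhds 0) :=
    h1.comp ((tendsto_rpow_atTop hc).comp tendsto_natCast_atTop_atTop)
  filter_upwards [h2.eventually (gt_mem_nhds hK), eventually_ge_atTop 1] with n hn hn1
  have hn0 : (0 : ℝ) < n := by exact_mod_cast hn1
  rw [← Real.rpow_mul hn0.le, mul_div_cancel₀ _ hc.ne'] at hn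
  rw [Real.rpow_neg hn0.le]
  rw [← div_eq_mul_inv, le_div_iff₀ (by positivity)]
  linarith

/-- upper bound of the tail by the number of letters -/
theorem tail_hi {a0 : ℝ} (ha0 : 1 ≤ a0) (hM : ∀ a' : ℝ, a0 < a' → ∃ C : ℝ, 0 ≤ C ∧ MeanLen a' C)
    {s : ℝ} (hs : 0 < s) {P : Set (List Bool)} (hP : gf P ≠ ∞) (lo : ℕ → Set (List Bool))
    (h1 : ∀ T : ℕ, 1 ≤ T → ∀ t ∈ P, t ∈ lo T → t ∈ CT T)
    (h2 : ∃ C : ℝ, 0 < C ∧ ∀ T : ℕ, 1 ≤ T → gf {t | t ∈ P ∧ t ∉ lo T} ≤ ENNReal.ofReal (C * (T : ℝ) ^ (-s))) :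
    Hi (tl P) (-(s / a0)) := by
  have ha00 : 0 < a0 := by linarith
  apply Hi.of_small (e0 := s / (2 * a0)) (by positivity)
  intro ε hε hε1
  obtain ⟨C, hC, h2⟩ := h2
  -- β with s / β = s / a0 - ε
  set x := s / a0 - ε with hx
  have hx0 : 0 < x := by
    have e : s / a0 = 2 * (s / (2 * a0)) := by field_simp
    have : 0 < s / (2 * a0) := by positivity
    rw [hx, e]; linarith
  set β := s / x with hβ
  have hβa : a0 < β := by
    rw [hβ, lt_div_iff₀ hx0]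
    have e : a0 * (s / a0) = s := by field_simp
    nlinarith
  have hβ0 : 0 < β := by linarith
  have hxβ : x = s / β := by rw [hβ]; field_simp
  obtain ⟨c, N0, hc, hN0⟩ := long_rare ha0 hM hβa
  obtain ⟨N1, hN1⟩ := (exp_small_rpow hc 1 (s := x) one_pos).exists_forall_of_atTop
  set N := max N0 (max N1 1) with hN
  refine ⟨1 + C * 2 ^ s + (gf P).toReal * (N : ℝ) ^ x, by positivity, fun n hn => ?_⟩
  have hnR : (1 : ℝ) ≤ n := by exact_mod_cast hn
  have hn0 : (0 : ℝ) < n := by linarith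
  have hexp : -(s / a0) + ε = -x := by rw [hx]; ring
  rw [hexp]
  have hGP : 0 ≤ (gf P).toReal := ENNReal.toReal_nonneg
  rcases Nat.lt_or_ge n N with hlt | hge
  · have h3 : (1 : ℝ) ≤ (N : ℝ) ^ x * (n : ℝ) ^ (-x) := by
      rw [Real.rpow_neg hn0.le, ← div_eq_mul_inv, le_div_iff₀ (by positivity), one_mul]
      exact Real.rpow_le_rpow hn0.le (by exact_mod_cast hlt.le) hx0.le
    calc tl P n ≤ (gf P).toReal * 1 := by rw [mul_one]; exact tl_le hP n
      _ ≤ (gf P).toReal * ((N : ℝ) ^ x * (n : ℝ) ^ (-x)) := mul_le_mul_of_nonneg_left h3 hGP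
      _ ≤ _ := by
        have : 0 ≤ (1 + C * 2 ^ s) * (n : ℝ) ^ (-x) := by positivity
        nlinarith
  · have hnN0 : N0 ≤ n := (le_max_left _ _).trans hge
    have hnN1 : N1 ≤ n := ((le_max_left _ _).trans (le_max_right _ _)).trans hge
    set Y := (n : ℝ) ^ (1 / β) with hY
    have hY1 : 1 ≤ Y := Real.one_le_rpow hnR (by positivity)
    set T := ⌊Y⌋₊ with hT
    have hT1 : 1 ≤ T := Nat.le_floor (by simpa using hY1)
    have hTY : (T : ℝ) ≤ Y := Nat.floor_le (by linarith)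
    have hYT : Y / 2 ≤ T := by
      have h3 := Nat.lt_floor_add_one Y
      rw [← hT] at h3
      have h4 : (1 : ℝ) ≤ T := by exact_mod_cast hT1
      linarith
    have hTn : (T : ℝ) ^ β ≤ n := by
      calc (T : ℝ) ^ β ≤ Y ^ β := Real.rpow_le_rpow (by positivity) hTY hβ0.le
        _ = n := by rw [hY, ← Real.rpow_mul hn0.le, one_div_mul_cancel hβ0.ne', Real.rpow_one]
    have h3 := hN0 n T hnN0 hT1 hTn
    have h4 := h2 T hT1
    have h5 : gf {t | t ∈ P ∧ n ≤ t.length} ≤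
        ENNReal.ofReal (Real.exp (-(n : ℝ) ^ c)) + ENNReal.ofReal (C * (T : ℝ) ^ (-s)) := by
      refine le_trans (gf_mono ?_) ((gf_union_le _ _).trans (add_le_add h3 h4))
      rintro t ⟨h5, h6⟩
      by_cases h7 : t ∈ lo T
      · exact Or.inl ⟨h1 T hT1 t h5 h7, h6⟩
      · exact Or.inr ⟨h5, h7⟩
    rw [← ENNReal.ofReal_add (Real.exp_pos _).le (by positivity)] at h5
    have h6 : tl P n ≤ Real.exp (-(n : ℝ) ^ c) + C * (T : ℝ) ^ (-s) :=
      ENNReal.toReal_le_of_le_ofReal (by positivity) h5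
    have h7 := hN1 n hnN1
    rw [one_mul] at h7
    have h8 : (T : ℝ) ^ (-s) ≤ 2 ^ s * (n : ℝ) ^ (-x) := by
      calc (T : ℝ) ^ (-s) ≤ (Y / 2) ^ (-s) :=
            Real.rpow_le_rpow_of_nonpos (by positivity) hYT (by linarith)
        _ = 2 ^ s * Y ^ (-s) := by
            rw [Real.div_rpow (by positivity) (by norm_num), Real.rpow_neg (by norm_num : (0 : ℝ) ≤ 2)]
            field_simp
        _ = 2 ^ s * (n : ℝ) ^ (-x) := by
            rw [hY, ← Real.rpow_mul hn0.le, hxβ]; congr 2; field_simp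
    have h9 : 0 ≤ (gf P).toReal * (N : ℝ) ^ x * (n : ℝ) ^ (-x) := by positivity
    nlinarith

/-- lower bound of the tail by the number of letters -/
theorem tail_lo {β0 : ℝ} (hβ0 : 0 < β0) (hE : ∀ β : ℝ, 0 < β → β < β0 → ExpUp β)
    {s : ℝ} (hs : 0 < s) {P : Set (List Bool)} (hP : gf P ≠ ∞) (lo : ℕ → Set (List Bool))
    (h1 : ∀ T : ℕ, 1 ≤ T → ∀ t ∈ P, t ∉ lo T →
      t ∈ SA ∧ ∃ i, i ≤ t.length ∧ ∃ dir, (T : ℤ) ≤ |row dir (vx oo up t i)|)
    (h2 : ∃ c : ℝ, 0 < c ∧ ∀ T : ℕ, 1 ≤ T → ENNReal.ofReal (c * (T : ℝ) ^ (-s)) ≤ gf {t | t ∈ P ∧ t ∉ lo T}) :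
    Lo (tl P) (-(s / β0)) := by
  intro ε hε
  obtain ⟨c0, hc0, h2⟩ := h2
  set x := s / β0 + ε with hx
  have hx1 : 0 < s / β0 := by positivity
  have hx0 : 0 < x := by rw [hx]; linarith
  set β := s / x with hβ
  have hβp : 0 < β := by positivity
  have hββ : β < β0 := by
    rw [hβ, div_lt_iff₀ hx0]
    have e : β0 * (s / β0) = s := by field_simp
    nlinarith
  have hxβ : x = s / β := by rw [hβ]; field_simp
  obtain ⟨c, N0, hc, hN0⟩ := short_rare hE hβp hββ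
  have h2s : (0 : ℝ) < 2 ^ (-s) := by positivity
  obtain ⟨N1, hN1⟩ := (exp_small_rpow hc (c0 * 2 ^ (-s) / 2) (s := x) (by positivity)).exists_forall_of_atTop
  set N := max N0 (max N1 1) with hN
  -- large n
  have key : ∀ n : ℕ, N ≤ n → c0 * 2 ^ (-s) / 2 * (n : ℝ) ^ (-x) ≤ tl P n := by
    intro n hge
    have hnN0 : N0 ≤ n := (le_max_left _ _).trans hge
    have hnN1 : N1 ≤ n := ((le_max_left _ _).trans (le_max_right _ _)).trans hge
    have hn : 1 ≤ n := ((le_max_right _ _).trans (le_max_right _ _)).trans hge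
    have hnR : (1 : ℝ) ≤ n := by exact_mod_cast hn
    have hn0 : (0 : ℝ) < n := by linarith
    set Y := (n : ℝ) ^ (1 / β) with hY
    have hY1 : 1 ≤ Y := Real.one_le_rpow hnR (by positivity)
    set T := ⌈Y⌉₊ with hT
    have hTY : Y ≤ T := Nat.le_ceil Y
    have hT1R : (1 : ℝ) ≤ T := hY1.trans hTY
    have hT1 : 1 ≤ T := by exact_mod_cast hT1R
    have hYT : (T : ℝ) ≤ 2 * Y := by
      have := Nat.ceil_lt_add_one (by linarith : 0 ≤ Y)
      linarith
    have hTn : (n : ℝ) ≤ (T : ℝ) ^ β := by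
      calc (n : ℝ) = Y ^ β := by rw [hY, ← Real.rpow_mul hn0.le, one_div_mul_cancel hβp.ne', Real.rpow_one]
        _ ≤ (T : ℝ) ^ β := Real.rpow_le_rpow (by positivity) hTY hβp.le
    have h3 := hN0 n T hnN0 hTn
    have h4 := h2 T hT1
    have h5 : gf {t | t ∈ P ∧ t ∉ lo T} ≤ gf {t | t ∈ P ∧ n ≤ t.length} +
        gf {t | t ∈ SA ∧ (∃ i, i ≤ t.length ∧ ∃ dir, (T : ℤ) ≤ |row dir (vx oo up t i)|) ∧ t.length ≤ n} := by
      refine le_trans (gf_mono ?_) (gf_union_le _ _)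
      rintro t ⟨h5, h6⟩
      rcases Nat.lt_or_ge t.length n with h7 | h7
      · obtain ⟨h8, h9⟩ := h1 T hT1 t h5 h6
        exact Or.inr ⟨h8, h9, h7.le⟩
      · exact Or.inl ⟨h5, h7⟩
    have hfin : gf {t | t ∈ P ∧ n ≤ t.length} ≠ ∞ := ne_top_of_le_ne_top hP (gf_mono fun _ h => h.1)
    have h6 : ENNReal.ofReal (c0 * (T : ℝ) ^ (-s)) ≤ ENNReal.ofReal (tl P n + Real.exp (-(n : ℝ) ^ c)) := by
      unfold tl
      rw [ENNReal.ofReal_add ENNReal.toReal_nonneg (Real.exp_pos _).le, ENNReal.ofReal_toReal hfin]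
      exact h4.trans (h5.trans (add_le_add le_rfl h3))
    have h7 : c0 * (T : ℝ) ^ (-s) ≤ tl P n + Real.exp (-(n : ℝ) ^ c) := by
      refine (ENNReal.ofReal_le_ofReal_iff ?_).1 h6
      exact add_nonneg ENNReal.toReal_nonneg (Real.exp_pos _).le
    have h8 : 2 ^ (-s) * (n : ℝ) ^ (-x) ≤ (T : ℝ) ^ (-s) := by
      calc 2 ^ (-s) * (n : ℝ) ^ (-x) = (2 * Y) ^ (-s) := by
            rw [Real.mul_rpow (by norm_num) (by positivity), hY, ← Real.rpow_mul hn0.le, hxβ]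
            congr 2; field_simp
        _ ≤ (T : ℝ) ^ (-s) := Real.rpow_le_rpow_of_nonpos (by linarith) hYT (by linarith)
    have h9 := hN1 n hnN1
    have h10 := mul_le_mul_of_nonneg_left h8 hc0.le
    have e : c0 * 2 ^ (-s) / 2 * (n : ℝ) ^ (-x) = c0 * (2 ^ (-s) * (n : ℝ) ^ (-x)) / 2 := by ring
    rw [e] at h9 ⊢
    linarith
  have hN1 : 1 ≤ N := (le_max_right _ _).trans (le_max_right _ _)
  have hNR : (1 : ℝ) ≤ N := by exact_mod_cast hN1
  have hN0p : (0 : ℝ) < N := by linarith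
  refine ⟨c0 * 2 ^ (-s) / 2 * (N : ℝ) ^ (-x), by positivity, fun n hn => ?_⟩
  have hnR : (1 : ℝ) ≤ n := by exact_mod_cast hn
  have hn0 : (0 : ℝ) < n := by linarith
  have hexp : -(s / β0) - ε = -x := by rw [hx]; ring
  rw [hexp]
  have hNx : (N : ℝ) ^ (-x) ≤ 1 := Real.rpow_le_one_of_one_le_of_nonpos hNR (by linarith)
  have hnx : (n : ℝ) ^ (-x) ≤ 1 := Real.rpow_le_one_of_one_le_of_nonpos hnR (by linarith)
  have hK : 0 < c0 * 2 ^ (-s) / 2 := by positivity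
  rcases Nat.lt_or_ge n N with hlt | hge
  · refine le_trans ?_ ((key N le_rfl).trans (tl_anti hP hlt.le))
    have : 0 < c0 * 2 ^ (-s) / 2 * (N : ℝ) ^ (-x) := by positivity
    nlinarith
  · refine le_trans ?_ (key n hge)
    have : 0 < c0 * 2 ^ (-s) / 2 * (n : ℝ) ^ (-x) := by positivity
    nlinarith

end BrL

end HexObs
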