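import Pool.Agent.NUX.HandB
import Pool.Agent.NUX.Tail

/-! Bridges by the number of sites: the height of a bridge with n sites (helper37, TARGET-E). -/

set_option autoImplicit false

namespace HexObs

namespace BrL

open Finset TS SDN T2 Filter NUX

open scoped ENNReal

/-- words of bridges with n letters and less than x or more than y rows -/
def WO (n : ℕ) (x y : ℝ) : Set (List Bool) := {t | t.length = n ∧ ∃ j : ℕ, t ∈ Brd j ∧ 1 ≤ j ∧ ((j : ℝ) < x ∨ y < j)}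

lemma gf_bU (s : Finset ℕ) (P : ℕ → Set (List Bool)) : gf (⋃ i ∈ s, P i) ≤ ∑ i ∈ s, gf (P i) :=
  ENNReal.tsum_biUnion_le wE s P

lemma Brd_CT {j : ℕ} {t : List Bool} (h : t ∈ Brd j) : t ∈ CT j := Or.inl (CC.brd_out.1 h)

lemma exp_absorb {c : ℝ} (hc : 0 < c) : ∀ᶠ n : ℕ in atTop,
    (n : ℝ) * Real.exp (-(n : ℝ) ^ c) ≤ Real.exp (-(n : ℝ) ^ (c / 2)) / 2 := by
  have h1 : ∀ᶠ n : ℕ in atTop, Real.exp (-((n : ℝ) ^ (c / 2))) ≤ 1 / 4 * (n : ℝ) ^ (-1 : ℝ) :=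
    exp_small_rpow (by positivity) (1 / 4) (by norm_num)
  have h2 := ev_rpow (a := c / 2) (by positivity) 2
  filter_upwards [h1, h2, eventually_ge_atTop 1] with n h1 h2 hn
  have hn0 : (0 : ℝ) < n := by exact_mod_cast hn
  have e : (n : ℝ) ^ c = ((n : ℝ) ^ (c / 2)) ^ 2 := by
    rw [← Real.rpow_natCast, ← Real.rpow_mul hn0.le]; congr 1; push_cast; ring
  set z := (n : ℝ) ^ (c / 2) with hz
  have h3 : Real.exp (-(n : ℝ) ^ c) ≤ Real.exp (-z) * Real.exp (-z) := by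
    rw [← Real.exp_add, e]
    apply Real.exp_le_exp.2
    nlinarith
  rw [Real.rpow_neg_one] at h1
  have h4 : (n : ℝ) * Real.exp (-z) ≤ 1 / 4 := by
    calc (n : ℝ) * Real.exp (-z) ≤ n * (1 / 4 * (n : ℝ)⁻¹) := mul_le_mul_of_nonneg_left h1 hn0.le
      _ = 1 / 4 := by field_simp
  have h5 := Real.exp_pos (-z)
  calc (n : ℝ) * Real.exp (-(n : ℝ) ^ c) ≤ n * (Real.exp (-z) * Real.exp (-z)) :=
        mul_le_mul_of_nonneg_left h3 hn0.le
    _ = (n * Real.exp (-z)) * Real.exp (-z) := by ring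
    _ ≤ 1 / 4 * Real.exp (-z) := mul_le_mul_of_nonneg_right h4 h5.le
    _ ≤ _ := by linarith

/-- the height of a bridge with n sites is n ^ (3 / 4 + o (1)) -/
theorem heights (hM : ∀ a' : ℝ, 4 / 3 < a' → ∃ C : ℝ, 0 ≤ C ∧ MeanLen a' C)
    (hL : LongWalks (1 / 3)) {ε : ℝ} (hε : 0 < ε) : ∃ (c : ℝ) (N0 : ℕ), 0 < c ∧ ∀ n : ℕ, N0 ≤ n →
      gf (WO n ((n : ℝ) ^ (3 / 4 - ε)) ((n : ℝ) ^ (3 / 4 + ε))) ≤ ENNReal.ofReal (Real.exp (-(n : ℝ) ^ c)) := by
  -- low bridges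
  have hlow : ∃ (c : ℝ) (N0 : ℕ), 0 < c ∧ ∀ n : ℕ, N0 ≤ n →
      gf {t | t.length = n ∧ ∃ j : ℕ, t ∈ Brd j ∧ 1 ≤ j ∧ (j : ℝ) < (n : ℝ) ^ (3 / 4 - ε)} ≤
        ENNReal.ofReal (Real.exp (-(n : ℝ) ^ c) / 2) := by
    rcases lt_or_ge ε (3 / 4) with h34 | h34
    · set x := 3 / 4 - ε with hx
      have hx0 : 0 < x := by rw [hx]; linarith
      have hβ : 4 / 3 < 1 / x := by
        rw [lt_div_iff₀ hx0, hx]; linarith
      obtain ⟨c, N0, hc, hN0⟩ := long_rare (a0 := 4 / 3) (by norm_num) hM hβ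
      obtain ⟨N1, hN1⟩ := (exp_absorb hc).exists_forall_of_atTop
      refine ⟨c / 2, max N0 (max N1 1), by positivity, fun n hn => ?_⟩
      have hnN0 : N0 ≤ n := (le_max_left _ _).trans hn
      have hnN1 : N1 ≤ n := ((le_max_left _ _).trans (le_max_right _ _)).trans hn
      have hn1 : 1 ≤ n := ((le_max_right _ _).trans (le_max_right _ _)).trans hn
      have hnR : (1 : ℝ) ≤ n := by exact_mod_cast hn1
      have hn0 : (0 : ℝ) < n := by linarith
      have hterm : ∀ j ∈ range n, gf {t | t.length = n ∧ t ∈ Brd (j + 1) ∧ ((j + 1 : ℕ) : ℝ) < (n : ℝ) ^ x} ≤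
          ENNReal.ofReal (Real.exp (-(n : ℝ) ^ c)) := by
        intro j _
        by_cases hj : ((j + 1 : ℕ) : ℝ) < (n : ℝ) ^ x
        · have h1 : ((j + 1 : ℕ) : ℝ) ^ (1 / x) ≤ n := by
            have := Real.rpow_le_rpow (by positivity) hj.le (show 0 ≤ 1 / x by positivity)
            rwa [← Real.rpow_mul hn0.le, mul_one_div_cancel hx0.ne', Real.rpow_one] at this
          refine le_trans (gf_mono ?_) (hN0 n (j + 1) hnN0 (by omega) h1)
          rintro t ⟨h2, h3, _⟩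
          exact ⟨Brd_CT h3, h2.ge⟩
        · have : {t | t.length = n ∧ t ∈ Brd (j + 1) ∧ ((j + 1 : ℕ) : ℝ) < (n : ℝ) ^ x} = (∅ : Set (List Bool)) := by
            ext t
            simp only [Set.mem_ofPred_eq, Set.mem_empty_iff_false, iff_false]
            rintro ⟨_, _, h⟩
            exact hj h
          rw [this]
          have e : gf (∅ : Set (List Bool)) = 0 := by unfold gf; exact tsum_empty
          rw [e]
          exact zero_le
      have hsub : {t | t.length = n ∧ ∃ j : ℕ, t ∈ Brd j ∧ 1 ≤ j ∧ (j : ℝ) < (n : ℝ) ^ x} ⊆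
          ⋃ j ∈ range n, {t | t.length = n ∧ t ∈ Brd (j + 1) ∧ ((j + 1 : ℕ) : ℝ) < (n : ℝ) ^ x} := by
        rintro t ⟨h1, j, h2, h3, h4⟩
        simp only [Set.mem_iUnion]
        have hjn : j ≤ n := by
          have h5 : (n : ℝ) ^ x ≤ n := by
            calc (n : ℝ) ^ x ≤ (n : ℝ) ^ (1 : ℝ) := Real.rpow_le_rpow_of_exponent_le hnR (by rw [hx]; linarith)
              _ = n := Real.rpow_one _
          have h6 : (j : ℝ) < n := lt_of_lt_of_le h4 h5
          exact_mod_cast h6.le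
        refine ⟨j - 1, mem_range.2 (by omega), ?_⟩
        have e : j - 1 + 1 = j := by omega
        rw [e]
        exact ⟨h1, h2, h4⟩
      have h1 := (gf_mono hsub).trans ((gf_bU _ _).trans (sum_le_sum hterm))
      refine h1.trans ?_
      rw [sum_const, card_range, nsmul_eq_mul, ← ENNReal.ofReal_natCast, ← ENNReal.ofReal_mul (by positivity)]
      exact ENNReal.ofReal_le_ofReal (hN1 n hnN1)
    · refine ⟨1, 1, one_pos, fun n hn => ?_⟩
      have hnR : (1 : ℝ) ≤ n := by exact_mod_cast hn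
      have : {t | t.length = n ∧ ∃ j : ℕ, t ∈ Brd j ∧ 1 ≤ j ∧ (j : ℝ) < (n : ℝ) ^ (3 / 4 - ε)} = (∅ : Set (List Bool)) := by
        ext t
        simp only [Set.mem_ofPred_eq, Set.mem_empty_iff_false, iff_false]
        rintro ⟨_, j, _, h1, h2⟩
        have h3 : (n : ℝ) ^ (3 / 4 - ε) ≤ 1 := Real.rpow_le_one_of_one_le_of_nonpos hnR (by linarith)
        have h4 : (1 : ℝ) ≤ j := by exact_mod_cast h1
        linarith
      rw [this]
      have e : gf (∅ : Set (List Bool)) = 0 := by unfold gf; exact tsum_empty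
      rw [e]
      exact zero_le
  -- high bridges
  have hhigh : ∃ (c : ℝ) (N0 : ℕ), 0 < c ∧ ∀ n : ℕ, N0 ≤ n →
      gf {t | t.length = n ∧ ∃ j : ℕ, t ∈ Brd j ∧ 1 ≤ j ∧ (n : ℝ) ^ (3 / 4 + ε) < j} ≤
        ENNReal.ofReal (Real.exp (-(n : ℝ) ^ c) / 2) := by
    set x := 3 / 4 + ε with hx
    have hx0 : 0 < x := by rw [hx]; linarith
    have hβ : 1 / x < 1 + 1 / 3 := by
      rw [div_lt_iff₀ hx0, hx]; linarith
    obtain ⟨c, N0, hc, hN0⟩ := short_rare (β0 := 1 + 1 / 3) (fun β h0 hβ =>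
      exp_up (τ1 := 1 / 3) (by norm_num) (fun _ _ hτ hττ hε hε1 => pow_up (by norm_num) hL hτ hττ hε hε1) hβ)
      (by positivity : 0 < 1 / x) hβ
    obtain ⟨N1, hN1⟩ := (exp_absorb hc).exists_forall_of_atTop
    refine ⟨c / 2, max N0 (max N1 1), by positivity, fun n hn => ?_⟩
    have hnN0 : N0 ≤ n := (le_max_left _ _).trans hn
    have hnN1 : N1 ≤ n := ((le_max_left _ _).trans (le_max_right _ _)).trans hn
    have hn1 : 1 ≤ n := ((le_max_right _ _).trans (le_max_right _ _)).trans hn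
    have hnR : (1 : ℝ) ≤ n := by exact_mod_cast hn1
    have hn0 : (0 : ℝ) < n := by linarith
    set T := ⌈(n : ℝ) ^ x⌉₊ with hT
    have hTx : (n : ℝ) ^ x ≤ T := Nat.le_ceil _
    have hTn : (n : ℝ) ≤ (T : ℝ) ^ (1 / x) := by
      have := Real.rpow_le_rpow (by positivity) hTx (show 0 ≤ 1 / x by positivity)
      rwa [← Real.rpow_mul hn0.le, mul_one_div_cancel hx0.ne', Real.rpow_one] at this
    refine le_trans (gf_mono ?_) ((hN0 n T hnN0 hTn).trans (ENNReal.ofReal_le_ofReal ?_))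
    · rintro t ⟨h1, j, h2, h3, h4⟩
      refine ⟨Brd_SA h2, ⟨t.length, le_rfl, false, ?_⟩, h1.le⟩
      rw [row_Brd h2, abs_of_nonneg (by positivity)]
      have h5 : T ≤ j := by
        rw [hT]
        exact Nat.ceil_le.2 h4.le
      exact_mod_cast h5
    · have h5 := hN1 n hnN1
      have h6 := Real.exp_pos (-(n : ℝ) ^ c)
      nlinarith
  obtain ⟨c, N0, hc, hlow⟩ := hlow
  obtain ⟨c', N1, hc', hhigh⟩ := hhigh
  refine ⟨min c c', max N0 (max N1 1), lt_min hc hc', fun n hn => ?_⟩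
  have hnN0 : N0 ≤ n := (le_max_left _ _).trans hn
  have hnN1 : N1 ≤ n := ((le_max_left _ _).trans (le_max_right _ _)).trans hn
  have hn1 : 1 ≤ n := ((le_max_right _ _).trans (le_max_right _ _)).trans hn
  have hnR : (1 : ℝ) ≤ n := by exact_mod_cast hn1
  have hsub : WO n ((n : ℝ) ^ (3 / 4 - ε)) ((n : ℝ) ^ (3 / 4 + ε)) ⊆
      {t | t.length = n ∧ ∃ j : ℕ, t ∈ Brd j ∧ 1 ≤ j ∧ (j : ℝ) < (n : ℝ) ^ (3 / 4 - ε)} ∪
      {t | t.length = n ∧ ∃ j : ℕ, t ∈ Brd j ∧ 1 ≤ j ∧ (n : ℝ) ^ (3 / 4 + ε) < j} := by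
    rintro t ⟨h1, j, h2, h3, h4⟩
    rcases h4 with h4 | h4
    · exact Or.inl ⟨h1, j, h2, h3, h4⟩
    · exact Or.inr ⟨h1, j, h2, h3, h4⟩
  refine (gf_mono hsub).trans ((gf_union_le _ _).trans ((add_le_add (hlow n hnN0) (hhigh n hnN1)).trans ?_))
  rw [← ENNReal.ofReal_add (by positivity) (by positivity)]
  apply ENNReal.ofReal_le_ofReal
  have h1 : (n : ℝ) ^ min c c' ≤ (n : ℝ) ^ c := Real.rpow_le_rpow_of_exponent_le hnR (min_le_left _ _)
  have h2 : (n : ℝ) ^ min c c' ≤ (n : ℝ) ^ c' := Real.rpow_le_rpow_of_exponent_le hnR (min_le_right _ _)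
  have h3 : Real.exp (-(n : ℝ) ^ c) ≤ Real.exp (-(n : ℝ) ^ min c c') := Real.exp_le_exp.2 (by linarith)
  have h4 : Real.exp (-(n : ℝ) ^ c') ≤ Real.exp (-(n : ℝ) ^ min c c') := Real.exp_le_exp.2 (by linarith)
  linarith

end BrL

end HexObs
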