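import Pool.Agent.NUX.Pol1
import Pool.Agent.NUX.HandB2

/-! Arcs and polygons by the number of sites: heights, lists (helper37, TARGET-E). -/

set_option autoImplicit false

namespace HexObs

namespace BrL

open Finset TS SDN T2 Filter NUX TP

open scoped ENNReal

/-- words of arcs with n or n + 1 letters, and with an atypical height -/
def AO (n : ℕ) (x y : ℝ) : Set (List Bool) := {t | t ∈ ARC ∧ n ≤ t.length ∧ t.length ≤ n + 1 ∧
  ∃ j : ℕ, 1 ≤ j ∧ ((t ∈ AR j ∧ (j : ℝ) < x) ∨ (t ∉ AR (j - 1) ∧ y < j))}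

theorem arc_heights (hM : ∀ a' : ℝ, 4 / 3 < a' → ∃ C : ℝ, 0 ≤ C ∧ MeanLen a' C)
    (hL : LongWalks (1 / 3)) {ε : ℝ} (hε : 0 < ε) : ∃ (c : ℝ) (N0 : ℕ), 0 < c ∧ ∀ n : ℕ, N0 ≤ n →
      gf (AO n ((n : ℝ) ^ (3 / 4 - ε)) ((n : ℝ) ^ (3 / 4 + ε))) ≤ ENNReal.ofReal (Real.exp (-(n : ℝ) ^ c)) := by
  -- low arcs
  have hlow : ∃ (c : ℝ) (N0 : ℕ), 0 < c ∧ ∀ n : ℕ, N0 ≤ n →
      gf {t | n ≤ t.length ∧ ∃ j : ℕ, 1 ≤ j ∧ t ∈ AR j ∧ (j : ℝ) < (n : ℝ) ^ (3 / 4 - ε)} ≤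
        ENNReal.ofReal (Real.exp (-(n : ℝ) ^ c) / 2) := by
    rcases lt_or_ge ε (3 / 4) with h34 | h34
    · set x := 3 / 4 - ε with hx
      have hx0 : 0 < x := by rw [hx]; linarith
      have hβ : 4 / 3 < 1 / x := by
        rw [lt_div_iff₀ hx0, hx]; linarith
      obtain ⟨c, N0, hc, hN0⟩ := long_rare (a0 := 4 / 3) (by norm_num) hM hβ
      obtain ⟨N1, hN1⟩ := (exp_absorb hc).exists_forall_of_atTop
      refine ⟨c / 2, max N0 (max N1 1), by positivity, fun n hn => ?_⟩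
      have hnN0 : N0 ≤ n := (le_max_left _ _).trans hn
      have hnN1 : N1 ≤ n := ((le_max_left _ _).trans (le_max_right _ _)).trans hn
      have hn1 : 1 ≤ n := ((le_max_right _ _).trans (le_max_right _ _)).trans hn
      have hnR : (1 : ℝ) ≤ n := by exact_mod_cast hn1
      have hn0 : (0 : ℝ) < n := by linarith
      set J := ⌊(n : ℝ) ^ x⌋₊ with hJ
      have hJx : (J : ℝ) ≤ (n : ℝ) ^ x := Nat.floor_le (by positivity)
      have hJ1 : 1 ≤ J := Nat.le_floor (by simpa using Real.one_le_rpow hnR hx0.le)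
      have h1 : (J : ℝ) ^ (1 / x) ≤ n := by
        have := Real.rpow_le_rpow (by positivity) hJx (show 0 ≤ 1 / x by positivity)
        rwa [← Real.rpow_mul hn0.le, mul_one_div_cancel hx0.ne', Real.rpow_one] at this
      refine le_trans (gf_mono ?_) ((hN0 n J hnN0 hJ1 h1).trans (ENNReal.ofReal_le_ofReal ?_))
      · rintro t ⟨h2, j, h3, h4, h5⟩
        have h6 : j ≤ J := Nat.le_floor h5.le
        exact ⟨Or.inr (AR_mono h6 h4), h2⟩
      · have h5 := hN1 n hnN1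
        have h6 := Real.exp_pos (-(n : ℝ) ^ c)
        nlinarith
    · refine ⟨1, 1, one_pos, fun n hn => ?_⟩
      have hnR : (1 : ℝ) ≤ n := by exact_mod_cast hn
      have : {t | n ≤ t.length ∧ ∃ j : ℕ, 1 ≤ j ∧ t ∈ AR j ∧ (j : ℝ) < (n : ℝ) ^ (3 / 4 - ε)} =
          (∅ : Set (List Bool)) := by
        ext t
        simp only [Set.mem_ofPred_eq, Set.mem_empty_iff_false, iff_false]
        rintro ⟨_, j, h1, _, h2⟩
        have h3 : (n : ℝ) ^ (3 / 4 - ε) ≤ 1 := Real.rpow_le_one_of_one_le_of_nonpos hnR (by linarith)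
        have h4 : (1 : ℝ) ≤ j := by exact_mod_cast h1
        linarith
      rw [this]
      have e : gf (∅ : Set (List Bool)) = 0 := by unfold gf; exact tsum_empty
      rw [e]
      exact zero_le
  -- high arcs
  have hhigh : ∃ (c : ℝ) (N0 : ℕ), 0 < c ∧ ∀ n : ℕ, N0 ≤ n →
      gf {t | t ∈ ARC ∧ t.length ≤ n + 1 ∧ ∃ j : ℕ, 1 ≤ j ∧ t ∉ AR (j - 1) ∧ (n : ℝ) ^ (3 / 4 + ε) < j} ≤
        ENNReal.ofReal (Real.exp (-(n : ℝ) ^ c) / 2) := by
    set x := 3 / 4 + ε / 2 with hx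
    have hx0 : 0 < x := by rw [hx]; linarith
    have hβ : 1 / x < 1 + 1 / 3 := by
      rw [div_lt_iff₀ hx0, hx]; linarith
    obtain ⟨c, N0, hc, hN0⟩ := short_rare (β0 := 1 + 1 / 3) (fun β h0 hβ =>
      exp_up (τ1 := 1 / 3) (by norm_num) (fun _ _ hτ hττ hε hε1 => pow_up (by norm_num) hL hτ hττ hε hε1) hβ)
      (by positivity : 0 < 1 / x) hβ
    obtain ⟨N1, hN1⟩ := (exp_absorb hc).exists_forall_of_atTop
    obtain ⟨N2, hN2⟩ := (ev_rpow (a := ε / 2) (by positivity) (2 ^ x + 2)).exists_forall_of_atTop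
    refine ⟨c / 2, max N0 (max N1 (max N2 1)), by positivity, fun n hn => ?_⟩
    have hnN0 : N0 ≤ n := (le_max_left _ _).trans hn
    have hnN1 : N1 ≤ n := ((le_max_left _ _).trans (le_max_right _ _)).trans hn
    have hnN2 : N2 ≤ n := ((le_max_left _ _).trans ((le_max_right _ _).trans (le_max_right _ _))).trans hn
    have hn1 : 1 ≤ n := ((le_max_right _ _).trans ((le_max_right _ _).trans (le_max_right _ _))).trans hn
    have hnR : (1 : ℝ) ≤ n := by exact_mod_cast hn1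
    have hn0 : (0 : ℝ) < n := by linarith
    have hn2 := hN2 n hnN2
    set T := ⌈((n + 1 : ℕ) : ℝ) ^ x⌉₊ with hT
    have hTx : ((n + 1 : ℕ) : ℝ) ^ x ≤ T := Nat.le_ceil _
    have hTn : ((n + 1 : ℕ) : ℝ) ≤ (T : ℝ) ^ (1 / x) := by
      have := Real.rpow_le_rpow (by positivity) hTx (show 0 ≤ 1 / x by positivity)
      rwa [← Real.rpow_mul (by positivity), mul_one_div_cancel hx0.ne', Real.rpow_one] at this
    have hTs : (T : ℝ) + 1 ≤ (n : ℝ) ^ (3 / 4 + ε) := by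
      have h1 : (T : ℝ) < ((n + 1 : ℕ) : ℝ) ^ x + 1 := Nat.ceil_lt_add_one (by positivity)
      have h2 : ((n + 1 : ℕ) : ℝ) ^ x ≤ 2 ^ x * (n : ℝ) ^ x := by
        rw [← Real.mul_rpow (by norm_num) hn0.le]
        apply Real.rpow_le_rpow (by positivity) _ hx0.le
        push_cast; linarith
      have h3 : (n : ℝ) ^ (3 / 4 + ε) = (n : ℝ) ^ x * (n : ℝ) ^ (ε / 2) := by
        rw [← Real.rpow_add hn0]; congr 1; rw [hx]; ring
      have h4 : 1 ≤ (n : ℝ) ^ x := Real.one_le_rpow hnR hx0.le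
      rw [h3]
      nlinarith
    refine le_trans (gf_mono ?_) ((hN0 (n + 1) T (by omega) hTn).trans (ENNReal.ofReal_le_ofReal ?_))
    · rintro t ⟨h1, h2, j, h3, h4, h5⟩
      obtain ⟨h6, i, hi, dir, h7⟩ := ARC_high h1 h4
      refine ⟨h6, ⟨i, hi, dir, le_trans ?_ h7⟩, h2⟩
      have h8 : (T : ℝ) + 1 < j := lt_of_le_of_lt hTs h5
      have h9 : T + 1 < j := by exact_mod_cast h8
      exact_mod_cast (by omega : T ≤ j - 1)
    · have h5 := hN1 n hnN1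
      have h6 : Real.exp (-((n + 1 : ℕ) : ℝ) ^ c) ≤ Real.exp (-(n : ℝ) ^ c) := by
        apply Real.exp_le_exp.2
        have : (n : ℝ) ^ c ≤ ((n + 1 : ℕ) : ℝ) ^ c := Real.rpow_le_rpow hn0.le (by push_cast; linarith) hc.le
        linarith
      have h7 := Real.exp_pos (-(n : ℝ) ^ c)
      nlinarith
  obtain ⟨c, N0, hc, hlow⟩ := hlow
  obtain ⟨c', N1, hc', hhigh⟩ := hhigh
  refine ⟨min c c', max N0 (max N1 1), lt_min hc hc', fun n hn => ?_⟩
  have hnN0 : N0 ≤ n := (le_max_left _ _).trans hn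
  have hnN1 : N1 ≤ n := ((le_max_left _ _).trans (le_max_right _ _)).trans hn
  have hn1 : 1 ≤ n := ((le_max_right _ _).trans (le_max_right _ _)).trans hn
  have hnR : (1 : ℝ) ≤ n := by exact_mod_cast hn1
  have hsub : AO n ((n : ℝ) ^ (3 / 4 - ε)) ((n : ℝ) ^ (3 / 4 + ε)) ⊆
      {t | n ≤ t.length ∧ ∃ j : ℕ, 1 ≤ j ∧ t ∈ AR j ∧ (j : ℝ) < (n : ℝ) ^ (3 / 4 - ε)} ∪
      {t | t ∈ ARC ∧ t.length ≤ n + 1 ∧ ∃ j : ℕ, 1 ≤ j ∧ t ∉ AR (j - 1) ∧ (n : ℝ) ^ (3 / 4 + ε) < j} := by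
    rintro t ⟨h0, h1, h2, j, h3, h4⟩
    rcases h4 with h4 | h4
    · exact Or.inl ⟨h1, j, h3, h4⟩
    · exact Or.inr ⟨h0, h2, j, h3, h4⟩
  refine (gf_mono hsub).trans ((gf_union_le _ _).trans ((add_le_add (hlow n hnN0) (hhigh n hnN1)).trans ?_))
  rw [← ENNReal.ofReal_add (by positivity) (by positivity)]
  apply ENNReal.ofReal_le_ofReal
  have h1 : (n : ℝ) ^ min c c' ≤ (n : ℝ) ^ c := Real.rpow_le_rpow_of_exponent_le hnR (min_le_left _ _)
  have h2 : (n : ℝ) ^ min c c' ≤ (n : ℝ) ^ c' := Real.rpow_le_rpow_of_exponent_le hnR (min_le_right _ _)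
  have h3 : Real.exp (-(n : ℝ) ^ c) ≤ Real.exp (-(n : ℝ) ^ min c c') := Real.exp_le_exp.2 (by linarith)
  have h4 : Real.exp (-(n : ℝ) ^ c') ≤ Real.exp (-(n : ℝ) ^ min c c') := Real.exp_le_exp.2 (by linarith)
  linarith

/-- the height of a list of sites -/
def Top (j : ℕ) (L : List (ℤ × ℤ)) : Prop := (∀ p ∈ L, p.2 ≤ j) ∧ ∃ p ∈ L, p.2 = (j : ℤ)

/-- arcs to the right as lists of sites -/
def LArc (L : List (ℤ × ℤ)) : Prop := ∃ d : ℕ, 1 ≤ d ∧ ArcL (2 * d) L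

/-- weight of the arcs with at least n sites -/
noncomputable def aW' (n : ℕ) : ℝ≥0∞ := ∑' L : {L // LArc L ∧ n ≤ L.length}, CC.wt L.1

/-- weight of the arcs with n sites and an atypical height -/
noncomputable def aO (n : ℕ) (x y : ℝ) : ℝ≥0∞ :=
  ∑' L : {L // LArc L ∧ L.length = n ∧ ∃ j : ℕ, Top j L ∧ ((j : ℝ) < x ∨ y < j)}, CC.wt L.1

lemma aW_tl (n : ℕ) : aW' n = ENNReal.ofReal (tl AP n) := by
  have h := dict fun L => n ≤ L.length
  have e : {t | t ∈ AP ∧ n ≤ (CC.toL oo t).length} = {t | t ∈ AP ∧ n ≤ t.length} := by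
    ext t
    simp only [Set.mem_ofPred_eq, CC.toL_length]
  rw [e] at h
  unfold aW' tl
  rw [ENNReal.ofReal_toReal (ne_top_of_le_ne_top gf_AP_ne (gf_mono fun _ h => h.1))]
  exact h

lemma top_low {t : List Bool} (ht : t ∈ AP) {j : ℕ} (h : ∀ p ∈ CC.toL oo t, p.2 ≤ (j : ℤ)) : t ∈ AR j := by
  obtain ⟨d, _, h1⟩ := ht
  exact (AR_iff h1).2 h

lemma top_high {t : List Bool} (ht : t ∈ AP) {j : ℕ} (hj : 1 ≤ j) (h : ∃ p ∈ CC.toL oo t, p.2 = (j : ℤ)) :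
    t ∉ AR (j - 1) := by
  obtain ⟨d, _, h1⟩ := ht
  intro hc
  obtain ⟨p, hp, h2⟩ := h
  have := (AR_iff h1).1 hc p hp
  omega

lemma aO_le (n : ℕ) (x y : ℝ) : aO n x y ≤ gf (AO n x y) := by
  have h := dict fun L => L.length = n ∧ ∃ j : ℕ, Top j L ∧ ((j : ℝ) < x ∨ y < j)
  unfold aO
  refine le_trans (le_of_eq h) (gf_mono ?_)
  rintro t ⟨h1, h2, j, ⟨h3, h4⟩, h5⟩
  rw [CC.toL_length] at h2
  have hj : 1 ≤ j := by
    obtain ⟨p, hp, h6⟩ := h4
    obtain ⟨d, _, h7⟩ := h1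
    have := (arc_toL h7).2.2.1 p hp
    omega
  refine ⟨AP_ARC h1, by omega, by omega, j, hj, ?_⟩
  rcases h5 with h5 | h5
  · exact Or.inl ⟨top_low h1 h3, h5⟩
  · exact Or.inr ⟨top_high h1 hj h4, h5⟩

/-- weight of the polygons with at least n sites -/
noncomputable def pW (n : ℕ) : ℝ≥0∞ := ∑' L : {L // HexPolygon.Polygon L ∧ n ≤ L.length}, CC.wt L.1

/-- weight of the polygons with n sites and an atypical height -/
noncomputable def pO (n : ℕ) (x y : ℝ) : ℝ≥0∞ :=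
  ∑' L : {L // HexPolygon.Polygon L ∧ L.length = n ∧ ∃ j : ℕ, Top j L ∧ ((j : ℝ) < x ∨ y < j)}, CC.wt L.1

lemma pW_tl (n : ℕ) : pW n = ENNReal.ofReal (xc⁻¹ * tl PW (n + 1)) := by
  have hx := xc_pos
  have h := dictP fun L => n ≤ L.length
  have e : {t | t ∈ AP ∧ ∃ L, (HexPolygon.Polygon L ∧ n ≤ L.length) ∧ CC.toL oo t = L ++ [(2, 1)]} =
      {t | t ∈ PW ∧ n + 1 ≤ t.length} := by
    ext t
    constructor
    · rintro ⟨h1, L, ⟨h2, h3⟩, h4⟩
      refine ⟨⟨h1, L, h2, h4⟩, ?_⟩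
      have := congrArg List.length h4
      rw [CC.toL_length, List.length_append, List.length_singleton] at this
      omega
    · rintro ⟨⟨h1, L, h2, h4⟩, h3⟩
      refine ⟨h1, L, ⟨h2, ?_⟩, h4⟩
      have := congrArg List.length h4
      rw [CC.toL_length, List.length_append, List.length_singleton] at this
      omega
  rw [e] at h
  have h5 : gf {t | t ∈ PW ∧ n + 1 ≤ t.length} = ENNReal.ofReal (tl PW (n + 1)) := by
    unfold tl
    rw [ENNReal.ofReal_toReal (ne_top_of_le_ne_top gf_PW_ne (gf_mono fun _ h => h.1))]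
  rw [h5] at h
  have h6 : ENNReal.ofReal xc⁻¹ * (ENNReal.ofReal xc * pW n) = pW n := by
    rw [← mul_assoc, ← ENNReal.ofReal_mul (by positivity), inv_mul_cancel₀ hx.ne', ENNReal.ofReal_one, one_mul]
  rw [← h6]
  unfold pW
  rw [h, ENNReal.ofReal_mul (by positivity)]

lemma pO_le (n : ℕ) (x y : ℝ) : pO n x y ≤ ENNReal.ofReal xc⁻¹ * gf (AO n x y) := by
  have hx := xc_pos
  have h := dictP fun L => L.length = n ∧ ∃ j : ℕ, Top j L ∧ ((j : ℝ) < x ∨ y < j)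
  have h6 : ENNReal.ofReal xc⁻¹ * (ENNReal.ofReal xc * pO n x y) = pO n x y := by
    rw [← mul_assoc, ← ENNReal.ofReal_mul (by positivity), inv_mul_cancel₀ hx.ne', ENNReal.ofReal_one, one_mul]
  rw [← h6]
  unfold pO
  rw [h]
  refine mul_le_mul' le_rfl (gf_mono ?_)
  rintro t ⟨h1, L, ⟨h2, h3, j, ⟨h4, h4'⟩, h5⟩, h7⟩
  have h8 := congrArg List.length h7
  rw [CC.toL_length, List.length_append, List.length_singleton] at h8
  have hj : 1 ≤ j := by
    obtain ⟨p, hp, h9⟩ := h4'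
    have := h2.2.2.2.2.2.1 p hp
    omega
  refine ⟨AP_ARC h1, by omega, by omega, j, hj, ?_⟩
  rcases h5 with h5 | h5
  · refine Or.inl ⟨top_low h1 ?_, h5⟩
    intro p hp
    rw [h7] at hp
    rcases List.mem_append.1 hp with h9 | h9
    · exact h4 p h9
    · rw [List.mem_singleton] at h9
      rw [h9]
      show (1 : ℤ) ≤ j
      exact_mod_cast hj
  · refine Or.inr ⟨top_high h1 hj ?_, h5⟩
    obtain ⟨p, hp, h9⟩ := h4'
    exact ⟨p, by rw [h7]; exact List.mem_append_left _ hp, h9⟩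

end BrL

end HexObs
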