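import Pool.Agent.NUX.HandA

/-! Arcs and polygons by the number of sites: the statements (helper37, TARGET-E). -/

set_option autoImplicit false

namespace HexObs

namespace BrL

open Finset TS SDN T2 Filter NUX TP

open scoped ENNReal

/-- from a stretched exponential for large n to all n -/
lemma all_n {g : ℕ → ℝ≥0∞} {M c : ℝ} {N0 : ℕ} (hM : 0 ≤ M) (hc : 0 < c) (hg : ∀ n, g n ≤ ENNReal.ofReal M)
    {K : ℝ} (hK : 0 ≤ K) (h : ∀ n : ℕ, N0 ≤ n → g n ≤ ENNReal.ofReal (K * Real.exp (-(n : ℝ) ^ c))) :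
    ∀ C : ℝ, M * Real.exp N0 + K + 1 / c + 1 ≤ C → ∀ n : ℕ, 1 ≤ n →
      g n ≤ ENNReal.ofReal (C * Real.exp (-(n : ℝ) ^ C⁻¹)) := by
  intro C hC n hn
  have hnR : (1 : ℝ) ≤ n := by exact_mod_cast hn
  have p1 : 0 ≤ M * Real.exp N0 := by positivity
  have p2 : 0 < 1 / c := by positivity
  have hC0 : 0 < C := by linarith
  have hC1 : 1 ≤ C := by linarith
  rcases Nat.lt_or_ge n N0 with hlt | hge
  · refine (hg n).trans (ENNReal.ofReal_le_ofReal ?_)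
    have h9 : (n : ℝ) ^ C⁻¹ ≤ N0 := by
      calc (n : ℝ) ^ C⁻¹ ≤ (n : ℝ) ^ (1 : ℝ) :=
            Real.rpow_le_rpow_of_exponent_le hnR (inv_le_one_of_one_le₀ hC1)
        _ = n := Real.rpow_one _
        _ ≤ N0 := by exact_mod_cast hlt.le
    calc M = M * Real.exp N0 * Real.exp (-N0) := by rw [mul_assoc, ← Real.exp_add]; simp
      _ ≤ C * Real.exp (-(n : ℝ) ^ C⁻¹) :=
          mul_le_mul (by linarith) (Real.exp_le_exp.2 (by linarith)) (Real.exp_pos _).le hC0.le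
  · refine (h n hge).trans (ENNReal.ofReal_le_ofReal ?_)
    have h11 : C⁻¹ ≤ c := by
      have : C⁻¹ ≤ (1 / c)⁻¹ := inv_anti₀ p2 (by linarith)
      rwa [inv_div, div_one] at this
    have h12 : (n : ℝ) ^ C⁻¹ ≤ (n : ℝ) ^ c := Real.rpow_le_rpow_of_exponent_le hnR h11
    exact mul_le_mul (by linarith) (Real.exp_le_exp.2 (by linarith)) (Real.exp_pos _).le hC0.le

/-- **arcs by the number of sites** -/
theorem main_arc (hM : ∀ a' : ℝ, 4 / 3 < a' → ∃ C : ℝ, 0 ≤ C ∧ MeanLen a' C) (hL : LongWalks (1 / 3))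
    {ε : ℝ} (hε : 0 < ε) : ∃ C : ℝ, 0 < C ∧ ∀ n : ℕ, 1 ≤ n →
      ENNReal.ofReal (C⁻¹ * (n : ℝ) ^ (-(3 / 16) - ε)) ≤ aW' n ∧
      aW' n ≤ ENNReal.ofReal (C * (n : ℝ) ^ (-(3 / 16) + ε)) ∧
      aO n ((n : ℝ) ^ (3 / 4 - ε)) ((n : ℝ) ^ (3 / 4 + ε)) ≤ ENNReal.ofReal (C * Real.exp (-(n : ℝ) ^ C⁻¹)) := by
  obtain ⟨hi, lo⟩ := arcs_right hM hL
  obtain ⟨C1, hC1, h1⟩ := hi ε hε
  obtain ⟨c2, hc2, h2⟩ := lo ε hε
  obtain ⟨c3, N3, hc3, h3⟩ := arc_heights hM hL hε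
  have hg : ∀ n, aO n ((n : ℝ) ^ (3 / 4 - ε)) ((n : ℝ) ^ (3 / 4 + ε)) ≤ ENNReal.ofReal (gf ARC).toReal := by
    intro n
    rw [ENNReal.ofReal_toReal gf_ARC_ne]
    exact (aO_le _ _ _).trans (gf_mono fun _ h => h.1)
  have key := all_n (M := (gf ARC).toReal) ENNReal.toReal_nonneg hc3 hg (K := 1) (N0 := N3) zero_le_one
    (fun n hn => by rw [one_mul]; exact (aO_le _ _ _).trans (h3 n hn))
  set D := (gf ARC).toReal * Real.exp N3 + 1 + 1 / c3 + 1 with hD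
  have hD0 : 0 ≤ (gf ARC).toReal * Real.exp N3 := mul_nonneg ENNReal.toReal_nonneg (Real.exp_pos _).le
  have p3 : 0 < 1 / c3 := by positivity
  have p2 : 0 < 1 / c2 := by positivity
  refine ⟨C1 + 1 / c2 + D, by linarith, fun n hn => ⟨?_, ?_, key _ (by linarith) n hn⟩⟩
  · rw [aW_tl]
    apply ENNReal.ofReal_le_ofReal
    refine le_trans (mul_le_mul_of_nonneg_right ?_ (by positivity)) (h2 n hn)
    have : (C1 + 1 / c2 + D)⁻¹ ≤ (1 / c2)⁻¹ := inv_anti₀ p2 (by linarith)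
    rwa [inv_div, div_one] at this
  · rw [aW_tl]
    apply ENNReal.ofReal_le_ofReal
    exact (h1 n hn).trans (mul_le_mul_of_nonneg_right (by linarith) (by positivity))

/-- **polygons by the number of sites** -/
theorem main_pol (hM : ∀ a' : ℝ, 4 / 3 < a' → ∃ C : ℝ, 0 ≤ C ∧ MeanLen a' C) (hL : LongWalks (1 / 3))
    {ε : ℝ} (hε : 0 < ε) : ∃ C : ℝ, 0 < C ∧ ∀ n : ℕ, 1 ≤ n →
      ENNReal.ofReal (C⁻¹ * (n : ℝ) ^ (-(3 / 2) - ε)) ≤ pW n ∧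
      pW n ≤ ENNReal.ofReal (C * (n : ℝ) ^ (-(3 / 2) + ε)) ∧
      pO n ((n : ℝ) ^ (3 / 4 - ε)) ((n : ℝ) ^ (3 / 4 + ε)) ≤ ENNReal.ofReal (C * Real.exp (-(n : ℝ) ^ C⁻¹)) := by
  have hx := xc_pos
  obtain ⟨hi, lo⟩ := polygons_letters hM hL
  obtain ⟨C1, hC1, h1⟩ := hi ε hε
  obtain ⟨c2, hc2, h2⟩ := lo ε hε
  obtain ⟨c3, N3, hc3, h3⟩ := arc_heights hM hL hε
  set M := xc⁻¹ * (gf ARC).toReal with hMd
  have hM0 : 0 ≤ M := mul_nonneg (by positivity) ENNReal.toReal_nonneg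
  have hg : ∀ n, pO n ((n : ℝ) ^ (3 / 4 - ε)) ((n : ℝ) ^ (3 / 4 + ε)) ≤ ENNReal.ofReal M := by
    intro n
    rw [hMd, ENNReal.ofReal_mul (by positivity), ENNReal.ofReal_toReal gf_ARC_ne]
    exact (pO_le _ _ _).trans (mul_le_mul' le_rfl (gf_mono fun _ h => h.1))
  have key := all_n (M := M) hM0 hc3 hg (K := xc⁻¹) (N0 := N3) (by positivity)
    (fun n hn => by
      rw [ENNReal.ofReal_mul (by positivity)]
      exact (pO_le _ _ _).trans (mul_le_mul' le_rfl (h3 n hn)))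
  set D := M * Real.exp N3 + xc⁻¹ + 1 / c3 + 1 with hD
  have hD0 : 0 ≤ M * Real.exp N3 := mul_nonneg hM0 (Real.exp_pos _).le
  have hx1 : 0 < xc⁻¹ := by positivity
  have p3 : 0 < 1 / c3 := by positivity
  -- exponents
  set A := max (2 : ℝ) (2 ^ (-(3 / 2) + ε)) with hA
  have hA0 : 0 < A := lt_of_lt_of_le two_pos (le_max_left _ _)
  set B := (2 : ℝ) ^ (3 / 2 + ε) with hB
  have hB0 : 0 < B := by positivity
  have p2 : 0 < xc * B / c2 := by positivity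
  have p1 : 0 < xc⁻¹ * C1 * A := by positivity
  refine ⟨xc⁻¹ * C1 * A + xc * B / c2 + D, by linarith, fun n hn => ⟨?_, ?_, key _ (by linarith) n hn⟩⟩
  all_goals
    have hnR : (1 : ℝ) ≤ n := by exact_mod_cast hn
    have hn0 : (0 : ℝ) < n := by linarith
    have hc1 : ((n + 1 : ℕ) : ℝ) = (n : ℝ) + 1 := by push_cast; rfl
  · rw [pW_tl]
    apply ENNReal.ofReal_le_ofReal
    have h5 := h2 (n + 1) (by omega)
    have h6 : B⁻¹ * (n : ℝ) ^ (-(3 / 2) - ε) ≤ ((n + 1 : ℕ) : ℝ) ^ (-(3 / 2) - ε) := by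
      have h7 : (2 * (n : ℝ)) ^ (-(3 / 2) - ε) ≤ ((n + 1 : ℕ) : ℝ) ^ (-(3 / 2) - ε) := by
        apply Real.rpow_le_rpow_of_nonpos (by positivity) _ (by linarith)
        rw [hc1]; linarith
      refine le_trans (le_of_eq ?_) h7
      rw [Real.mul_rpow (by norm_num) hn0.le, hB, ← Real.rpow_neg (by norm_num)]
      congr 2; ring
    have h8 : (xc⁻¹ * C1 * A + xc * B / c2 + D)⁻¹ ≤ (xc * B / c2)⁻¹ := inv_anti₀ p2 (by linarith)
    calc _ ≤ (xc * B / c2)⁻¹ * (n : ℝ) ^ (-(3 / 2) - ε) := mul_le_mul_of_nonneg_right h8 (by positivity)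
      _ = xc⁻¹ * (c2 * (B⁻¹ * (n : ℝ) ^ (-(3 / 2) - ε))) := by field_simp
      _ ≤ xc⁻¹ * (c2 * ((n + 1 : ℕ) : ℝ) ^ (-(3 / 2) - ε)) := by gcongr
      _ ≤ _ := mul_le_mul_of_nonneg_left h5 hx1.le
  · rw [pW_tl]
    apply ENNReal.ofReal_le_ofReal
    have h5 := h1 (n + 1) (by omega)
    have h6 : ((n + 1 : ℕ) : ℝ) ^ (-(3 / 2) + ε) ≤ A * (n : ℝ) ^ (-(3 / 2) + ε) := by
      rcases le_or_gt (-(3 / 2) + ε) 0 with h7 | h7
      · have h8 : ((n + 1 : ℕ) : ℝ) ^ (-(3 / 2) + ε) ≤ (n : ℝ) ^ (-(3 / 2) + ε) := by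
          apply Real.rpow_le_rpow_of_nonpos hn0 _ h7
          rw [hc1]; linarith
        have h9 : 0 < (n : ℝ) ^ (-(3 / 2) + ε) := by positivity
        have h10 : (2 : ℝ) ≤ A := le_max_left _ _
        nlinarith
      · calc ((n + 1 : ℕ) : ℝ) ^ (-(3 / 2) + ε) ≤ (2 * (n : ℝ)) ^ (-(3 / 2) + ε) := by
              apply Real.rpow_le_rpow (by positivity) _ h7.le
              rw [hc1]; linarith
          _ = 2 ^ (-(3 / 2) + ε) * (n : ℝ) ^ (-(3 / 2) + ε) := Real.mul_rpow (by norm_num) hn0.le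
          _ ≤ _ := mul_le_mul_of_nonneg_right (le_max_right _ _) (by positivity)
    calc xc⁻¹ * tl PW (n + 1) ≤ xc⁻¹ * (C1 * ((n + 1 : ℕ) : ℝ) ^ (-(3 / 2) + ε)) :=
          mul_le_mul_of_nonneg_left h5 hx1.le
      _ ≤ xc⁻¹ * (C1 * (A * (n : ℝ) ^ (-(3 / 2) + ε))) := by gcongr
      _ = (xc⁻¹ * C1 * A) * (n : ℝ) ^ (-(3 / 2) + ε) := by ring
      _ ≤ _ := mul_le_mul_of_nonneg_right (by linarith) (by positivity)

end BrL

end HexObs
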