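import Pool.Agent.NUX.Thin

/-! Long words of low strips and short words of large extent are exponentially rare (helper37, TARGET-E). -/

set_option autoImplicit false

namespace HexObs

namespace BrL

open Finset TS SDN T2 Filter

open scoped ENNReal

lemma ev_rpow {a : ℝ} (ha : 0 < a) (K : ℝ) : ∀ᶠ n : ℕ in atTop, K ≤ (n : ℝ) ^ a :=
  ((tendsto_rpow_atTop ha).comp tendsto_natCast_atTop_atTop).eventually_ge_atTop K

/-- long words of a low strip are exponentially rare -/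
theorem long_rare {a0 : ℝ} (ha0 : 1 ≤ a0) (hM : ∀ a' : ℝ, a0 < a' → ∃ C : ℝ, 0 ≤ C ∧ MeanLen a' C)
    {β : ℝ} (hβ : a0 < β) : ∃ (c : ℝ) (N0 : ℕ), 0 < c ∧ ∀ n T : ℕ, N0 ≤ n → 1 ≤ T → (T : ℝ) ^ β ≤ n →
      gf {t | t ∈ CT T ∧ n ≤ t.length} ≤ ENNReal.ofReal (Real.exp (-(n : ℝ) ^ c)) := by
  obtain ⟨β', h1, h2⟩ := exists_between hβ
  have hβ'0 : 0 < β' := by linarith
  have hβ00 : 0 < β := by linarith
  obtain ⟨c1, L0, hc1, hlow⟩ := BAR.exp_low ha0 hM h1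
  obtain ⟨C, q, hC, hq, hq1, hfar⟩ := far_CT
  set δ := 1 / β' - 1 / β with hδ
  have hδ0 : 0 < δ := by
    rw [hδ, sub_pos]; exact one_div_lt_one_div_of_lt hβ'0 h2
  set κ := -Real.log q with hκ
  have hκ0 : 0 < κ := by rw [hκ]; have := Real.log_neg hq hq1; linarith
  set ca := c1 / (2 * β') with hca
  have hca0 : 0 < ca := by positivity
  set c := min ca (δ / 2) with hc
  have hc0 : 0 < c := lt_min hca0 (by positivity)
  -- largeness
  have e1 := ev_rpow hδ0 12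
  have e2 := ev_rpow hca0 (2 * 2 ^ c1)
  have e3 := ev_rpow (a := δ / 2) (by positivity) (8 / κ)
  have e4 := ev_rpow (a := δ / 2) (by positivity) (Real.log 2 + Real.log C + 2 * κ)
  have e5 := ev_rpow (a := 1 / β') (by positivity) ((2 : ℝ) ^ (L0 + 2))
  obtain ⟨N0, hN0⟩ := ((((e1.and e2).and e3).and e4).and e5).exists_forall_of_atTop
  refine ⟨c, N0 + 1, hc0, fun n T hn hT hTn => ?_⟩
  obtain ⟨⟨⟨⟨f1, f2⟩, f3⟩, f4⟩, f5⟩ := hN0 n (by omega)
  have hn1 : (1 : ℝ) ≤ n := by exact_mod_cast (by omega : 1 ≤ n)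
  have hn0 : (0 : ℝ) < n := by linarith
  have hT1 : (1 : ℝ) ≤ T := by exact_mod_cast hT
  set y := Real.logb 2 n with hy
  have hyn : (2 : ℝ) ^ y = n := Real.rpow_logb (by norm_num) (by norm_num) hn0
  have hy0 : 0 ≤ y := Real.logb_nonneg (by norm_num) hn1
  set L := ⌊y / β'⌋₊ with hL
  have hLa : (L : ℝ) ≤ y / β' := Nat.floor_le (by positivity)
  have hLb : y / β' < (L : ℝ) + 1 := Nat.lt_floor_add_one _
  set X := (n : ℝ) ^ (1 / β') with hX
  have hXy : X = (2 : ℝ) ^ (y / β') := by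
    rw [hX, ← hyn, ← Real.rpow_mul (by norm_num)]; congr 1; ring
  have hXL : X / 2 ≤ (2 : ℝ) ^ L := by
    have : X ≤ (2 : ℝ) ^ ((L : ℝ) + 1) := by
      rw [hXy]; exact Real.rpow_le_rpow_of_exponent_le (by norm_num) hLb.le
    rw [Real.rpow_add_one (by norm_num), Real.rpow_natCast] at this
    linarith
  have hLL : L0 + 1 ≤ L := by
    have h3 : (2 : ℝ) ^ (L0 + 1) ≤ (2 : ℝ) ^ L := by
      have : (2 : ℝ) ^ (L0 + 2) = 2 * (2 : ℝ) ^ (L0 + 1) := by rw [pow_succ]; ring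
      linarith
    exact (pow_le_pow_iff_right₀ (by norm_num : (1 : ℝ) < 2)).1 h3
  have hL1 : 1 ≤ L := by omega
  -- T
  set Y := (n : ℝ) ^ (1 / β) with hY
  have hTY : (T : ℝ) ≤ Y := by
    have := Real.rpow_le_rpow (by positivity) hTn (show 0 ≤ 1 / β by positivity)
    rwa [← Real.rpow_mul (by positivity), mul_one_div_cancel hβ00.ne', Real.rpow_one] at this
  have hY1 : 1 ≤ Y := hT1.trans hTY
  have hXYδ : X = Y * (n : ℝ) ^ δ := by
    rw [hX, hY, ← Real.rpow_add hn0]; congr 1; rw [hδ]; ring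
  clear_value L
  clear hL
  obtain ⟨l, rfl⟩ : ∃ l, L = l + 1 := ⟨L - 1, by omega⟩
  have hl : X / 4 ≤ (2 : ℝ) ^ l := by
    rw [pow_succ] at hXL; linarith
  -- geometry
  have hgeo : T + 2 ^ l + 2 ≤ 2 ^ (l + 1) := by
    have h3 : (T : ℝ) + 2 ≤ (2 : ℝ) ^ l := by
      have : 12 * Y ≤ X := by rw [hXYδ]; nlinarith
      linarith
    have h4 : T + 2 ≤ 2 ^ l := by exact_mod_cast h3
    rw [pow_succ]; omega
  have hsub : {t | t ∈ CT T ∧ n ≤ t.length} ⊆ {t | t ∈ CT T ∧ CMP.Far (2 ^ l) t} ∪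
      {t | t ∈ WL (l + 1) ∧ (2 : ℝ) ^ (β' * ((l + 1 : ℕ) : ℝ)) ≤ t.length} := by
    rintro t ⟨h3, h4⟩
    by_cases hF : CMP.Far (2 ^ l) t
    · exact Or.inl ⟨h3, hF⟩
    · refine Or.inr ⟨box_of h3 hF hgeo, ?_⟩
      have h5 : (2 : ℝ) ^ (β' * ((l + 1 : ℕ) : ℝ)) ≤ n := by
        rw [← hyn]
        apply Real.rpow_le_rpow_of_exponent_le (by norm_num)
        rw [le_div_iff₀ hβ'0] at hLa
        linarith
      exact h5.trans (by exact_mod_cast h4)
  have g1 := hfar T (2 ^ l) hT Nat.one_le_two_pow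
  have g2 := hlow (l + 1) (by omega)
  refine (gf_mono hsub).trans ((gf_union_le _ _).trans ((add_le_add g1 g2).trans ?_))
  rw [← ENNReal.ofReal_add (by positivity) (Real.exp_pos _).le]
  apply ENNReal.ofReal_le_ofReal
  -- first term
  have hcle1 : (n : ℝ) ^ c ≤ (n : ℝ) ^ ca := Real.rpow_le_rpow_of_exponent_le hn1 (min_le_left _ _)
  have hcle2 : (n : ℝ) ^ c ≤ (n : ℝ) ^ (δ / 2) := Real.rpow_le_rpow_of_exponent_le hn1 (min_le_right _ _)
  have hlog2 : 0 < Real.log 2 := Real.log_pos (by norm_num)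
  have hlog2' : Real.log 2 ≤ 1 := by have := Real.log_two_lt_d9; linarith
  have t2 : Real.exp (-(2 : ℝ) ^ (c1 * ((l + 1 : ℕ) : ℝ))) ≤ Real.exp (-(n : ℝ) ^ c) / 2 := by
    have h3 : (n : ℝ) ^ c + Real.log 2 ≤ (2 : ℝ) ^ (c1 * ((l + 1 : ℕ) : ℝ)) := by
      have h4 : (X / 2) ^ c1 ≤ (2 : ℝ) ^ (c1 * ((l + 1 : ℕ) : ℝ)) := by
        rw [mul_comm c1, Real.rpow_mul (by norm_num), Real.rpow_natCast]
        exact Real.rpow_le_rpow (by positivity) hXL hc1.le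
      have h5 : (X / 2) ^ c1 = ((n : ℝ) ^ ca) ^ 2 / 2 ^ c1 := by
        rw [Real.div_rpow (by positivity) (by norm_num), hX, ← Real.rpow_mul hn0.le, ← Real.rpow_natCast,
          ← Real.rpow_mul hn0.le]
        congr 2
        rw [hca]; push_cast; field_simp
      rw [h5] at h4
      refine le_trans ?_ h4
      have h2c : (0 : ℝ) < 2 ^ c1 := by positivity
      rw [le_div_iff₀ h2c]
      have h6 : (1 : ℝ) ≤ 2 ^ c1 := Real.one_le_rpow (by norm_num) hc1.le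
      have h7 : 2 * (2 : ℝ) ^ c1 * (n : ℝ) ^ ca ≤ ((n : ℝ) ^ ca) ^ 2 := by nlinarith
      nlinarith
    have h4 : Real.exp (-(n : ℝ) ^ c) / 2 = Real.exp (-((n : ℝ) ^ c + Real.log 2)) := by
      rw [neg_add, Real.exp_add, Real.exp_neg (Real.log 2), Real.exp_log (by norm_num)]; ring
    rw [h4]
    exact Real.exp_le_exp.2 (by linarith)
  have t1 : C * q ^ (2 ^ l / T) ≤ Real.exp (-(n : ℝ) ^ c) / 2 := by
    set k := 2 ^ l / T with hk
    have hkT : (2 : ℝ) ^ l / T < k + 1 := by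
      have h3 : 2 ^ l < T * (k + 1) := by
        rw [hk]; exact Nat.lt_mul_div_succ _ (by omega)
      rw [div_lt_iff₀ (by linarith)]
      have h4 : ((2 ^ l : ℕ) : ℝ) < ((T * (k + 1) : ℕ) : ℝ) := by exact_mod_cast h3
      push_cast at h4
      linarith
    have hkn : (n : ℝ) ^ δ / 4 < k + 1 := by
      refine lt_of_le_of_lt ?_ hkT
      rw [le_div_iff₀ (by linarith)]
      refine le_trans ?_ hl
      rw [hXYδ]
      have : 0 ≤ (n : ℝ) ^ δ := by positivity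
      nlinarith
    have hqk : q ^ k = Real.exp (-(κ * k)) := by
      rw [hκ, neg_mul, neg_neg, mul_comm, Real.exp_nat_mul, Real.exp_log hq]
    have hnδ : (n : ℝ) ^ δ = ((n : ℝ) ^ (δ / 2)) ^ 2 := by
      rw [← Real.rpow_natCast, ← Real.rpow_mul hn0.le]; congr 1; push_cast; ring
    have h3 : (n : ℝ) ^ c + Real.log 2 + Real.log C ≤ κ * k := by
      have h4 : κ * ((n : ℝ) ^ δ / 4 - 1) ≤ κ * k := by
        apply mul_le_mul_of_nonneg_left _ hκ0.le; linarith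
      refine le_trans ?_ h4
      rw [hnδ]
      set z := (n : ℝ) ^ (δ / 2) with hz
      have h5 : 8 ≤ κ * z := by
        rw [div_le_iff₀ hκ0] at f3; linarith
      have hz0 : 0 ≤ z := by positivity
      nlinarith
    rw [hqk]
    have h4 : Real.exp (-(n : ℝ) ^ c) / 2 = Real.exp (-((n : ℝ) ^ c + Real.log 2)) := by
      rw [neg_add, Real.exp_add, Real.exp_neg (Real.log 2), Real.exp_log (by norm_num)]; ring
    rw [h4]
    calc C * Real.exp (-(κ * k)) = Real.exp (Real.log C + -(κ * k)) := by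
          rw [Real.exp_add, Real.exp_log hC]
      _ ≤ _ := Real.exp_le_exp.2 (by linarith)
  linarith

/-- short words of large extent are exponentially rare -/
theorem short_rare {β0 : ℝ} (hE : ∀ β : ℝ, 0 < β → β < β0 → ExpUp β) {β : ℝ} (hβ : 0 < β) (hβ0 : β < β0) :
    ∃ (c : ℝ) (N0 : ℕ), 0 < c ∧ ∀ n T : ℕ, N0 ≤ n → (n : ℝ) ≤ (T : ℝ) ^ β →
      gf {t | t ∈ SA ∧ (∃ i, i ≤ t.length ∧ ∃ dir, (T : ℤ) ≤ |row dir (vx oo up t i)|) ∧ t.length ≤ n} ≤
        ENNReal.ofReal (Real.exp (-(n : ℝ) ^ c)) := by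
  obtain ⟨β', h1, h2⟩ := exists_between hβ0
  have hβ'0 : 0 < β' := by linarith
  obtain ⟨c1, L0, hc1, hup⟩ := hE β' hβ'0 h2
  set K := max (L0 : ℝ) (β / (β' - β)) with hK
  set c := c1 / (2 * β) with hc
  have hc0 : 0 < c := by positivity
  have e1 := ev_rpow hc0 (2 ^ c1)
  have e2 := ev_rpow (a := 1 / β) (by positivity) ((2 : ℝ) ^ (K + 1))
  obtain ⟨N0, hN0⟩ := (e1.and e2).exists_forall_of_atTop
  refine ⟨c, N0 + 1, hc0, fun n T hn hTn => ?_⟩
  obtain ⟨f1, f2⟩ := hN0 n (by omega)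
  have hn1 : (1 : ℝ) ≤ n := by exact_mod_cast (by omega : 1 ≤ n)
  have hn0 : (0 : ℝ) < n := by linarith
  have hT0 : T ≠ 0 := by
    rintro rfl
    rw [Nat.cast_zero, Real.zero_rpow hβ.ne'] at hTn
    linarith
  set X := (n : ℝ) ^ (1 / β) with hX
  have hXT : X ≤ T := by
    have := Real.rpow_le_rpow hn0.le hTn (show 0 ≤ 1 / β by positivity)
    rwa [← Real.rpow_mul (by positivity), mul_one_div_cancel hβ.ne', Real.rpow_one] at this
  set L := Nat.log 2 T with hL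
  have hLa : 2 ^ L ≤ T := Nat.pow_log_le_self 2 hT0
  have hLb : T < 2 ^ (L + 1) := Nat.lt_pow_succ_log_self (by norm_num) T
  have hLaR : (2 : ℝ) ^ L ≤ T := by exact_mod_cast hLa
  have hLbR : (T : ℝ) < (2 : ℝ) ^ (L + 1) := by exact_mod_cast hLb
  have hKL : K ≤ L := by
    have h3 : (2 : ℝ) ^ (K + 1) < (2 : ℝ) ^ ((L : ℝ) + 1) := by
      have e : (2 : ℝ) ^ ((L : ℝ) + 1) = (2 : ℝ) ^ (L + 1) := by
        rw [← Real.rpow_natCast]; push_cast; rfl
      rw [e]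
      linarith
    have := (Real.rpow_lt_rpow_left_iff (by norm_num)).1 h3
    linarith
  have hLL : L0 ≤ L := by exact_mod_cast (le_max_left _ _).trans hKL
  have hLβ : β / (β' - β) ≤ L := (le_max_right _ _).trans hKL
  have hnL : (n : ℝ) ≤ (2 : ℝ) ^ (β' * L) := by
    refine hTn.trans ?_
    have h3 : (T : ℝ) ^ β ≤ ((2 : ℝ) ^ (L + 1)) ^ β := Real.rpow_le_rpow (by positivity) hLbR.le hβ.le
    refine h3.trans ?_
    rw [← Real.rpow_natCast, ← Real.rpow_mul (by norm_num)]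
    apply Real.rpow_le_rpow_of_exponent_le (by norm_num)
    push_cast
    rw [div_le_iff₀ (by linarith)] at hLβ
    nlinarith
  have hsub : {t | t ∈ SA ∧ (∃ i, i ≤ t.length ∧ ∃ dir, (T : ℤ) ≤ |row dir (vx oo up t i)|) ∧ t.length ≤ n} ⊆
      {t | t ∈ SA ∧ Ext L t ∧ (t.length : ℝ) ≤ (2 : ℝ) ^ (β' * L)} := by
    rintro t ⟨h3, ⟨i, hi, dir, h4⟩, h5⟩
    refine ⟨h3, ⟨i, hi, dir, le_trans ?_ h4⟩, le_trans ?_ hnL⟩
    · exact_mod_cast hLa
    · exact_mod_cast h5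
  refine (gf_mono hsub).trans ((hup L hLL).trans (ENNReal.ofReal_le_ofReal (Real.exp_le_exp.2 ?_)))
  rw [neg_le_neg_iff]
  have h3 : X / 2 ≤ (2 : ℝ) ^ L := by rw [pow_succ] at hLbR; linarith
  have h4 : (X / 2) ^ c1 ≤ (2 : ℝ) ^ (c1 * (L : ℝ)) := by
    rw [mul_comm c1, Real.rpow_mul (by norm_num), Real.rpow_natCast]
    exact Real.rpow_le_rpow (by positivity) h3 hc1.le
  have h5 : (X / 2) ^ c1 = ((n : ℝ) ^ c) ^ 2 / 2 ^ c1 := by
    rw [Real.div_rpow (by positivity) (by norm_num), hX, ← Real.rpow_mul hn0.le, ← Real.rpow_natCast ((n : ℝ) ^ c),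
      ← Real.rpow_mul hn0.le]
    congr 2
    rw [hc]; push_cast; field_simp
  rw [h5] at h4
  refine le_trans ?_ h4
  have h2c : (0 : ℝ) < 2 ^ c1 := by positivity
  rw [le_div_iff₀ h2c]
  nlinarith

end BrL

end HexObs
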