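import Pool.Agent.NUX.Br3
import Pool.Agent.NUX.Rare
import Pool.Agent.CutH.Lists

/-! Bridges by the number of sites: lists (helper37, TARGET-E). -/

set_option autoImplicit false

namespace HexObs

namespace BrL

open Finset TS SDN T2 Filter NUX

open scoped ENNReal

/-- bridges as lists of sites -/
def LBr (j : ℕ) (L : List (ℤ × ℤ)) : Prop := ∃ b : ℤ, CC.Crossing j 0 b L

lemma LBr_pos {j : ℕ} {L : List (ℤ × ℤ)} (h : LBr j L) : 1 ≤ j := by
  obtain ⟨b, _, _, h3, h4, _, _⟩ := h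
  have h5 : ((0 : ℤ), (1 : ℤ)) ∈ L := List.mem_of_mem_head? h4
  have := h3 _ h5
  simp only at this
  omega

/-- lists with n sites that satisfy Q -/
def LS (n : ℕ) (Q : ℕ → List (ℤ × ℤ) → Prop) : Set (List (ℤ × ℤ)) := {L | L.length = n ∧ ∃ j, LBr j L ∧ Q j L}

/-- words with n letters that satisfy Q -/
def WS (n : ℕ) (Q : ℕ → List (ℤ × ℤ) → Prop) : Set (List Bool) :=
  {t | t.length = n ∧ ∃ j, t ∈ Brd j ∧ Q j (CC.toL oo t)}

lemma WS_inj {n : ℕ} (hn : 1 ≤ n) {Q : ℕ → List (ℤ × ℤ) → Prop} : Set.InjOn (CC.toL oo) (WS n Q) := by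
  rintro t ⟨h1, j, h2, _⟩ s ⟨h3, i, h4, _⟩ h
  have hj : 1 ≤ j := by
    by_contra hc
    have : j = 0 := by omega
    subst this
    rw [Brd_zero] at h2
    have h5 : t = [] := h2
    rw [h5] at h1
    simp at h1
    omega
  have hi : 1 ≤ i := by
    by_contra hc
    have : i = 0 := by omega
    subst this
    rw [Brd_zero] at h4
    have h5 : s = [] := h4
    rw [h5] at h3
    simp at h3
    omega
  obtain ⟨b, hb, -⟩ := CC.crossing_toL hj CC.lv_oo (CC.brd_out.1 h2)
  obtain ⟨c, hc, -⟩ := CC.crossing_toL hi CC.lv_oo (CC.brd_out.1 h4)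
  have e1 := hb.2.2.2.2.1
  have e2 := hc.2.2.2.2.1
  have h' : CC.toL oo t = CC.toL oo s := h
  rw [h', e2] at e1
  have e3 := congrArg Prod.snd (Option.some.inj e1)
  simp only at e3
  have e4 : i = j := by exact_mod_cast e3
  subst e4
  exact CC.toL_inj CC.lv_oo (CC.brd_out.1 h2) (CC.brd_out.1 h4) h'

lemma WS_image {n : ℕ} (hn : 1 ≤ n) (Q : ℕ → List (ℤ × ℤ) → Prop) : CC.toL oo '' WS n Q = LS n Q := by
  ext L
  constructor
  · rintro ⟨t, ⟨h1, j, h2, h3⟩, rfl⟩
    have hj : 1 ≤ j := by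
      by_contra hc
      have : j = 0 := by omega
      subst this
      rw [Brd_zero] at h2
      have h5 : t = [] := h2
      rw [h5] at h1
      simp at h1
      omega
    obtain ⟨b, hb, -⟩ := CC.crossing_toL hj CC.lv_oo (CC.brd_out.1 h2)
    exact ⟨by rw [CC.toL_length]; exact h1, j, ⟨b, hb⟩, h3⟩
  · rintro ⟨h1, j, ⟨b, hb⟩, h3⟩
    have hj : 1 ≤ j := LBr_pos ⟨b, hb⟩
    obtain ⟨h4, h5, h6⟩ := CC.toW_spec (T := j) (by simp : Even (0 : ℤ)) CC.lv_oo rfl hb
    refine ⟨CC.toW j 0 b L, ⟨?_, j, CC.brd_out.2 h4, by rw [h5]; exact h3⟩, h5⟩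
    rw [← h1, ← CC.toL_length oo, h5]

lemma WS_finite (n : ℕ) (Q : ℕ → List (ℤ × ℤ) → Prop) : (WS n Q).Finite :=
  (finite_len n).subset fun _ h => h.1

lemma LS_ncard {n : ℕ} (hn : 1 ≤ n) (Q : ℕ → List (ℤ × ℤ) → Prop) : (LS n Q).ncard = (WS n Q).ncard := by
  rw [← WS_image hn Q, (WS_inj hn).ncard_image]

/-- weight of a finite set of words with n letters -/
lemma gf_len {P : Set (List Bool)} {n : ℕ} (h : ∀ t ∈ P, t.length = n) (hf : P.Finite) :
    (gf P).toReal = P.ncard * xc ^ n := by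
  have h1 : gf P = gf ((hf.toFinset : Finset (List Bool)) : Set (List Bool)) := by rw [hf.coe_toFinset]
  rw [h1, gf_finset, ENNReal.toReal_ofReal (sum_nonneg fun _ _ => pow_nonneg xc_pos.le _)]
  rw [sum_congr rfl (fun t ht => by rw [h t (hf.mem_toFinset.1 ht)]), sum_const, nsmul_eq_mul,
    Set.ncard_eq_toFinset_card P hf]

lemma LS_weight {n : ℕ} (hn : 1 ≤ n) (Q : ℕ → List (ℤ × ℤ) → Prop) :
    ((LS n Q).ncard : ℝ) * xc ^ n = (gf (WS n Q)).toReal := by
  rw [LS_ncard hn, gf_len (fun t h => h.1) (WS_finite n Q)]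

/-- the number of the bridges with n sites -/
noncomputable def bN (n : ℕ) : ℕ := {L : List (ℤ × ℤ) | L.length = n ∧ ∃ j, LBr j L}.ncard

/-- the number of the irreducible bridges with n sites -/
noncomputable def iN (n : ℕ) : ℕ :=
  {L : List (ℤ × ℤ) | L.length = n ∧ ∃ j, LBr j L ∧ ∀ s, 1 ≤ s → s < j → ¬ CC.RowCut L s}.ncard

lemma bN_even {m : ℕ} (hm : 1 ≤ m) : (bN (2 * m) : ℝ) * xc ^ (2 * m) = ub m := by
  have h := LS_weight (n := 2 * m) (by omega) (fun _ _ => True)
  have e1 : LS (2 * m) (fun _ _ => True) = {L : List (ℤ × ℤ) | L.length = 2 * m ∧ ∃ j, LBr j L} := by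
    ext L; simp [LS]
  have e2 : WS (2 * m) (fun _ _ => True) = BLs (2 * m) := by
    ext t
    constructor
    · rintro ⟨h1, j, h2, _⟩
      exact ⟨⟨j, h2⟩, h1⟩
    · rintro ⟨⟨j, h2⟩, h1⟩
      exact ⟨h1, j, h2, trivial⟩
  rw [e1, e2] at h
  exact h

lemma bN_odd {n : ℕ} (hn : ¬ Even n) : bN n = 0 := by
  rcases Nat.eq_zero_or_pos n with h0 | h0
  · rw [h0] at hn
    exact absurd Even.zero hn
  · have h := LS_ncard h0 (fun _ _ => True)
    have e1 : LS n (fun _ _ => True) = {L : List (ℤ × ℤ) | L.length = n ∧ ∃ j, LBr j L} := by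
      ext L; simp [LS]
    have e2 : WS n (fun _ _ => True) = ∅ := by
      ext t
      simp only [Set.mem_empty_iff_false, iff_false]
      rintro ⟨h1, j, h2, _⟩
      exact hn (h1 ▸ even_length h2)
    rw [e1, e2, Set.ncard_empty] at h
    exact h

lemma bN_zero : bN 0 = 0 := by
  unfold bN
  have : {L : List (ℤ × ℤ) | L.length = 0 ∧ ∃ j, LBr j L} = ∅ := by
    ext L
    simp only [Set.mem_ofPred_eq, Set.mem_empty_iff_false, iff_false]
    rintro ⟨h1, j, b, hb⟩
    have h2 : L = [] := List.length_eq_zero_iff.1 h1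
    rw [h2] at hb
    have := hb.2.2.2.1
    simp at this
  rw [this, Set.ncard_empty]

lemma irr_iff {j : ℕ} (hj : 1 ≤ j) {t : List Bool} (ht : t ∈ Brd j) :
    t ∈ Irr j ↔ ∀ s, 1 ≤ s → s < j → ¬ CC.RowCut (CC.toL oo t) s := by
  have hne : t ≠ [] := by
    rintro rfl
    have := Brd_height ht nil_mem_Brd
    omega
  constructor
  · rintro ⟨_, _, h⟩ s hs hsj hc
    obtain ⟨a, u, b, h1, h2, h3⟩ := (CC.rowCut_iff ht hs hsj).1 hc
    rcases h s b a u h1 h2 h3 with h4 | h4
    · rw [h4] at h1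
      have := Brd_height h1 nil_mem_Brd
      omega
    · rw [h4] at h2
      have h5 := Brd_height h2 nil_mem_Brd
      rw [h4, List.append_nil] at h3
      rw [h3] at ht
      have := Brd_height ht h1
      omega
  · intro h
    refine ⟨ht, hne, fun a b s u hs hu hsu => ?_⟩
    by_contra hc
    push Not at hc
    have ha : 1 ≤ a := by
      by_contra h0
      have : a = 0 := by omega
      rw [this, Brd_zero] at hs
      exact hc.1 hs
    have hb : 1 ≤ b := by
      by_contra h0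
      have : b = 0 := by omega
      rw [this, Brd_zero] at hu
      exact hc.2 hu
    have hab : j = a + b := by
      have h1 := Brd_append hs hu
      rw [← hsu] at h1
      exact Brd_height ht h1
    exact h a ha (by omega) ((CC.rowCut_iff ht ha (by omega)).2 ⟨s, u, b, hs, hu, hsu⟩)

lemma iN_even {m : ℕ} (hm : 1 ≤ m) : (iN (2 * m) : ℝ) * xc ^ (2 * m) = fb m := by
  have h := LS_weight (n := 2 * m) (by omega) (fun j L => ∀ s, 1 ≤ s → s < j → ¬ CC.RowCut L s)
  have e2 : WS (2 * m) (fun j L => ∀ s, 1 ≤ s → s < j → ¬ CC.RowCut L s) = ILs (2 * m) := by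
    ext t
    constructor
    · rintro ⟨h1, j, h2, h3⟩
      have hj : 1 ≤ j := by
        by_contra hc
        have : j = 0 := by omega
        subst this
        rw [Brd_zero] at h2
        have h5 : t = [] := h2
        rw [h5] at h1
        simp at h1
        omega
      exact ⟨⟨j, (irr_iff hj h2).2 h3⟩, h1⟩
    · rintro ⟨⟨j, h2⟩, h1⟩
      have hj : 1 ≤ j := by
        by_contra hc
        have : j = 0 := by omega
        subst this
        have h3 := h2.1
        rw [Brd_zero] at h3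
        exact h2.2.1 h3
      exact ⟨h1, j, h2.1, (irr_iff hj h2.1).1 h2⟩
  rw [e2] at h
  exact h

lemma iN_le (n : ℕ) : iN n ≤ bN n := by
  have hf : {L : List (ℤ × ℤ) | L.length = n ∧ ∃ j, LBr j L}.Finite := by
    rcases Nat.eq_zero_or_pos n with h0 | h0
    · apply (Set.finite_singleton ([] : List (ℤ × ℤ))).subset
      rintro L ⟨h1, _⟩
      rw [h0] at h1
      exact List.length_eq_zero_iff.1 h1
    · have e1 : LS n (fun _ _ => True) = {L : List (ℤ × ℤ) | L.length = n ∧ ∃ j, LBr j L} := by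
        ext L; simp [LS]
      rw [← e1, ← WS_image h0]
      exact (WS_finite n _).image _
  apply Set.ncard_le_ncard _ hf
  rintro L ⟨h1, j, h2, _⟩
  exact ⟨h1, j, h2⟩

lemma xcmu : xc = (Real.sqrt (2 + Real.sqrt 2))⁻¹ := CC.xc_eq

end BrL

end HexObs
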