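import Pool.Agent.NUX.Dict
import Pool.Agent.CenC.Fin
import Pool.Agent.CenC.Hand

/-! Polygons by the number of sites (helper37, TARGET-E). -/

set_option autoImplicit false

namespace HexObs

namespace BrL

open Finset TS SDN T2 Filter NUX TP

open scoped ENNReal Topology

/-- the words of the polygons: around the polygon without its last edge, then out through the floor -/
def PW : Set (List Bool) := {t | t ∈ AP ∧ ∃ L, HexPolygon.Polygon L ∧ CC.toL oo t = L ++ [(2, 1)]}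

lemma arcL_of_polygon {L : List (ℤ × ℤ)} (h : HexPolygon.Polygon L) :
    ArcL (2 * ((1 : ℕ) : ℤ)) (L ++ [(2, 1)]) := by
  obtain ⟨h1, h2, h3, h4, h5, h6, h7⟩ := h
  refine ⟨?_, ?_, ?_, ?_, ?_⟩
  · rw [List.isChain_append]
    refine ⟨h1, List.isChain_singleton _, ?_⟩
    intro a ha b hb
    rw [h5] at ha
    have ha' := Option.mem_some_iff.1 ha
    have hb' : (2, 1) = b := Option.mem_some_iff.1 hb
    rw [← ha', ← hb']
    left
    rfl
  · rw [List.nodup_append]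
    refine ⟨h2, List.nodup_singleton _, ?_⟩
    intro a ha b hb hab
    rw [List.mem_singleton] at hb
    rw [hab, hb] at ha
    have := h7 _ ha rfl
    norm_num at this
  · intro p hp
    rcases List.mem_append.1 hp with h | h
    · exact h6 p h
    · rw [List.mem_singleton] at h
      rw [h]
  · rw [List.head?_append, h4]
    rfl
  · rw [List.getLast?_append]
    simp

/-- the lists of the polygons -/
theorem dictP (Q : List (ℤ × ℤ) → Prop) :
    ENNReal.ofReal xc * ∑' L : {L // HexPolygon.Polygon L ∧ Q L}, CC.wt L.1 =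
      gf {t | t ∈ AP ∧ ∃ L, (HexPolygon.Polygon L ∧ Q L) ∧ CC.toL oo t = L ++ [(2, 1)]} := by
  rw [← dict fun M => ∃ L, (HexPolygon.Polygon L ∧ Q L) ∧ M = L ++ [(2, 1)]]
  let f : {L // HexPolygon.Polygon L ∧ Q L} → {M // (∃ d : ℕ, 1 ≤ d ∧ ArcL (2 * d) M) ∧
      ∃ L, (HexPolygon.Polygon L ∧ Q L) ∧ M = L ++ [(2, 1)]} := fun L =>
    ⟨L.1 ++ [(2, 1)], ⟨1, le_rfl, arcL_of_polygon L.2.1⟩, L.1, L.2, rfl⟩
  have hf : Function.Bijective f := by
    constructor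
    · rintro L M h
      exact Subtype.ext (List.append_cancel_right (congrArg Subtype.val h))
    · rintro ⟨M, h1, L, h2, rfl⟩
      exact ⟨⟨L, h2⟩, rfl⟩
  rw [← ENNReal.tsum_mul_left, ← (Equiv.ofBijective f hf).tsum_eq]
  apply tsum_congr
  intro L
  show ENNReal.ofReal xc * CC.wt L.1 = CC.wt (L.1 ++ [(2, 1)])
  unfold CC.wt
  rw [List.length_append, List.length_singleton, pow_succ, mul_comm,
    ENNReal.ofReal_mul (by positivity), CC.xc_eq]

lemma PW_AR {T : ℕ} (hT : 1 ≤ T) {t : List Bool} {L : List (ℤ × ℤ)} (ht : t ∈ AP) (h : CC.toL oo t = L ++ [(2, 1)]) :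
    t ∉ AR T ↔ ∃ p ∈ L, (T : ℤ) < p.2 := by
  obtain ⟨d, hd, h1⟩ := ht
  rw [AR_iff h1, h]
  constructor
  · intro h2
    by_contra h3
    push Not at h3
    apply h2
    intro p hp
    rcases List.mem_append.1 hp with h4 | h4
    · exact h3 p h4
    · rw [List.mem_singleton] at h4
      rw [h4]
      show (1 : ℤ) ≤ T
      exact_mod_cast hT
  · rintro ⟨p, hp, h2⟩ h3
    have := h3 p (List.mem_append_left _ hp)
    omega

lemma gf_PW_U {T : ℕ} (hT : 1 ≤ T) : gf {t | t ∈ PW ∧ t ∉ AR T} = ENNReal.ofReal xc * HexPolygon.U T := by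
  have h := dictP fun L => ∃ p ∈ L, (T : ℤ) < p.2
  have e : {t | t ∈ PW ∧ t ∉ AR T} = {t | t ∈ AP ∧ ∃ L, (HexPolygon.Polygon L ∧ ∃ p ∈ L, (T : ℤ) < p.2) ∧
      CC.toL oo t = L ++ [(2, 1)]} := by
    ext t
    constructor
    · rintro ⟨⟨h1, L, h2, h3⟩, h4⟩
      exact ⟨h1, L, ⟨h2, (PW_AR hT h1 h3).1 h4⟩, h3⟩
    · rintro ⟨h1, L, ⟨h2, h4⟩, h3⟩
      exact ⟨⟨h1, L, h2, h3⟩, (PW_AR hT h1 h3).2 h4⟩
  rw [e, ← h]
  rfl

lemma gf_PW_ne : gf PW ≠ ∞ := ne_top_of_le_ne_top gf_AP_ne (gf_mono fun _ h => h.1)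

lemma U_pos (T : ℕ) : 0 < (HexPolygon.U T).toReal := by
  have h := HexPolygon.tail_of CenC.central
  have hc : (0 : ℝ) < 5 * Real.sqrt 3 / 108 := by positivity
  obtain ⟨N, hN⟩ := (h.eventually (lt_mem_nhds hc)).exists_forall_of_atTop
  have h1 := hN (max N T) (le_max_left _ _)
  have h2 : 0 < (HexPolygon.U (max N T)).toReal := by
    by_contra h3
    push Not at h3
    have : ((max N T : ℕ) : ℝ) ^ 2 * (HexPolygon.U (max N T)).toReal ≤ 0 :=
      mul_nonpos_of_nonneg_of_nonpos (by positivity) h3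
    linarith
  refine h2.trans_le (ENNReal.toReal_mono (HexPolygon.U_ne_top T) ?_)
  unfold HexPolygon.U
  refine ENNReal.tsum_mono_subtype HexPolygon.wt (s := {L | HexPolygon.Polygon L ∧ ∃ p ∈ L, ((max N T : ℕ) : ℤ) < p.2})
    (t := {L | HexPolygon.Polygon L ∧ ∃ p ∈ L, (T : ℤ) < p.2}) ?_
  rintro L ⟨h3, p, hp, h4⟩
  refine ⟨h3, p, hp, lt_of_le_of_lt ?_ h4⟩
  exact_mod_cast le_max_right _ _

lemma U_two : ∃ c C : ℝ, 0 < c ∧ 0 < C ∧ ∀ T : ℕ, 1 ≤ T →
    c * (T : ℝ) ^ (-2 : ℝ) ≤ (HexPolygon.U T).toReal ∧ (HexPolygon.U T).toReal ≤ C * (T : ℝ) ^ (-2 : ℝ) := by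
  have h := HexPolygon.tail_of CenC.central
  set κ : ℝ := 5 * Real.sqrt 3 / 108 with hκ
  have hκ0 : 0 < κ := by positivity
  obtain ⟨N, hN⟩ := ((h.eventually (lt_mem_nhds (half_lt_self hκ0))).and
    (h.eventually (gt_mem_nhds (show κ < 2 * κ by linarith)))).exists_forall_of_atTop
  set M := (HexPolygon.U 0).toReal with hM
  have hmono : ∀ a b : ℕ, a ≤ b → (HexPolygon.U b).toReal ≤ (HexPolygon.U a).toReal := by
    intro a b hab
    refine ENNReal.toReal_mono (HexPolygon.U_ne_top a) ?_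
    unfold HexPolygon.U
    refine ENNReal.tsum_mono_subtype HexPolygon.wt (s := {L | HexPolygon.Polygon L ∧ ∃ p ∈ L, (b : ℤ) < p.2})
      (t := {L | HexPolygon.Polygon L ∧ ∃ p ∈ L, (a : ℤ) < p.2}) ?_
    rintro L ⟨h3, p, hp, h4⟩
    refine ⟨h3, p, hp, lt_of_le_of_lt ?_ h4⟩
    exact_mod_cast hab
  have hUN := U_pos N
  have hM0 : 0 < M := U_pos 0
  have e2 : ∀ T : ℕ, 1 ≤ T → (T : ℝ) ^ (-2 : ℝ) = ((T : ℝ) ^ 2)⁻¹ := by
    intro T hT
    rw [Real.rpow_neg (by positivity)]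
    norm_num
  refine ⟨min (κ / 2) (HexPolygon.U N).toReal, 2 * κ + M * N ^ 2, by positivity, by positivity, fun T hT => ?_⟩
  have hT1 : (1 : ℝ) ≤ T := by exact_mod_cast hT
  have hTp : (0 : ℝ) < (T : ℝ) ^ 2 := by positivity
  rw [e2 T hT]
  rcases Nat.lt_or_ge T N with hlt | hge
  · constructor
    · calc min (κ / 2) (HexPolygon.U N).toReal * ((T : ℝ) ^ 2)⁻¹ ≤ (HexPolygon.U N).toReal * 1 := by
            apply mul_le_mul (min_le_right _ _) _ (by positivity) hUN.le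
            exact inv_le_one_of_one_le₀ (one_le_pow₀ hT1)
        _ ≤ _ := by rw [mul_one]; exact hmono T N hlt.le
    · have h1 : (T : ℝ) ≤ N := by exact_mod_cast hlt.le
      have h2 : 1 ≤ (N : ℝ) ^ 2 * ((T : ℝ) ^ 2)⁻¹ := by
        rw [← div_eq_mul_inv, le_div_iff₀ hTp]
        nlinarith
      have h3 := hmono 0 T (Nat.zero_le _)
      calc (HexPolygon.U T).toReal ≤ M * 1 := by rw [mul_one]; exact h3
        _ ≤ M * ((N : ℝ) ^ 2 * ((T : ℝ) ^ 2)⁻¹) := mul_le_mul_of_nonneg_left h2 hM0.le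
        _ ≤ _ := by
          have : 0 ≤ 2 * κ * ((T : ℝ) ^ 2)⁻¹ := by positivity
          nlinarith
  · obtain ⟨h1, h2⟩ := hN T hge
    constructor
    · calc min (κ / 2) (HexPolygon.U N).toReal * ((T : ℝ) ^ 2)⁻¹ ≤ κ / 2 * ((T : ℝ) ^ 2)⁻¹ := by
            gcongr; exact min_le_left _ _
        _ ≤ _ := by
          rw [← div_eq_mul_inv, div_le_iff₀ hTp]
          linarith
    · rw [← div_eq_mul_inv, le_div_iff₀ hTp]
      have : 0 ≤ M * (N : ℝ) ^ 2 := by positivity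
      linarith

lemma PW_hi : ∃ C : ℝ, 0 < C ∧ ∀ T : ℕ, 1 ≤ T →
    gf {t | t ∈ PW ∧ t ∉ AR T} ≤ ENNReal.ofReal (C * (T : ℝ) ^ (-2 : ℝ)) := by
  obtain ⟨c, C, hc, hC, h⟩ := U_two
  have hx := xc_pos
  refine ⟨xc * C, by positivity, fun T hT => ?_⟩
  rw [gf_PW_U hT, mul_assoc, ENNReal.ofReal_mul hx.le]
  refine mul_le_mul' le_rfl ?_
  rw [← ENNReal.ofReal_toReal (HexPolygon.U_ne_top T)]
  exact ENNReal.ofReal_le_ofReal (h T hT).2

lemma PW_lo : ∃ c : ℝ, 0 < c ∧ ∀ T : ℕ, 1 ≤ T →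
    ENNReal.ofReal (c * (T : ℝ) ^ (-2 : ℝ)) ≤ gf {t | t ∈ PW ∧ t ∉ AR T} := by
  obtain ⟨c, C, hc, hC, h⟩ := U_two
  have hx := xc_pos
  refine ⟨xc * c, by positivity, fun T hT => ?_⟩
  rw [gf_PW_U hT, mul_assoc, ENNReal.ofReal_mul hx.le]
  refine mul_le_mul' le_rfl ?_
  rw [← ENNReal.ofReal_toReal (HexPolygon.U_ne_top T)]
  exact ENNReal.ofReal_le_ofReal (h T hT).1

/-- polygons by the number of letters -/
theorem polygons_letters (hM : ∀ a' : ℝ, 4 / 3 < a' → ∃ C : ℝ, 0 ≤ C ∧ MeanLen a' C)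
    (hL : LongWalks (1 / 3)) : Hi (tl PW) (-(3 / 2)) ∧ Lo (tl PW) (-(3 / 2)) := by
  constructor
  · have := tail_hi (a0 := 4 / 3) (s := 2) (by norm_num) hM (by norm_num) gf_PW_ne AR
      (fun T _ t _ h => Or.inr h) PW_hi
    norm_num at this ⊢
    exact this
  · have := tail_lo (β0 := 1 + 1 / 3) (s := 2) (by norm_num) (fun β h0 hβ =>
      exp_up (τ1 := 1 / 3) (by norm_num) (fun _ _ hτ hττ hε hε1 => pow_up (by norm_num) hL hτ hττ hε hε1) hβ)
      (by norm_num) gf_PW_ne AR (fun T _ t h1 h2 => ARC_high (AP_ARC h1.1) h2) PW_lo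
    norm_num at this ⊢
    exact this

end BrL

end HexObs
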