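import Pool.Agent.NUX.Ren1

/-! Power bounds with an arbitrarily small loss in the exponent (helper37, TARGET-E). -/

namespace NUX

open Finset

/-- `g n ≤ n^(a+o(1))` -/
def Hi (g : ℕ → ℝ) (a : ℝ) : Prop := ∀ ε > 0, ∃ C > 0, ∀ n : ℕ, 1 ≤ n → g n ≤ C * (n : ℝ) ^ (a + ε)

/-- `g n ≥ n^(a-o(1))` -/
def Lo (g : ℕ → ℝ) (a : ℝ) : Prop := ∀ ε > 0, ∃ c > 0, ∀ n : ℕ, 1 ≤ n → c * (n : ℝ) ^ (a - ε) ≤ g n

lemma Hi.of_small {g : ℕ → ℝ} {a : ℝ} {e0 : ℝ} (he : 0 < e0)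
    (h : ∀ ε > 0, ε ≤ e0 → ∃ C > 0, ∀ n : ℕ, 1 ≤ n → g n ≤ C * (n : ℝ) ^ (a + ε)) : Hi g a := by
  intro ε hε
  obtain ⟨C, hC, hg⟩ := h (min ε e0) (lt_min hε he) (min_le_right _ _)
  refine ⟨C, hC, fun n hn => (hg n hn).trans (mul_le_mul_of_nonneg_left ?_ hC.le)⟩
  have h1 : (1 : ℝ) ≤ n := by exact_mod_cast hn
  exact Real.rpow_le_rpow_of_exponent_le h1 (by have := min_le_left ε e0; linarith)

lemma Lo.of_small {g : ℕ → ℝ} {a : ℝ} {e0 : ℝ} (he : 0 < e0)
    (h : ∀ ε > 0, ε ≤ e0 → ∃ c > 0, ∀ n : ℕ, 1 ≤ n → c * (n : ℝ) ^ (a - ε) ≤ g n) : Lo g a := by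
  intro ε hε
  obtain ⟨C, hC, hg⟩ := h (min ε e0) (lt_min hε he) (min_le_right _ _)
  refine ⟨C, hC, fun n hn => (mul_le_mul_of_nonneg_left ?_ hC.le).trans (hg n hn)⟩
  have h1 : (1 : ℝ) ≤ n := by exact_mod_cast hn
  exact Real.rpow_le_rpow_of_exponent_le h1 (by have := min_le_left ε e0; linarith)

variable {f u : ℕ → ℝ} {α : ℝ}

lemma UU_mono (h : Ren f u) : Monotone (UU u) :=
  monotone_nat_of_le_succ fun n => by
    have := u_nonneg h (n + 1)
    have e : UU u (n + 1) = UU u n + u (n + 1) := by unfold UU; rw [sum_range_succ]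
    linarith

lemma UU_pos (h : Ren f u) (n : ℕ) : 1 ≤ UU u n := by
  have := UU_mono h (Nat.zero_le n)
  have e : UU u 0 = 1 := by simp [UU, h.u0]
  linarith

lemma mm_hi (h : Ren f u) (hU : Lo (UU u) α) : Hi (mm f) (1 - α) := by
  intro ε hε
  obtain ⟨c, hc, hg⟩ := hU ε hε
  refine ⟨3 / c, by positivity, fun n hn => ?_⟩
  have hn1 : (1 : ℝ) ≤ n := by exact_mod_cast hn
  have hn0 : (0 : ℝ) < n := by linarith
  have h1 := hg n hn
  have h2 := UM_upper h n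
  have h3 := mm_mono h (Nat.le_succ n)
  have hm := mm_nonneg h (n + 1)
  have h4 : c * (n : ℝ) ^ (α - ε) * mm f (n + 1) ≤ 3 * n := by
    have := mul_le_mul_of_nonneg_right h1 hm
    linarith
  have hp : (0 : ℝ) < (n : ℝ) ^ (α - ε) := Real.rpow_pos_of_pos hn0 _
  have h5 : mm f (n + 1) ≤ 3 * n / (c * (n : ℝ) ^ (α - ε)) := by
    rw [le_div_iff₀ (by positivity)]; linarith
  have e : 3 * (n : ℝ) / (c * (n : ℝ) ^ (α - ε)) = 3 / c * (n : ℝ) ^ (1 - α + ε) := by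
    have : (n : ℝ) ^ (1 - α + ε) = (n : ℝ) / (n : ℝ) ^ (α - ε) := by
      rw [show 1 - α + ε = 1 - (α - ε) by ring, Real.rpow_sub hn0, Real.rpow_one]
    rw [this]; field_simp
  rw [← e]; exact h3.trans h5

lemma mm_lo (h : Ren f u) (hU : Hi (UU u) α) : Lo (mm f) (1 - α) := by
  intro ε hε
  obtain ⟨C, hC, hg⟩ := hU ε hε
  refine ⟨1 / C, by positivity, fun n hn => ?_⟩
  have hn1 : (1 : ℝ) ≤ n := by exact_mod_cast hn
  have hn0 : (0 : ℝ) < n := by linarith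
  obtain ⟨k, rfl⟩ : ∃ k, n = k + 1 := ⟨n - 1, by omega⟩
  have h1 := hg (k + 1) hn
  have h2 := UM_lower h k
  have h3 := UU_mono h (Nat.le_succ k)
  have hm := mm_nonneg h (k + 1)
  have h4 : ((k + 1 : ℕ) : ℝ) ≤ C * ((k + 1 : ℕ) : ℝ) ^ (α + ε) * mm f (k + 1) := by
    have := mul_le_mul_of_nonneg_right (h3.trans h1) hm
    push_cast at *
    linarith
  have hp : (0 : ℝ) < ((k + 1 : ℕ) : ℝ) ^ (α + ε) := Real.rpow_pos_of_pos hn0 _
  have e : 1 / C * ((k + 1 : ℕ) : ℝ) ^ (1 - α - ε) = ((k + 1 : ℕ) : ℝ) / (C * ((k + 1 : ℕ) : ℝ) ^ (α + ε)) := by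
    rw [show 1 - α - ε = 1 - (α + ε) by ring, Real.rpow_sub hn0, Real.rpow_one]; field_simp
  rw [e, div_le_iff₀ (by positivity)]
  linarith

lemma Fb_hi (h : Ren f u) (hm : Hi (mm f) (1 - α)) : Hi (Fb f) (-α) := by
  intro ε hε
  obtain ⟨C, hC, hg⟩ := hm ε hε
  refine ⟨C, hC, fun n hn => ?_⟩
  have hn1 : (1 : ℝ) ≤ n := by exact_mod_cast hn
  have hn0 : (0 : ℝ) < n := by linarith
  have h1 := mul_Fb_le h n
  have h2 := hg n hn
  have e : (n : ℝ) ^ (1 - α + ε) = n * (n : ℝ) ^ (-α + ε) := by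
    rw [show 1 - α + ε = 1 + (-α + ε) by ring, Real.rpow_add hn0, Real.rpow_one]
  rw [e] at h2
  have : (n : ℝ) * Fb f n ≤ n * (C * (n : ℝ) ^ (-α + ε)) := by linarith
  exact le_of_mul_le_mul_left this hn0

lemma Fb_lo (h : Ren f u) (hα : 0 < α) (hα1 : α < 1) (hm : Hi (mm f) (1 - α)) (hl : Lo (mm f) (1 - α)) :
    Lo (Fb f) (-α) := by
  apply Lo.of_small (e0 := 1) one_pos
  intro ε hε hε1
  set η := ε / 2 with hη
  have hη0 : 0 < η := by positivity
  have hη1 : η ≤ 1 := by rw [hη]; linarith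
  set β := 1 - α with hβ
  have hβ0 : 0 < β := by rw [hβ]; linarith
  have hβ1 : β < 1 := by rw [hβ]; linarith
  set e := η * β / 3 with he
  have he0 : 0 < e := by positivity
  have he1 : e * 3 = η * β := by rw [he]; ring
  have heη : e ≤ η / 3 := by nlinarith
  have heb : e < β := by nlinarith
  obtain ⟨C1, hC1, hg1⟩ := hm e he0
  obtain ⟨c1, hc1, hg2⟩ := hl e he0
  have hbe : 0 < β - e := by linarith
  set B := (2 * C1 / c1 + 1) ^ (1 / (β - e)) with hB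
  have hbase : 1 ≤ 2 * C1 / c1 + 1 := by have : 0 ≤ 2 * C1 / c1 := by positivity
                                         linarith
  have hB1 : 1 ≤ B := Real.one_le_rpow hbase (by positivity)
  have hBp : B ^ (β - e) = 2 * C1 / c1 + 1 := by
    rw [hB, ← Real.rpow_mul (by linarith), one_div_mul_cancel hbe.ne', Real.rpow_one]
  refine ⟨c1 / 2 * (B + 1) ^ (β - e - 1), by positivity, fun M hM => ?_⟩
  have hM1 : (1 : ℝ) ≤ M := by exact_mod_cast hM
  have hM0 : (0 : ℝ) < M := by linarith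
  set K := ⌈B * (M : ℝ) ^ (1 + η)⌉₊ with hK
  have hX1 : (M : ℝ) ≤ (M : ℝ) ^ (1 + η) := by
    conv_lhs => rw [← Real.rpow_one (M : ℝ)]
    exact Real.rpow_le_rpow_of_exponent_le hM1 (by linarith)
  have hKge : B * (M : ℝ) ^ (1 + η) ≤ K := Nat.le_ceil _
  have hKle : (K : ℝ) ≤ (B + 1) * (M : ℝ) ^ (1 + η) := by
    have := (Nat.ceil_lt_add_one (show 0 ≤ B * (M : ℝ) ^ (1 + η) by positivity)).le
    rw [← hK] at this
    nlinarith
  have hMK : M ≤ K := by
    have : (M : ℝ) ≤ K := by nlinarith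
    exact_mod_cast this
  have hK1 : 1 ≤ K := hM.trans hMK
  have hKr : (0 : ℝ) < K := by exact_mod_cast hK1
  have h1 := hg1 M hM
  have h2 := hg2 K hK1
  -- 2 C1 M^(β+e) ≤ c1 K^(β-e)
  have h3 : 2 * (C1 * (M : ℝ) ^ (β + e)) ≤ c1 * (K : ℝ) ^ (β - e) := by
    have k1 : (B * (M : ℝ) ^ (1 + η)) ^ (β - e) ≤ (K : ℝ) ^ (β - e) :=
      Real.rpow_le_rpow (by positivity) hKge hbe.le
    have k2 : (B * (M : ℝ) ^ (1 + η)) ^ (β - e) = (2 * C1 / c1 + 1) * (M : ℝ) ^ ((1 + η) * (β - e)) := by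
      rw [Real.mul_rpow (by positivity) (by positivity), hBp, ← Real.rpow_mul hM0.le]
    have k3 : (M : ℝ) ^ (β + e) ≤ (M : ℝ) ^ ((1 + η) * (β - e)) :=
      Real.rpow_le_rpow_of_exponent_le hM1 (by nlinarith)
    have k4 : c1 * ((2 * C1 / c1 + 1) * (M : ℝ) ^ ((1 + η) * (β - e)))
        = (2 * C1 + c1) * (M : ℝ) ^ ((1 + η) * (β - e)) := by field_simp
    have k5 : 0 < (M : ℝ) ^ (β + e) := by positivity
    calc 2 * (C1 * (M : ℝ) ^ (β + e)) ≤ (2 * C1 + c1) * (M : ℝ) ^ (β + e) := by nlinarith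
      _ ≤ (2 * C1 + c1) * (M : ℝ) ^ ((1 + η) * (β - e)) := by gcongr
      _ = c1 * (B * (M : ℝ) ^ (1 + η)) ^ (β - e) := by rw [k2, k4]
      _ ≤ _ := by gcongr
  have h4 := mm_sub_le h hMK
  have hFM := Fb_nonneg h M
  have h5 : c1 / 2 * (K : ℝ) ^ (β - e) ≤ K * Fb f M := by
    have : ((K : ℝ) - M) * Fb f M ≤ K * Fb f M := by nlinarith
    linarith
  have h6 : c1 / 2 * (K : ℝ) ^ (β - e - 1) ≤ Fb f M := by
    have : (K : ℝ) ^ (β - e) = K * (K : ℝ) ^ (β - e - 1) := by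
      rw [show β - e = 1 + (β - e - 1) by ring, Real.rpow_add hKr, Real.rpow_one]
      ring_nf
    rw [this] at h5
    have h7 : (K : ℝ) * (c1 / 2 * (K : ℝ) ^ (β - e - 1)) ≤ K * Fb f M := by linarith
    exact le_of_mul_le_mul_left h7 hKr
  refine le_trans ?_ h6
  rw [mul_assoc]
  apply mul_le_mul_of_nonneg_left _ (by positivity)
  calc (B + 1) ^ (β - e - 1) * (M : ℝ) ^ (-α - ε)
      ≤ (B + 1) ^ (β - e - 1) * (M : ℝ) ^ ((1 + η) * (β - e - 1)) := by
        apply mul_le_mul_of_nonneg_left _ (by positivity)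
        apply Real.rpow_le_rpow_of_exponent_le hM1
        have : β - e - 1 = -(α + e) := by rw [hβ]; ring
        rw [this]
        have : ε = 2 * η := by rw [hη]; ring
        nlinarith
    _ = ((B + 1) * (M : ℝ) ^ (1 + η)) ^ (β - e - 1) := by
        rw [Real.mul_rpow (by positivity) (by positivity), ← Real.rpow_mul hM0.le]
    _ ≤ (K : ℝ) ^ (β - e - 1) :=
        Real.rpow_le_rpow_of_nonpos hKr hKle (by linarith)

lemma S2_lo (h : Ren f u) (hα : 0 < α) (hα1 : α < 1) (hF : Hi (Fb f) (-α)) (hl : Lo (Fb f) (-α)) :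
    Lo (S2 f) (2 - α) := by
  apply Lo.of_small (e0 := 1) one_pos
  intro ε hε hε1
  set η := ε / 3 with hη
  have hη0 : 0 < η := by positivity
  have hη1 : η ≤ 1 := by rw [hη]; linarith
  set e := η * α / 3 with he
  have he0 : 0 < e := by positivity
  have he1 : e * 3 = η * α := by rw [he]; ring
  have heη : e ≤ η / 3 := by nlinarith
  have heb : e < α := by nlinarith
  obtain ⟨C2, hC2, hg1⟩ := hF e he0
  obtain ⟨c2, hc2, hg2⟩ := hl e he0
  have hbe : 0 < α - e := by linarith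
  set B := (2 * C2 / c2 + 1) ^ (1 / (α - e)) with hB
  have hbase : 1 ≤ 2 * C2 / c2 + 1 := by have : 0 ≤ 2 * C2 / c2 := by positivity
                                         linarith
  have hB1 : 1 ≤ B := Real.one_le_rpow hbase (by positivity)
  have hBp : B ^ (α - e) = 2 * C2 / c2 + 1 := by
    rw [hB, ← Real.rpow_mul (by linarith), one_div_mul_cancel hbe.ne', Real.rpow_one]
  have hf1 := h.f1
  refine ⟨min (f 1 * B ^ (-(2 - α - ε))) (c2 / 2 * 2 ^ (-(2 - α - e)) * B ^ (-(2 - α - ε))), by positivity,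
    fun N hN => ?_⟩
  have hN1 : (1 : ℝ) ≤ N := by exact_mod_cast hN
  have hN0 : (0 : ℝ) < N := by linarith
  have hexp : 0 ≤ 2 - α - ε := by linarith
  have hNB : (N : ℝ) ^ (2 - α - ε) * B ^ (-(2 - α - ε)) = (N / B) ^ (2 - α - ε) := by
    rw [Real.div_rpow hN0.le (by linarith), Real.rpow_neg (by linarith)]; rfl
  by_cases hc : (N : ℝ) < B
  · have h1 : (N / B) ^ (2 - α - ε) ≤ 1 :=
      Real.rpow_le_one (by positivity) (by rw [div_le_one (by linarith)]; exact hc.le) hexp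
    calc min (f 1 * B ^ (-(2 - α - ε))) (c2 / 2 * 2 ^ (-(2 - α - e)) * B ^ (-(2 - α - ε))) * (N : ℝ) ^ (2 - α - ε)
        ≤ f 1 * B ^ (-(2 - α - ε)) * (N : ℝ) ^ (2 - α - ε) := by gcongr; exact min_le_left _ _
      _ = f 1 * (N / B) ^ (2 - α - ε) := by rw [← hNB]; ring
      _ ≤ f 1 := by nlinarith
      _ ≤ _ := S2_ge_one h hN
  · push Not at hc
    have hNB1 : 1 ≤ (N : ℝ) / B := by rw [le_div_iff₀ (by linarith)]; linarith
    set X := ((N : ℝ) / B) ^ (1 / (1 + η)) with hX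
    have hX1 : 1 ≤ X := Real.one_le_rpow hNB1 (by positivity)
    set M := ⌊X⌋₊ with hM
    have hMle : (M : ℝ) ≤ X := Nat.floor_le (by linarith)
    have hM1 : 1 ≤ M := Nat.le_floor (by simpa using hX1)
    have hM1r : (1 : ℝ) ≤ M := by exact_mod_cast hM1
    have hM0 : (0 : ℝ) < M := by linarith
    have hMge : X / 2 ≤ M := by
      have := Nat.lt_floor_add_one X
      rw [← hM] at this
      linarith
    have hXN : X ^ (1 + η) = N / B := by
      rw [hX, ← Real.rpow_mul (by positivity), one_div_mul_cancel (by linarith), Real.rpow_one]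
    have hXle : X ≤ N := by
      have h1 : X ≤ X ^ (1 + η) := by
        conv_lhs => rw [← Real.rpow_one X]
        exact Real.rpow_le_rpow_of_exponent_le hX1 (by linarith)
      rw [hXN] at h1
      exact h1.trans (div_le_self hN0.le hB1)
    have hMN : M ≤ N := by have := hMle.trans hXle; exact_mod_cast this
    have h1 := hg1 N hN
    have h2 := hg2 M hM1
    have h3 : C2 * (N : ℝ) ^ (-α + e) ≤ c2 / 2 * (M : ℝ) ^ (-α - e) := by
      have k0 : B * (M : ℝ) ^ (1 + η) ≤ N := by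
        have : (M : ℝ) ^ (1 + η) ≤ N / B := by
          rw [← hXN]; exact Real.rpow_le_rpow hM0.le hMle (by linarith)
        rw [le_div_iff₀ (by linarith)] at this
        linarith
      have k1 : (N : ℝ) ^ (-α + e) ≤ (B * (M : ℝ) ^ (1 + η)) ^ (-α + e) :=
        Real.rpow_le_rpow_of_nonpos (by positivity) k0 (by linarith)
      have k2 : (B * (M : ℝ) ^ (1 + η)) ^ (-α + e) = (2 * C2 / c2 + 1)⁻¹ * (M : ℝ) ^ ((1 + η) * (-α + e)) := by
        rw [Real.mul_rpow (by positivity) (by positivity), ← Real.rpow_mul hM0.le,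
          show -α + e = -(α - e) by ring, Real.rpow_neg (by linarith), hBp]
      have k3 : (M : ℝ) ^ ((1 + η) * (-α + e)) ≤ (M : ℝ) ^ (-α - e) :=
        Real.rpow_le_rpow_of_exponent_le hM1r (by nlinarith)
      have k4 : C2 * (2 * C2 / c2 + 1)⁻¹ ≤ c2 / 2 := by
        rw [← div_eq_mul_inv, div_le_iff₀ (by positivity)]
        have : c2 / 2 * (2 * C2 / c2 + 1) = C2 + c2 / 2 := by field_simp
        rw [this]; linarith
      calc C2 * (N : ℝ) ^ (-α + e) ≤ C2 * ((2 * C2 / c2 + 1)⁻¹ * (M : ℝ) ^ ((1 + η) * (-α + e))) := by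
            rw [← k2]; gcongr
        _ = C2 * (2 * C2 / c2 + 1)⁻¹ * (M : ℝ) ^ ((1 + η) * (-α + e)) := by ring
        _ ≤ c2 / 2 * (M : ℝ) ^ ((1 + η) * (-α + e)) := by gcongr
        _ ≤ _ := by gcongr
    have h4 := S2_ge h hMN
    have h5 : c2 / 2 * (M : ℝ) ^ (2 - α - e) ≤ S2 f N := by
      have : (M : ℝ) ^ (2 - α - e) = (M : ℝ) ^ 2 * (M : ℝ) ^ (-α - e) := by
        rw [show 2 - α - e = 2 + (-α - e) by ring, Real.rpow_add hM0]; norm_num
      rw [this]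
      have h6 : (M : ℝ) ^ 2 * (c2 / 2 * (M : ℝ) ^ (-α - e)) ≤ (M : ℝ) ^ 2 * (Fb f M - Fb f N) :=
        mul_le_mul_of_nonneg_left (by linarith) (by positivity)
      linarith
    have hex2 : 0 ≤ 2 - α - e := by linarith
    have h7 : 2 ^ (-(2 - α - e)) * (N / B) ^ (2 - α - ε) ≤ (M : ℝ) ^ (2 - α - e) := by
      calc (2 : ℝ) ^ (-(2 - α - e)) * (N / B) ^ (2 - α - ε)
          ≤ 2 ^ (-(2 - α - e)) * X ^ (2 - α - e) := by
            apply mul_le_mul_of_nonneg_left _ (by positivity)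
            rw [← hXN, ← Real.rpow_mul (by linarith)]
            apply Real.rpow_le_rpow_of_exponent_le hX1
            have : ε = 3 * η := by rw [hη]; ring
            nlinarith
        _ = (X / 2) ^ (2 - α - e) := by
            rw [Real.div_rpow (by linarith) (by norm_num), Real.rpow_neg (by norm_num)]; field_simp
        _ ≤ _ := Real.rpow_le_rpow (by linarith) hMge hex2
    calc min (f 1 * B ^ (-(2 - α - ε))) (c2 / 2 * 2 ^ (-(2 - α - e)) * B ^ (-(2 - α - ε))) * (N : ℝ) ^ (2 - α - ε)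
        ≤ c2 / 2 * 2 ^ (-(2 - α - e)) * B ^ (-(2 - α - ε)) * (N : ℝ) ^ (2 - α - ε) := by
          gcongr; exact min_le_right _ _
      _ = c2 / 2 * (2 ^ (-(2 - α - e)) * (N / B) ^ (2 - α - ε)) := by rw [← hNB]; ring
      _ ≤ c2 / 2 * (M : ℝ) ^ (2 - α - e) := by gcongr
      _ ≤ _ := h5

end NUX
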