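import Pool.Agent.NUX.Ren2

/-! Generating functions of a renewal sequence on a circle (helper37, TARGET-E). -/

namespace NUX

open Finset Complex

/-- point of the circle of radius `r` -/
noncomputable def zz (r θ : ℝ) : ℂ := (r : ℂ) * Complex.exp (θ * I)

noncomputable def gf (a : ℕ → ℝ) (z : ℂ) : ℂ := ∑' k, (a k : ℂ) * z ^ k

lemma norm_zz {r : ℝ} (hr : 0 ≤ r) (θ : ℝ) : ‖zz r θ‖ = r := by
  unfold zz
  rw [norm_mul, Complex.norm_exp_ofReal_mul_I, mul_one, Complex.norm_real, Real.norm_of_nonneg hr]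

lemma zz_pow (r θ : ℝ) (k : ℕ) : zz r θ ^ k = ((r ^ k : ℝ) : ℂ) * Complex.exp ((k * θ : ℝ) * I) := by
  unfold zz
  rw [mul_pow, ← Complex.exp_nat_mul]; push_cast; ring_nf

lemma zz_pow_re (r θ : ℝ) (k : ℕ) : (zz r θ ^ k).re = r ^ k * Real.cos (k * θ) := by
  rw [zz_pow, Complex.re_ofReal_mul, Complex.exp_ofReal_mul_I_re]

lemma summable_of_le_one {a : ℕ → ℝ} (h0 : ∀ k, |a k| ≤ 1) {z : ℂ} (hz : ‖z‖ < 1) :
    Summable fun k => ‖(a k : ℂ) * z ^ k‖ := by
  refine Summable.of_nonneg_of_le (fun k => norm_nonneg _) (fun k => ?_) (summable_geometric_of_lt_one (norm_nonneg z) hz)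
  rw [norm_mul, norm_pow, Complex.norm_real, Real.norm_eq_abs]
  exact mul_le_of_le_one_left (by positivity) (h0 k)

variable {f u : ℕ → ℝ} {α : ℝ}

lemma f_le_one (h : Ren f u) (k : ℕ) : f k ≤ 1 := le_hasSum h.fsum k fun j _ => h.fnn j

lemma abs_f (h : Ren f u) (k : ℕ) : |f k| ≤ 1 := by rw [abs_of_nonneg (h.fnn k)]; exact f_le_one h k
lemma abs_u (h : Ren f u) (k : ℕ) : |u k| ≤ 1 := by rw [abs_of_nonneg (u_nonneg h k)]; exact u_le_one h k

lemma gf_mul (h : Ren f u) {z : ℂ} (hz : ‖z‖ < 1) : gf u z * (1 - gf f z) = 1 := by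
  have hu := summable_of_le_one (abs_u h) hz
  have hf := summable_of_le_one (abs_f h) hz
  have hp := tsum_mul_tsum_eq_tsum_sum_range_of_summable_norm hu hf
  have e : ∀ n, ∑ k ∈ range (n + 1), (u k : ℂ) * z ^ k * ((f (n - k) : ℂ) * z ^ (n - k))
      = (if n = 0 then 0 else (u n : ℂ)) * z ^ n := by
    intro n
    have e1 : ∀ k ∈ range (n + 1), (u k : ℂ) * z ^ k * ((f (n - k) : ℂ) * z ^ (n - k))
        = ((u k * f (n - k) : ℝ) : ℂ) * z ^ n := by
      intro k hk
      have : k ≤ n := by have := mem_range.1 hk; omega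
      have e2 : z ^ n = z ^ k * z ^ (n - k) := by rw [← pow_add]; congr 1; omega
      rw [e2]; push_cast; ring
    rw [sum_congr rfl e1, ← sum_mul]
    congr 1
    rcases n with _ | n
    · simp [h.f0]
    · rw [if_neg (by omega), sum_range_succ, Nat.sub_self, h.f0, h.urec]
      push_cast; simp
  have e3 : gf u z * gf f z = gf u z - 1 := by
    unfold gf
    rw [hp, tsum_congr e]
    have hs : Summable fun k => (u k : ℂ) * z ^ k := hu.of_norm
    have h1 : (∑' k, (u k : ℂ) * z ^ k) = 1 + ∑' k, (u (k + 1) : ℂ) * z ^ (k + 1) := by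
      rw [hs.tsum_eq_zero_add]; simp [h.u0]
    have hs2 : Summable fun n : ℕ => (if n = 0 then 0 else (u n : ℂ)) * z ^ n := by
      rw [← summable_nat_add_iff 1]
      simpa using (summable_nat_add_iff 1).2 hs
    rw [hs2.tsum_eq_zero_add, h1]
    simp
  rw [mul_sub, mul_one, e3]; ring

/-- real part of `1 - F` as a sum of non-negative terms -/
lemma hasSum_re (h : Ren f u) {r : ℝ} (hr : 0 ≤ r) (hr1 : r < 1) (θ : ℝ) :
    HasSum (fun k => f k * (1 - r ^ k * Real.cos (k * θ))) (1 - gf f (zz r θ)).re := by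
  have hz : ‖zz r θ‖ < 1 := by rw [norm_zz hr]; exact hr1
  have h1 : HasSum (fun k => (f k : ℂ) * zz r θ ^ k) (gf f (zz r θ)) :=
    (summable_of_le_one (abs_f h) hz).of_norm.hasSum
  have h2 := Complex.hasSum_re h1
  have h3 := h.fsum.sub h2
  rw [Complex.sub_re, Complex.one_re]
  refine h3.congr_fun ?_ |> fun x => x
  intro k
  rw [Complex.re_ofReal_mul, zz_pow_re]; ring

lemma term_nonneg (h : Ren f u) {r : ℝ} (hr : 0 ≤ r) (hr1 : r < 1) (θ : ℝ) (k : ℕ) :
    0 ≤ f k * (1 - r ^ k * Real.cos (k * θ)) := by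
  apply mul_nonneg (h.fnn k)
  have h1 : r ^ k ≤ 1 := pow_le_one₀ hr hr1.le
  have h2 : 0 ≤ r ^ k := pow_nonneg hr k
  have h3 := Real.cos_le_one (k * θ)
  nlinarith

/-- lower bound by the tail -/
lemma re_ge_tail (h : Ren f u) {n : ℕ} (hn : 1 ≤ n) (θ : ℝ) :
    (1 / 2) * Fb f n ≤ (1 - gf f (zz (Real.exp (-(1 / n))) θ)).re := by
  have hn0 : (0 : ℝ) < n := by exact_mod_cast hn
  set r := Real.exp (-(1 / (n : ℝ))) with hr
  have hr0 : 0 ≤ r := (Real.exp_pos _).le
  have hr1 : r < 1 := by rw [hr, Real.exp_lt_one_iff, neg_lt_zero]; positivity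
  have hs := hasSum_re h hr0 hr1 θ
  -- compare with f k * (1/2) on k > n
  have h1 : HasSum (fun k => if k ≤ n then 0 else f k * (1 / 2)) ((1 / 2) * Fb f n) := by
    have ha := h.fsum.mul_right (1 / 2 : ℝ)
    have hb : HasSum (fun k => if k ≤ n then f k * (1 / 2) else 0) (∑ k ∈ range (n + 1), f k * (1 / 2)) := by
      have : ∑ k ∈ range (n + 1), f k * (1 / 2) = ∑ k ∈ range (n + 1), (if k ≤ n then f k * (1 / 2 : ℝ) else 0) :=
        sum_congr rfl fun k hk => by rw [if_pos]; have := mem_range.1 hk; omega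
      rw [this]
      exact hasSum_sum_of_ne_finset_zero
        (fun b hb => by rw [if_neg]; intro hc; exact hb (mem_range.2 (by omega)))
    have hc := ha.sub hb
    have e1 : (fun k => if k ≤ n then 0 else f k * (1 / 2)) = fun b => f b * (1 / 2) - if b ≤ n then f b * (1 / 2) else 0 := by
      funext k; split_ifs <;> simp
    have e2 : (1 / 2) * Fb f n = 1 * (1 / 2) - ∑ k ∈ range (n + 1), f k * (1 / 2) := by
      unfold Fb; rw [← sum_mul]; ring
    rw [e1, e2]; exact hc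
  refine hasSum_le (fun k => ?_) h1 hs
  split_ifs with hk
  · exact term_nonneg h hr0 hr1 θ k
  · push Not at hk
    apply mul_le_mul_of_nonneg_left _ (h.fnn k)
    have h2 : r ^ k ≤ 1 / 2 := by
      rw [hr, ← Real.exp_nat_mul]
      have h3 : (k : ℝ) * -(1 / n) ≤ -1 := by
        have : (n : ℝ) ≤ k := by exact_mod_cast hk.le
        have h4 : (1 : ℝ) ≤ k / n := by rw [le_div_iff₀ hn0]; linarith
        have : (k : ℝ) * -(1 / n) = -(k / n) := by ring
        linarith
      calc Real.exp (k * -(1 / n)) ≤ Real.exp (-1) := Real.exp_le_exp.2 h3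
        _ ≤ 1 / 2 := by
          rw [Real.exp_neg, inv_eq_one_div]
          apply one_div_le_one_div_of_le (by norm_num)
          have := Real.add_one_le_exp (1 : ℝ); linarith
    have h4 : 0 ≤ r ^ k := pow_nonneg hr0 k
    have h5 := Real.cos_le_one (k * θ)
    nlinarith

/-- lower bound by the truncated second moment -/
lemma re_ge_S2 (h : Ren f u) {n N : ℕ} (hn : 1 ≤ n) (hNn : N ≤ n) {θ : ℝ} (hθ : (N : ℝ) * |θ| ≤ Real.pi) :
    (2 / Real.pi ^ 2 / Real.exp 1) * (θ ^ 2 * S2 f N) ≤ (1 - gf f (zz (Real.exp (-(1 / n))) θ)).re := by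
  have hn0 : (0 : ℝ) < n := by exact_mod_cast hn
  set r := Real.exp (-(1 / (n : ℝ))) with hr
  have hr0 : 0 ≤ r := (Real.exp_pos _).le
  have hr1 : r < 1 := by rw [hr, Real.exp_lt_one_iff, neg_lt_zero]; positivity
  have hs := hasSum_re h hr0 hr1 θ
  have h1 := sum_le_hasSum (range (N + 1)) (fun k _ => term_nonneg h hr0 hr1 θ k) hs
  refine le_trans ?_ h1
  unfold S2
  rw [mul_sum, mul_sum]
  apply sum_le_sum
  intro k hk
  have hkN : k ≤ N := by have := mem_range.1 hk; omega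
  have hrk : 1 / Real.exp 1 ≤ r ^ k := by
    rw [hr, ← Real.exp_nat_mul, one_div, ← Real.exp_neg]
    apply Real.exp_le_exp.2
    have : (k : ℝ) ≤ n := by exact_mod_cast hkN.trans hNn
    have h4 : (k : ℝ) / n ≤ 1 := by rw [div_le_one hn0]; linarith
    have : (k : ℝ) * -(1 / n) = -(k / n) := by ring
    linarith
  have hr1k : r ^ k ≤ 1 := pow_le_one₀ hr0 hr1.le
  have hcos : Real.cos (k * θ) ≤ 1 - 2 / Real.pi ^ 2 * (k * θ) ^ 2 := by
    apply Real.cos_le_one_sub_mul_cos_sq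
    rw [abs_mul, Nat.abs_cast]
    have : (k : ℝ) ≤ N := by exact_mod_cast hkN
    exact (mul_le_mul_of_nonneg_right this (abs_nonneg θ)).trans hθ
  have hf := h.fnn k
  have h5 : 1 / Real.exp 1 * (2 / Real.pi ^ 2 * (k * θ) ^ 2) ≤ 1 - r ^ k * Real.cos (k * θ) := by
    have h6 : r ^ k * Real.cos (k * θ) ≤ r ^ k * (1 - 2 / Real.pi ^ 2 * (k * θ) ^ 2) :=
      mul_le_mul_of_nonneg_left hcos (pow_nonneg hr0 k)
    have h7 : 1 / Real.exp 1 * (2 / Real.pi ^ 2 * (k * θ) ^ 2) ≤ r ^ k * (2 / Real.pi ^ 2 * (k * θ) ^ 2) :=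
      mul_le_mul_of_nonneg_right hrk (by positivity)
    linarith
  calc 2 / Real.pi ^ 2 / Real.exp 1 * (θ ^ 2 * ((k : ℝ) ^ 2 * f k))
      = f k * (1 / Real.exp 1 * (2 / Real.pi ^ 2 * (k * θ) ^ 2)) := by ring
    _ ≤ _ := mul_le_mul_of_nonneg_left h5 hf

/-- `∑ f k min(k,n) = mm n` -/
lemma hasSum_min (h : Ren f u) (n : ℕ) : HasSum (fun k => f k * (min k n : ℕ)) (mm f n) := by
  have ha := h.fsum.mul_right (n : ℝ)
  have hb : HasSum (fun k => f k * ((n - k : ℕ) : ℝ)) (∑ k ∈ range (n + 1), f k * ((n - k : ℕ) : ℝ)) := by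
    apply hasSum_sum_of_ne_finset_zero
    intro b hb
    have : n - b = 0 := by
      have : ¬ b < n + 1 := fun hc => hb (mem_range.2 hc)
      omega
    simp [this]
  have hc := ha.sub hb
  have e1 : (fun k => f k * ((min k n : ℕ) : ℝ)) = fun b => f b * (n : ℝ) - f b * ((n - b : ℕ) : ℝ) := by
    funext k
    rcases le_total k n with hk | hk
    · rw [Nat.cast_sub hk, min_eq_left hk]; ring
    · rw [min_eq_right hk, Nat.sub_eq_zero_of_le hk]; simp
  have e2 : mm f n = 1 * (n : ℝ) - ∑ k ∈ range (n + 1), f k * ((n - k : ℕ) : ℝ) := by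
    clear ha hb hc e1
    induction n with
    | zero => simp [mm]
    | succ n ih =>
      rw [mm_succ, ih, sum_range_succ _ (n + 1)]
      have e : ∀ k ∈ range (n + 1), f k * ((n + 1 - k : ℕ) : ℝ) = f k * ((n - k : ℕ) : ℝ) + f k := by
        intro k hk
        have : n + 1 - k = (n - k) + 1 := by have := mem_range.1 hk; omega
        rw [this]; push_cast; ring
      rw [sum_congr rfl e, sum_add_distrib]
      unfold Fb
      simp
      ring
  rw [e1, e2]; exact hc

lemma norm_exp_sub (x y : ℝ) : ‖Complex.exp (x * I) - Complex.exp (y * I)‖ ≤ |x - y| := by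
  have h1 : Complex.exp (x * I) - Complex.exp (y * I)
      = Complex.exp (y * I) * (Complex.exp (I * (x - y : ℝ)) - 1) := by
    rw [mul_sub, ← Complex.exp_add, mul_one]; push_cast; ring_nf
  rw [h1, norm_mul, Complex.norm_exp_ofReal_mul_I, one_mul]
  have := Real.norm_exp_I_mul_ofReal_sub_one_le (x := x - y)
  simpa using this

lemma norm_gf_sub (h : Ren f u) {r : ℝ} (hr : 0 ≤ r) (hr1 : r < 1) {n : ℕ} (hn : 1 ≤ n) (θ : ℝ) :
    ‖gf f (zz r θ) - gf f (zz r (θ + Real.pi / n))‖ ≤ Real.pi / n * mm f n := by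
  have hn0 : (0 : ℝ) < n := by exact_mod_cast hn
  have hz : ∀ θ, ‖zz r θ‖ < 1 := fun θ => by rw [norm_zz hr]; exact hr1
  have h1 : ∀ θ, HasSum (fun k => (f k : ℂ) * zz r θ ^ k) (gf f (zz r θ)) := fun θ =>
    (summable_of_le_one (abs_f h) (hz θ)).of_norm.hasSum
  have h2 := (h1 θ).sub (h1 (θ + Real.pi / n))
  have h3 := (hasSum_min h n).mul_left (Real.pi / n)
  refine h2.norm_le_of_bounded h3 fun k => ?_
  rw [← mul_sub, norm_mul, Complex.norm_real, Real.norm_of_nonneg (h.fnn k), zz_pow, zz_pow, ← mul_sub, norm_mul,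
    Complex.norm_real, Real.norm_of_nonneg (pow_nonneg hr k)]
  have hrk : r ^ k ≤ 1 := pow_le_one₀ hr hr1.le
  have hrk0 : 0 ≤ r ^ k := pow_nonneg hr k
  have key : ‖Complex.exp ((k * θ : ℝ) * I) - Complex.exp ((k * (θ + Real.pi / n) : ℝ) * I)‖
      ≤ Real.pi / n * (min k n : ℕ) := by
    rcases le_total k n with hk | hk
    · rw [min_eq_left hk]
      refine (norm_exp_sub _ _).trans (le_of_eq ?_)
      rw [show (k : ℝ) * θ - k * (θ + Real.pi / n) = -(Real.pi / n * k) by ring, abs_neg,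
        abs_of_nonneg (by positivity)]
    · rw [min_eq_right hk]
      refine (norm_sub_le _ _).trans ?_
      rw [Complex.norm_exp_ofReal_mul_I, Complex.norm_exp_ofReal_mul_I, div_mul_cancel₀ _ hn0.ne']
      have := Real.pi_gt_three; linarith
  calc f k * (r ^ k * ‖Complex.exp ((k * θ : ℝ) * I) - Complex.exp ((k * (θ + Real.pi / n) : ℝ) * I)‖)
      ≤ f k * (1 * (Real.pi / n * (min k n : ℕ))) := by
        apply mul_le_mul_of_nonneg_left _ (h.fnn k)
        exact mul_le_mul hrk key (norm_nonneg _) zero_le_one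
    _ = _ := by ring

end NUX
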