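import Pool.Agent.NUX.Ren3

/-! Pointwise bound for renewal sequences of index `> 1/2` (helper37, TARGET-E). -/

namespace NUX

open Finset Complex MeasureTheory

variable {f u : ℕ → ℝ} {α : ℝ}

lemma int_exp (j : ℤ) : ∫ θ in (-Real.pi)..Real.pi, Complex.exp ((j * θ : ℝ) * I) = if j = 0 then 2 * (Real.pi : ℂ) else 0 := by
  by_cases hj : j = 0
  · subst hj
    simp
    ring
  · rw [if_neg hj]
    have hc : ((j : ℂ) * I) ≠ 0 := mul_ne_zero (by exact_mod_cast hj) I_ne_zero
    have h1 : ∀ θ : ℝ, Complex.exp ((j * θ : ℝ) * I) = Complex.exp (((j : ℂ) * I) * θ) := by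
      intro θ; push_cast; ring_nf
    simp_rw [h1]
    rw [integral_exp_mul_complex hc]
    have h2 : Complex.exp ((j : ℂ) * I * (Real.pi : ℝ)) = Complex.exp ((j : ℂ) * I * ((-Real.pi : ℝ) : ℂ)) := by
      have : (j : ℂ) * I * (Real.pi : ℝ) = (j : ℂ) * I * ((-Real.pi : ℝ) : ℂ) + j * (2 * Real.pi * I) := by
        push_cast; ring
      rw [this, Complex.exp_add, Complex.exp_int_mul_two_pi_mul_I, mul_one]
    rw [h2]; simp

lemma cont_gf (h : Ren f u) {r : ℝ} (hr : 0 ≤ r) (hr1 : r < 1) : Continuous fun θ => gf u (zz r θ) := by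
  unfold gf
  refine continuous_tsum (u := fun k => r ^ k) (fun k => ?_) (summable_geometric_of_lt_one hr hr1) (fun k θ => ?_)
  · unfold zz; fun_prop
  · rw [norm_mul, norm_pow, norm_zz hr, Complex.norm_real, Real.norm_eq_abs]
    exact mul_le_of_le_one_left (by positivity) (abs_u h k)

lemma coef (h : Ren f u) {r : ℝ} (hr : 0 ≤ r) (hr1 : r < 1) (n : ℕ) :
    ∫ θ in (-Real.pi)..Real.pi, Complex.exp ((-(n * θ) : ℝ) * I) * gf u (zz r θ)
      = 2 * (Real.pi : ℂ) * ((u n * r ^ n : ℝ) : ℂ) := by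
  have hz : ∀ θ, ‖zz r θ‖ < 1 := fun θ => by rw [norm_zz hr]; exact hr1
  have h1 := intervalIntegral.hasSum_integral_of_dominated_convergence (μ := volume) (a := -Real.pi) (b := Real.pi)
    (F := fun (k : ℕ) (θ : ℝ) => Complex.exp ((-(n * θ) : ℝ) * I) * ((u k : ℂ) * zz r θ ^ k))
    (f := fun θ => Complex.exp ((-(n * θ) : ℝ) * I) * gf u (zz r θ))
    (fun k _ => r ^ k)
    (fun k => by
      apply Continuous.aestronglyMeasurable
      unfold zz; fun_prop)
    (fun k => Filter.Eventually.of_forall fun θ _ => by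
      rw [norm_mul, Complex.norm_exp_ofReal_mul_I, one_mul, norm_mul, norm_pow, norm_zz hr, Complex.norm_real,
        Real.norm_eq_abs]
      exact mul_le_of_le_one_left (by positivity) (abs_u h k))
    (Filter.Eventually.of_forall fun θ _ => summable_geometric_of_lt_one hr hr1)
    (by simp)
    (Filter.Eventually.of_forall fun θ _ =>
      ((summable_of_le_one (abs_u h) (hz θ)).of_norm.hasSum).mul_left _)
  have h2 : ∀ k : ℕ, ∫ θ in (-Real.pi)..Real.pi, Complex.exp ((-(n * θ) : ℝ) * I) * ((u k : ℂ) * zz r θ ^ k)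
      = if k = n then 2 * (Real.pi : ℂ) * ((u n * r ^ n : ℝ) : ℂ) else 0 := by
    intro k
    have e : ∀ θ : ℝ, Complex.exp ((-(n * θ) : ℝ) * I) * ((u k : ℂ) * zz r θ ^ k)
        = ((u k * r ^ k : ℝ) : ℂ) * Complex.exp ((((k : ℤ) - (n : ℤ) : ℤ) * θ : ℝ) * I) := by
      intro θ
      rw [zz_pow]
      have : Complex.exp ((((k : ℤ) - (n : ℤ) : ℤ) * θ : ℝ) * I)
          = Complex.exp ((-(n * θ) : ℝ) * I) * Complex.exp ((k * θ : ℝ) * I) := by
        rw [← Complex.exp_add]; congr 1; push_cast; ring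
      rw [this]; push_cast; ring
    simp_rw [e]
    rw [intervalIntegral.integral_const_mul, int_exp]
    by_cases hk : k = n
    · subst hk; simp; ring
    · rw [if_neg (by intro hc; apply hk; omega), if_neg hk, mul_zero]
  simp_rw [h2] at h1
  exact (h1.unique (hasSum_ite_eq n _))

lemma per_zz (r θ : ℝ) : zz r (θ + 2 * Real.pi) = zz r θ := by
  unfold zz
  congr 1
  have : ((θ + 2 * Real.pi : ℝ) : ℂ) * I = θ * I + 2 * Real.pi * I := by push_cast; ring
  rw [this, Complex.exp_add, Complex.exp_two_pi_mul_I, mul_one]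

lemma shift (h : Ren f u) {r : ℝ} (hr : 0 ≤ r) (hr1 : r < 1) {n : ℕ} (hn : 1 ≤ n) :
    4 * Real.pi * (u n * r ^ n)
      ≤ ∫ θ in (-Real.pi)..Real.pi, ‖gf u (zz r θ) - gf u (zz r (θ + Real.pi / n))‖ := by
  have hn0 : (0 : ℝ) < n := by exact_mod_cast hn
  have hc := cont_gf h hr hr1
  have hpi := Real.pi_pos
  set H : ℝ → ℂ := fun θ => Complex.exp ((-(n * θ) : ℝ) * I) * gf u (zz r θ) with hH
  have hHc : Continuous H := by rw [hH]; fun_prop
  have hper : Function.Periodic H (2 * Real.pi) := by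
    intro θ
    simp only [hH]
    rw [per_zz]
    congr 1
    have : ((-(n * (θ + 2 * Real.pi)) : ℝ) : ℂ) * I = (-(n * θ) : ℝ) * I + ((-(n : ℤ) : ℤ) : ℂ) * (2 * Real.pi * I) := by
      push_cast; ring
    rw [this, Complex.exp_add, Complex.exp_int_mul_two_pi_mul_I, mul_one]
  have h1 := coef h hr hr1 n
  have h2 : ∫ θ in (-Real.pi)..Real.pi, H θ = ∫ θ in (-Real.pi)..Real.pi, H (θ + Real.pi / n) := by
    rw [intervalIntegral.integral_comp_add_right (fun θ => H θ)]
    have := hper.intervalIntegral_add_eq (-Real.pi) (-Real.pi + Real.pi / n)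
    have e1 : -Real.pi + 2 * Real.pi = Real.pi := by ring
    have e2 : -Real.pi + Real.pi / n + 2 * Real.pi = Real.pi + Real.pi / n := by ring
    rw [e1, e2] at this
    exact this
  have h3 : ∀ θ : ℝ, H (θ + Real.pi / n) = -(Complex.exp ((-(n * θ) : ℝ) * I) * gf u (zz r (θ + Real.pi / n))) := by
    intro θ
    have : ((-(n * (θ + Real.pi / n)) : ℝ) : ℂ) * I = (-(n * θ) : ℝ) * I + -(Real.pi * I) := by
      have hnc : (n : ℂ) ≠ 0 := by exact_mod_cast hn0.ne'
      push_cast; field_simp; ring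
    simp only [hH]
    rw [this, Complex.exp_add, Complex.exp_neg, Complex.exp_pi_mul_I]
    simp
  have h4 : ((4 * Real.pi * (u n * r ^ n) : ℝ) : ℂ)
      = ∫ θ in (-Real.pi)..Real.pi, Complex.exp ((-(n * θ) : ℝ) * I) * (gf u (zz r θ) - gf u (zz r (θ + Real.pi / n))) := by
    have e : ∀ θ : ℝ, Complex.exp ((-(n * θ) : ℝ) * I) * (gf u (zz r θ) - gf u (zz r (θ + Real.pi / n)))
        = H θ + H (θ + Real.pi / n) := by
      intro θ; rw [h3, hH]; ring
    simp_rw [e]
    have hHc2 : Continuous fun θ => H (θ + Real.pi / n) := hHc.comp (continuous_id.add continuous_const)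
    rw [intervalIntegral.integral_add (hHc.intervalIntegrable _ _) (hHc2.intervalIntegrable _ _), ← h2]
    rw [show (∫ θ in (-Real.pi)..Real.pi, H θ) = 2 * (Real.pi : ℂ) * ((u n * r ^ n : ℝ) : ℂ) from h1]
    push_cast; ring
  have h5 : 4 * Real.pi * (u n * r ^ n) = ‖((4 * Real.pi * (u n * r ^ n) : ℝ) : ℂ)‖ := by
    rw [Complex.norm_real, Real.norm_of_nonneg]
    have := u_nonneg h n
    positivity
  rw [h5, h4]
  refine (intervalIntegral.norm_integral_le_integral_norm (by linarith)).trans (le_of_eq ?_)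
  apply intervalIntegral.integral_congr
  intro θ _
  simp only [norm_mul, Complex.norm_exp_ofReal_mul_I, one_mul]

lemma norm_gf_le (h : Ren f u) {r : ℝ} (hr : 0 ≤ r) (hr1 : r < 1) {θ D : ℝ} (hD : 0 < D)
    (hle : D ≤ (1 - gf f (zz r θ)).re) : ‖gf u (zz r θ)‖ ≤ 1 / D := by
  have h1 := gf_mul h (z := zz r θ) (by rw [norm_zz hr]; exact hr1)
  have h2 : ‖gf u (zz r θ)‖ * ‖1 - gf f (zz r θ)‖ = 1 := by rw [← norm_mul, h1, norm_one]
  have h3 : D ≤ ‖1 - gf f (zz r θ)‖ := hle.trans (Complex.re_le_norm _)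
  rw [le_div_iff₀ hD]
  calc ‖gf u (zz r θ)‖ * D ≤ ‖gf u (zz r θ)‖ * ‖1 - gf f (zz r θ)‖ := by gcongr
    _ = 1 := h2

lemma norm_gf_sub_le (h : Ren f u) {r : ℝ} (hr : 0 ≤ r) (hr1 : r < 1) {n : ℕ} (hn : 1 ≤ n) (θ : ℝ) :
    ‖gf u (zz r θ) - gf u (zz r (θ + Real.pi / n))‖
      ≤ Real.pi / n * mm f n * (‖gf u (zz r θ)‖ * ‖gf u (zz r (θ + Real.pi / n))‖) := by
  have h1 := gf_mul h (z := zz r θ) (by rw [norm_zz hr]; exact hr1)
  have h2 := gf_mul h (z := zz r (θ + Real.pi / n)) (by rw [norm_zz hr]; exact hr1)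
  set a := gf u (zz r θ)
  set b := gf u (zz r (θ + Real.pi / n))
  set A := gf f (zz r θ) with hA
  set B := gf f (zz r (θ + Real.pi / n)) with hB
  have e : a - b = (A - B) * (a * b) := by linear_combination b * h1 - a * h2
  rw [e, norm_mul, norm_mul]
  exact mul_le_mul_of_nonneg_right (norm_gf_sub h hr hr1 hn θ) (by positivity)

end NUX
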