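import Pool.Agent.NUX.Ren4

/-! Robust strong renewal bound: `∑_{k≤n} u k = n^(α+o(1))`, `1/2 ≤ α < 1`, implies `u n ≤ n^(α-1+o(1))`
for every `n` (helper37, TARGET-E). -/

namespace NUX

open Finset Complex MeasureTheory

variable {f u : ℕ → ℝ} {α : ℝ}

lemma D_low (h : Ren f u) {e cS : ℝ} (hcS : 0 < cS) (hs : α + e < 2)
    (hS : ∀ n : ℕ, 1 ≤ n → cS * (n : ℝ) ^ (2 - α - e) ≤ S2 f n) {n : ℕ} (hn : 1 ≤ n) {φ : ℝ}
    (h1 : Real.pi / n ≤ |φ|) (h2 : |φ| ≤ Real.pi) :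
    (2 / Real.pi ^ 2 / Real.exp 1) * (cS * (Real.pi / 2) ^ (2 - α - e)) * |φ| ^ (α + e)
      ≤ (1 - gf f (zz (Real.exp (-(1 / n))) φ)).re := by
  have hn0 : (0 : ℝ) < n := by exact_mod_cast hn
  have hpi := Real.pi_pos
  have hφ : 0 < |φ| := lt_of_lt_of_le (by positivity) h1
  set N := ⌊Real.pi / |φ|⌋₊ with hN
  have hq1 : 1 ≤ Real.pi / |φ| := by rw [le_div_iff₀ hφ]; linarith
  have hN1 : 1 ≤ N := Nat.le_floor (by simpa using hq1)
  have hNle : (N : ℝ) ≤ Real.pi / |φ| := Nat.floor_le (by positivity)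
  have hNn : N ≤ n := by
    have : (N : ℝ) ≤ n := hNle.trans (by rw [div_le_iff₀ hφ]; rw [div_le_iff₀ hn0] at h1; linarith)
    exact_mod_cast this
  have hNφ : (N : ℝ) * |φ| ≤ Real.pi := by rwa [le_div_iff₀ hφ] at hNle
  have hNge : Real.pi / (2 * |φ|) ≤ N := by
    have h3 := Nat.lt_floor_add_one (Real.pi / |φ|)
    rw [← hN] at h3
    have h4 : (1 : ℝ) ≤ N := by exact_mod_cast hN1
    have : Real.pi / (2 * |φ|) = Real.pi / |φ| / 2 := by field_simp
    rw [this]; linarith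
  refine le_trans ?_ (re_ge_S2 h hn hNn hNφ)
  rw [mul_assoc]
  apply mul_le_mul_of_nonneg_left _ (by positivity)
  have h5 := hS N hN1
  have hex : 0 ≤ 2 - α - e := by linarith
  have h6 : (Real.pi / (2 * |φ|)) ^ (2 - α - e) ≤ (N : ℝ) ^ (2 - α - e) :=
    Real.rpow_le_rpow (by positivity) hNge hex
  have h7 : (Real.pi / (2 * |φ|)) ^ (2 - α - e) = (Real.pi / 2) ^ (2 - α - e) * |φ| ^ (-(2 - α - e)) := by
    rw [Real.rpow_neg hφ.le, ← div_eq_mul_inv, ← Real.div_rpow (by positivity) hφ.le]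
    congr 1; field_simp
  have h8 : φ ^ 2 = |φ| ^ (2 : ℝ) := by
    rw [Real.rpow_two, sq_abs]
  have h9 : |φ| ^ (α + e) = |φ| ^ (2 : ℝ) * |φ| ^ (-(2 - α - e)) := by
    rw [← Real.rpow_add hφ]; congr 1; ring
  calc cS * (Real.pi / 2) ^ (2 - α - e) * |φ| ^ (α + e)
      = φ ^ 2 * (cS * (Real.pi / (2 * |φ|)) ^ (2 - α - e)) := by rw [h7, h8, h9]; ring
    _ ≤ φ ^ 2 * (cS * (N : ℝ) ^ (2 - α - e)) := by gcongr
    _ ≤ φ ^ 2 * S2 f N := by gcongr

lemma int_pow_le {a s : ℝ} (ha : 0 < a) (ha2 : a ≤ Real.pi) (hs : 1 < s) :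
    ∫ θ in a..Real.pi, θ ^ (-s) ≤ a ^ (1 - s) / (s - 1) := by
  rw [integral_rpow (Or.inr ⟨by linarith, by rw [Set.uIcc_of_le ha2]; intro hc; exact absurd hc.1 (not_le.2 ha)⟩)]
  have h1 : -s + 1 = 1 - s := by ring
  rw [h1]
  have h2 : 0 < Real.pi ^ (1 - s) := Real.rpow_pos_of_pos Real.pi_pos _
  have h3 : (Real.pi ^ (1 - s) - a ^ (1 - s)) / (1 - s) = (a ^ (1 - s) - Real.pi ^ (1 - s)) / (s - 1) := by
    rw [← neg_div_neg_eq]; congr 1 <;> ring
  rw [h3]
  apply div_le_div_of_nonneg_right _ (by linarith)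
  linarith

/-- the bound at one `n`, with explicit constants -/
lemma u_le_at (h : Ren f u) {e cF cS Cm : ℝ} (hcF : 0 < cF) (hcS : 0 < cS) (hCm : 0 < Cm) (he : 0 < e)
    (hα : 1 / 2 ≤ α) (hs1 : α + e < 1)
    (hF : ∀ n : ℕ, 1 ≤ n → cF * (n : ℝ) ^ (-α - e) ≤ Fb f n)
    (hS : ∀ n : ℕ, 1 ≤ n → cS * (n : ℝ) ^ (2 - α - e) ≤ S2 f n)
    (hm : ∀ n : ℕ, 1 ≤ n → mm f n ≤ Cm * (n : ℝ) ^ (1 - α + e)) :
    ∃ C > 0, ∀ n : ℕ, 1 ≤ n → u n ≤ C * (n : ℝ) ^ (α - 1 + 3 * e) := by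
  have hpi := Real.pi_pos
  set s := α + e with hs
  have hs0 : 1 / 2 < s := by rw [hs]; linarith
  set c1 := (2 / Real.pi ^ 2 / Real.exp 1) * (cS * (Real.pi / 2) ^ (2 - α - e)) with hc1
  have hc1p : 0 < c1 := by rw [hc1]; positivity
  set A := 16 * Real.pi / cF with hA
  have hAp : 0 < A := by rw [hA]; positivity
  set B := 2 * (Real.pi * Cm * (2 ^ s / c1 ^ 2) * ((2 * Real.pi) ^ (1 - 2 * s) / (2 * s - 1))) with hB
  have h2s : 0 < 2 * s - 1 := by linarith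
  have hBp : 0 < B := by rw [hB]; positivity
  refine ⟨1 + Real.exp 1 / (4 * Real.pi) * (A + B), by positivity, fun n hn => ?_⟩
  have hn1 : (1 : ℝ) ≤ n := by exact_mod_cast hn
  have hn0 : (0 : ℝ) < n := by linarith
  rcases Nat.lt_or_ge n 2 with hn2 | hn2
  · have : n = 1 := by omega
    subst this
    have := u_le_one h 1
    simp only [Nat.cast_one, Real.one_rpow, mul_one]
    have : 0 ≤ Real.exp 1 / (4 * Real.pi) * (A + B) := by positivity
    linarith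
  have hn2r : (2 : ℝ) ≤ n := by exact_mod_cast hn2
  set r := Real.exp (-(1 / (n : ℝ))) with hr
  have hr0 : 0 ≤ r := (Real.exp_pos _).le
  have hr1 : r < 1 := by rw [hr, Real.exp_lt_one_iff, neg_lt_zero]; positivity
  have hrn : r ^ n = Real.exp (-1) := by
    rw [hr, ← Real.exp_nat_mul]; congr 1; field_simp
  set δ := Real.pi / n with hδ
  have hδ0 : 0 < δ := by rw [hδ]; positivity
  have h2δ : 2 * δ ≤ Real.pi := by
    rw [hδ]
    have : Real.pi / n ≤ Real.pi / 2 := div_le_div_of_nonneg_left hpi.le (by norm_num) hn2r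
    linarith
  have hsh := shift h hr0 hr1 hn
  rw [hrn, ← hδ] at hsh
  set G : ℝ → ℝ := fun θ => ‖gf u (zz r θ) - gf u (zz r (θ + δ))‖ with hG
  have hGc : Continuous G := by
    have hc := cont_gf h hr0 hr1
    have hc2 : Continuous fun θ => gf u (zz r (θ + δ)) := hc.comp (continuous_id.add continuous_const)
    rw [hG]; exact (hc.sub hc2).norm
  -- bound A
  have hbA : ∀ θ, ‖gf u (zz r θ)‖ ≤ 2 / cF * (n : ℝ) ^ s := by
    intro θ
    have h1 := re_ge_tail h hn θ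
    have h2 := hF n hn
    have h3 : cF / 2 * (n : ℝ) ^ (-s) ≤ (1 - gf f (zz r θ)).re := by
      rw [show -s = -α - e by rw [hs]; ring]
      linarith
    have h4 := norm_gf_le h hr0 hr1 (D := cF / 2 * (n : ℝ) ^ (-s)) (by positivity) h3
    refine h4.trans (le_of_eq ?_)
    rw [Real.rpow_neg hn0.le]; field_simp
  have hGA : ∀ θ, G θ ≤ 4 / cF * (n : ℝ) ^ s := by
    intro θ
    have h1 := hbA θ
    have h2 := hbA (θ + δ)
    have h3 := norm_sub_le (gf u (zz r θ)) (gf u (zz r (θ + δ)))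
    have : G θ ≤ 2 / cF * (n : ℝ) ^ s + 2 / cF * (n : ℝ) ^ s := by
      rw [hG]; simp only; linarith
    calc G θ ≤ _ := this
      _ = _ := by ring
  -- bound B
  have hbB : ∀ φ : ℝ, δ ≤ |φ| → |φ| ≤ Real.pi → ‖gf u (zz r φ)‖ ≤ 1 / (c1 * |φ| ^ s) := by
    intro φ h1 h2
    have hφ : 0 < |φ| := lt_of_lt_of_le hδ0 h1
    exact norm_gf_le h hr0 hr1 (by positivity) (D_low h hcS (by linarith) hS hn h1 h2)
  set K := δ * (Cm * (n : ℝ) ^ (1 - α + e)) * (2 ^ s / c1 ^ 2) with hK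
  have hKp : 0 < K := by rw [hK]; positivity
  have hGB : ∀ θ : ℝ, 2 * δ ≤ |θ| → |θ| ≤ Real.pi → G θ ≤ K * |θ| ^ (-(2 * s)) := by
    intro θ h1 h2
    have hθ0 : 0 < |θ| := lt_of_lt_of_le (by positivity) h1
    obtain ⟨φ, hφz, hφ1, hφ2, hφ3⟩ : ∃ φ : ℝ, zz r (θ + δ) = zz r φ ∧ δ ≤ |φ| ∧ |φ| ≤ Real.pi ∧ |θ| / 2 ≤ |φ| := by
      by_cases hc : θ + δ ≤ Real.pi
      · refine ⟨θ + δ, rfl, ?_⟩
        rcases le_total 0 θ with h0 | h0
        · rw [abs_of_nonneg h0] at h1 h2 ⊢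
          rw [abs_of_nonneg (by linarith)]
          exact ⟨by linarith, by linarith, by linarith⟩
        · rw [abs_of_nonpos h0] at h1 h2 ⊢
          rw [abs_of_nonpos (by linarith)]
          exact ⟨by linarith, by linarith, by linarith⟩
      · push Not at hc
        refine ⟨θ + δ - 2 * Real.pi, ?_, ?_⟩
        · rw [← per_zz r (θ + δ - 2 * Real.pi)]; congr 1; ring
        · have h0 : 0 ≤ θ := by linarith
          rw [abs_of_nonneg h0] at h1 h2 ⊢
          rw [abs_of_nonpos (by linarith)]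
          exact ⟨by linarith, by linarith, by linarith⟩
    have hφ0 : 0 < |φ| := lt_of_lt_of_le hδ0 hφ1
    have h3 := norm_gf_sub_le h hr0 hr1 hn θ
    have h4 := hbB θ (by linarith) h2
    have h5 := hbB φ hφ1 hφ2
    rw [← hφz] at h5
    have h6 : 1 / (c1 * |φ| ^ s) ≤ 1 / (c1 * (|θ| / 2) ^ s) := by
      apply one_div_le_one_div_of_le (by positivity)
      exact mul_le_mul_of_nonneg_left (Real.rpow_le_rpow (by positivity) hφ3 (by linarith)) hc1p.le
    have h7 := hm n hn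
    have hm0 := mm_nonneg h n
    calc G θ ≤ δ * mm f n * (‖gf u (zz r θ)‖ * ‖gf u (zz r (θ + δ))‖) := h3
      _ ≤ δ * (Cm * (n : ℝ) ^ (1 - α + e)) * ((1 / (c1 * |θ| ^ s)) * (1 / (c1 * (|θ| / 2) ^ s))) := by
          apply mul_le_mul _ _ (by positivity) (by positivity)
          · exact mul_le_mul_of_nonneg_left h7 hδ0.le
          · exact mul_le_mul h4 (h5.trans h6) (norm_nonneg _) (by positivity)
      _ = K * |θ| ^ (-(2 * s)) := by
          have hX2 : |θ| ^ (-(2 * s)) = (|θ| ^ s * |θ| ^ s)⁻¹ := by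
            rw [Real.rpow_neg hθ0.le, two_mul s, Real.rpow_add hθ0]
          rw [hK, Real.div_rpow hθ0.le (by norm_num), hX2]
          have hX : 0 < |θ| ^ s := by positivity
          generalize |θ| ^ s = X at hX
          field_simp
  -- integrals
  have hi : ∀ a b, IntervalIntegrable G volume a b := fun a b => hGc.intervalIntegrable a b
  have hsplit : ∫ θ in (-Real.pi)..Real.pi, G θ
      = (∫ θ in (-Real.pi)..(-(2 * δ)), G θ) + (∫ θ in (-(2 * δ))..(2 * δ), G θ) + ∫ θ in (2 * δ)..Real.pi, G θ := by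
    rw [intervalIntegral.integral_add_adjacent_intervals (hi _ _) (hi _ _),
      intervalIntegral.integral_add_adjacent_intervals (hi _ _) (hi _ _)]
  have hmid : ∫ θ in (-(2 * δ))..(2 * δ), G θ ≤ 4 * δ * (4 / cF * (n : ℝ) ^ s) := by
    have := intervalIntegral.integral_mono_on (a := -(2 * δ)) (b := 2 * δ) (by linarith) (hi _ _)
      (intervalIntegrable_const (c := 4 / cF * (n : ℝ) ^ s)) (fun θ _ => hGA θ)
    rw [intervalIntegral.integral_const, smul_eq_mul] at this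
    calc _ ≤ _ := this
      _ = _ := by ring
  have hrp : IntervalIntegrable (fun θ : ℝ => K * θ ^ (-(2 * s))) volume (2 * δ) Real.pi := by
    apply ContinuousOn.intervalIntegrable
    rw [Set.uIcc_of_le h2δ]
    apply ContinuousOn.mul continuousOn_const
    exact continuousOn_id.rpow_const fun x hx => Or.inl (by have := hx.1; simp only [id]; intro hc; linarith)
  have hint : ∫ θ in (2 * δ)..Real.pi, K * θ ^ (-(2 * s)) ≤ K * ((2 * δ) ^ (1 - 2 * s) / (2 * s - 1)) := by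
    rw [intervalIntegral.integral_const_mul]
    exact mul_le_mul_of_nonneg_left (int_pow_le (by positivity) h2δ (by linarith)) hKp.le
  have hright : ∫ θ in (2 * δ)..Real.pi, G θ ≤ K * ((2 * δ) ^ (1 - 2 * s) / (2 * s - 1)) := by
    refine le_trans (intervalIntegral.integral_mono_on h2δ (hi _ _) hrp fun θ hθ => ?_) hint
    have h0 : 0 ≤ θ := by have := hθ.1; linarith
    have := hGB θ (by rw [abs_of_nonneg h0]; exact hθ.1) (by rw [abs_of_nonneg h0]; exact hθ.2)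
    rwa [abs_of_nonneg h0] at this
  have hleft : ∫ θ in (-Real.pi)..(-(2 * δ)), G θ ≤ K * ((2 * δ) ^ (1 - 2 * s) / (2 * s - 1)) := by
    have hneg : ∫ θ in (-Real.pi)..(-(2 * δ)), G θ = ∫ θ in (2 * δ)..Real.pi, G (-θ) := by
      rw [intervalIntegral.integral_comp_neg]
    rw [hneg]
    refine le_trans (intervalIntegral.integral_mono_on h2δ
      ((hGc.comp continuous_neg).intervalIntegrable _ _) hrp fun θ hθ => ?_) hint
    have h0 : 0 ≤ θ := by have := hθ.1; linarith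
    have := hGB (-θ) (by rw [abs_neg, abs_of_nonneg h0]; exact hθ.1) (by rw [abs_neg, abs_of_nonneg h0]; exact hθ.2)
    rwa [abs_neg, abs_of_nonneg h0] at this
  have hfin : 4 * Real.pi * (u n * Real.exp (-1)) ≤ (A + B) * (n : ℝ) ^ (α - 1 + 3 * e) := by
    have e1 : 4 * δ * (4 / cF * (n : ℝ) ^ s) = A * (n : ℝ) ^ (s - 1) := by
      rw [hA, hδ, Real.rpow_sub hn0, Real.rpow_one]; field_simp; ring
    have e2 : (n : ℝ) ^ (s - 1) ≤ (n : ℝ) ^ (α - 1 + 3 * e) :=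
      Real.rpow_le_rpow_of_exponent_le hn1 (by rw [hs]; linarith)
    have e3 : 2 * (K * ((2 * δ) ^ (1 - 2 * s) / (2 * s - 1))) = B * (n : ℝ) ^ (α - 1 + 3 * e) := by
      have e4 : (2 * δ) ^ (1 - 2 * s) = (2 * Real.pi) ^ (1 - 2 * s) * (n : ℝ) ^ (2 * s - 1) := by
        rw [hδ, show 2 * (Real.pi / n) = 2 * Real.pi / n by ring, Real.div_rpow (by positivity) hn0.le,
          show 2 * s - 1 = -(1 - 2 * s) by ring, Real.rpow_neg hn0.le]
        rfl
      have e5 : (n : ℝ) ^ (α - 1 + 3 * e) = (n : ℝ) ^ (1 - α + e) * (n : ℝ) ^ (2 * s - 1) / n := by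
        rw [← Real.rpow_add hn0, eq_div_iff hn0.ne']
        nth_rewrite 2 [← Real.rpow_one (n : ℝ)]
        rw [← Real.rpow_add hn0]; congr 1; rw [hs]; ring
      rw [hK, hB, e4, e5, hδ]; field_simp
    have h1 : 4 * Real.pi * (u n * Real.exp (-1)) ≤ 4 * δ * (4 / cF * (n : ℝ) ^ s)
        + 2 * (K * ((2 * δ) ^ (1 - 2 * s) / (2 * s - 1))) := by
      have h2 : 4 * Real.pi * (u n * Real.exp (-1)) ≤ ∫ θ in (-Real.pi)..Real.pi, G θ := hsh
      linarith
    calc _ ≤ _ := h1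
      _ = A * (n : ℝ) ^ (s - 1) + B * (n : ℝ) ^ (α - 1 + 3 * e) := by rw [e1, e3]
      _ ≤ A * (n : ℝ) ^ (α - 1 + 3 * e) + B * (n : ℝ) ^ (α - 1 + 3 * e) := by gcongr
      _ = _ := by ring
  have hexp : Real.exp 1 * Real.exp (-1) = 1 := by rw [← Real.exp_add]; simp
  have hP : 0 < (n : ℝ) ^ (α - 1 + 3 * e) := by positivity
  calc u n = Real.exp 1 / (4 * Real.pi) * (4 * Real.pi * (u n * Real.exp (-1))) := by
        field_simp; rw [mul_assoc, hexp, mul_one]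
    _ ≤ Real.exp 1 / (4 * Real.pi) * ((A + B) * (n : ℝ) ^ (α - 1 + 3 * e)) := by gcongr
    _ ≤ (1 + Real.exp 1 / (4 * Real.pi) * (A + B)) * (n : ℝ) ^ (α - 1 + 3 * e) := by nlinarith

/-- **Robust strong renewal bound.** -/
theorem u_hi (h : Ren f u) (hα : 1 / 2 ≤ α) (hα1 : α < 1) (hU : Hi (UU u) α) (hL : Lo (UU u) α) :
    Hi u (α - 1) := by
  apply Hi.of_small (e0 := 1 - α) (by linarith)
  intro ε hε hε1
  have he : 0 < ε / 3 := by positivity
  have hm := mm_hi h hL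
  have hml := mm_lo h hU
  have hF := Fb_hi h hm
  have hFl := Fb_lo h (by linarith) hα1 hm hml
  have hS := S2_lo h (by linarith) hα1 hF hFl
  obtain ⟨Cm, hCm, h1⟩ := hm (ε / 3) he
  obtain ⟨cF, hcF, h2⟩ := hFl (ε / 3) he
  obtain ⟨cS, hcS, h3⟩ := hS (ε / 3) he
  obtain ⟨C, hC, h4⟩ := u_le_at h hcF hcS hCm he hα (by linarith) h2 h3 h1
  refine ⟨C, hC, fun n hn => ?_⟩
  have := h4 n hn
  rwa [show α - 1 + 3 * (ε / 3) = α - 1 + ε by ring] at this

end NUX
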