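import Pool.Agent.CMP.LatTail
import Pool.Agent.NUX.Br2

/-! Arcs and bridges of a strip: thin words, long words, short words (helper37, TARGET-E). -/

set_option autoImplicit false

namespace HexObs

namespace BrL

open Finset TS SDN T2

open scoped ENNReal

/-- the walks of the strip of height T that leave it through the top or through the floor -/
def CT (T : ℕ) : Set (List Bool) := {t | t ∈ out (St T) oo up up ∨ t ∈ out (St T) oo up (-up)}

lemma CT_saw {T : ℕ} {t : List Bool} (h : t ∈ CT T) : Saw (St T) oo up t := by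
  rcases h with h | h <;> exact h.1

lemma CT_tip {T : ℕ} {t : List Bool} (h : t ∈ CT T) : tip oo up t ∉ St T := by
  rcases h with h | h <;> exact h.2.1

lemma par_of_St {T A : ℕ} {v : Pt} (h : v ∈ St T) (hA : |v.1 - v.2| < (A : ℤ)) : v ∈ LP.Par T A A := by
  obtain ⟨h1, h2, h3⟩ := CC.mem_St.1 h
  unfold CC.lv at h1 h2 h3
  rw [LP.arcA_par, LP.arcA_cl']
  rw [abs_lt] at hA
  refine ⟨by omega, h2, h3, by omega, by omega⟩

lemma St_of_par {T A : ℕ} {v : Pt} (h : v ∈ LP.Par T A A) : v ∈ St T := by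
  rw [LP.arcA_par, LP.arcA_cl'] at h
  rw [CC.mem_St]
  unfold CC.lv
  obtain ⟨h1, h2, h3, _, _⟩ := h
  exact ⟨by omega, h2, h3⟩

lemma CT_exits {T : ℕ} {t : List Bool} (h : t ∈ CT T) : ∃ A0 : ℕ, 1 ≤ A0 ∧ ∀ A : ℕ, A0 ≤ A →
    t ∈ exits (LP.Par T A A) oo up := by
  set g : ℕ → ℕ := fun i => ((vx oo up t i).1 - (vx oo up t i).2).natAbs with hg
  refine ⟨(range (t.length + 1)).sup g + 1, by omega, fun A hA => ?_⟩
  rw [mem_exits]
  have hs := CT_saw h
  refine ⟨⟨fun i h1 h2 => par_of_St (hs.mem i h1 h2) ?_, hs.inj⟩, fun hc => CT_tip h (St_of_par hc)⟩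
  have h3 : g i ≤ (range (t.length + 1)).sup g := le_sup (f := g) (mem_range.2 (by omega))
  have h4 : g i = ((vx oo up t i).1 - (vx oo up t i).2).natAbs := rfl
  rw [← Int.natCast_natAbs]
  exact_mod_cast (by omega : ((vx oo up t i).1 - (vx oo up t i).2).natAbs < A)

lemma cos_le_cw' {T A : ℕ} (hT : 1 ≤ T) (hA : 1 ≤ A) {t : List Bool} (ht : t ∈ exits (LP.Par T A A) oo up) :
    Real.cos (3 * Real.pi / 8) * xc ^ t.length ≤ LP.cw t := by
  have h3 := Tube.dm_wind upd true hT hA hA ht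
  unfold LP.cw
  apply mul_le_mul_of_nonneg_right _ (pow_nonneg xc_pos.le _)
  rw [← Real.cos_abs (wind t * (Real.pi / 8))]
  have h4 : (-3 : ℝ) ≤ wind t := by exact_mod_cast h3.1
  have h5 : (wind t : ℝ) ≤ 3 := by exact_mod_cast h3.2
  have hp := Real.pi_pos
  apply Real.cos_le_cos_of_nonneg_of_le_pi (abs_nonneg _) (by linarith)
  rw [abs_mul, abs_of_pos (by positivity : 0 < Real.pi / 8)]
  have h6 : |(wind t : ℝ)| ≤ 3 := abs_le.2 ⟨h4, h5⟩
  nlinarith

/-- thin words are exponentially rare -/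
theorem far_CT : ∃ C q : ℝ, 0 < C ∧ 0 < q ∧ q < 1 ∧ ∀ T r : ℕ, 1 ≤ T → 1 ≤ r →
    gf {t | t ∈ CT T ∧ CMP.Far r t} ≤ ENNReal.ofReal (C * q ^ (r / T)) := by
  classical
  obtain ⟨C, q, hC, hq, hq1, h⟩ := CMP.lat_tail
  have hcos := cos3_pos
  refine ⟨C / Real.cos (3 * Real.pi / 8), q, by positivity, hq, hq1, fun T r hT hr => ?_⟩
  unfold gf
  rw [ENNReal.tsum_eq_iSup_sum]
  apply iSup_le
  intro s
  have h1 : ∃ A : ℕ, 1 ≤ A ∧ ∀ t ∈ s, t.1 ∈ exits (LP.Par T A A) oo up := by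
    have h2 : ∀ t : {t | t ∈ CT T ∧ CMP.Far r t}, ∃ A0 : ℕ, 1 ≤ A0 ∧ ∀ A : ℕ, A0 ≤ A →
        t.1 ∈ exits (LP.Par T A A) oo up := fun t => CT_exits t.2.1
    choose A0 hA0 hA using h2
    refine ⟨s.sup A0 + 1, by omega, fun t ht => hA t _ ?_⟩
    have := le_sup (f := A0) ht
    omega
  obtain ⟨A, hA, h2⟩ := h1
  have h3 : ∑ t ∈ s, wE t.1 = ENNReal.ofReal (∑ t ∈ s, xc ^ t.1.length) := by
    unfold wE
    rw [ENNReal.ofReal_sum_of_nonneg fun t _ => pow_nonneg xc_pos.le _]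
  rw [h3]
  apply ENNReal.ofReal_le_ofReal
  have h4 : ∑ t ∈ s, Real.cos (3 * Real.pi / 8) * xc ^ t.1.length ≤ C * q ^ (r / T) := by
    refine le_trans ?_ (h T A A r hT hA hA hr)
    have h5 : ∑ t ∈ s, Real.cos (3 * Real.pi / 8) * xc ^ t.1.length ≤ ∑ t ∈ s, LP.cw t.1 :=
      sum_le_sum fun t ht => cos_le_cw' hT hA (h2 t ht)
    refine h5.trans ?_
    have h6 : ∑ t ∈ s, LP.cw t.1 = ∑ t ∈ s.image Subtype.val, LP.cw t := by
      rw [sum_image fun a _ b _ hab => Subtype.ext hab]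
    rw [h6]
    apply sum_le_sum_of_subset_of_nonneg
    · intro t ht
      obtain ⟨u, hu, rfl⟩ := mem_image.1 ht
      exact mem_filter.2 ⟨h2 u hu, u.2.2⟩
    · intro t ht _
      exact le_trans (mul_nonneg hcos.le (pow_nonneg xc_pos.le _)) (cos_le_cw' hT hA (mem_filter.1 ht).1)
  rw [← mul_sum] at h4
  rw [div_mul_eq_mul_div, le_div_iff₀ hcos]
  linarith

lemma vx_zero' (t : List Bool) : vx oo up t 0 = oo := rfl

/-- the words of the strip that are not thin are words of a box -/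
lemma box_of {T r L : ℕ} {t : List Bool} (h : t ∈ CT T) (hF : ¬ CMP.Far r t) (hL : T + r + 2 ≤ 2 ^ L) :
    t ∈ WL L := by
  have hs := CT_saw h
  refine ⟨⟨fun _ _ _ => Set.mem_univ _, hs.inj⟩, fun i hi dir => ?_⟩
  rcases Nat.eq_zero_or_pos i with h0 | h0
  · subst h0
    rw [vx_zero']
    have : row dir oo = 0 := by
      cases dir <;> decide
    rw [this]
    positivity
  · have h1 := hs.mem i h0 hi
    obtain ⟨_, h2, h3⟩ := CC.mem_St.1 h1
    unfold CC.lv at h2 h3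
    have h4 : ¬ (3 * (r : ℤ) - 1 ≤ LP.nn (vx oo up t i) ∨ LP.nn (vx oo up t i) ≤ -(3 * (r : ℤ))) :=
      fun hc => hF ⟨i, h0, hi, hc⟩
    push Not at h4
    unfold LP.nn at h4
    have hL' : (T : ℤ) + r + 2 ≤ 2 ^ L := by exact_mod_cast hL
    unfold row
    cases dir
    · have e : lvl false (vx oo up t i) = (vx oo up t i).1 + 2 * (vx oo up t i).2 := lvl_false_eq _
      rw [e, abs_le]
      constructor <;> omega
    · have e : lvl true (vx oo up t i) = -(2 * (vx oo up t i).1 + (vx oo up t i).2) := lvl_true_eq _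
      rw [e, abs_le]
      constructor <;> omega

end BrL

end HexObs
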